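import Pool.Agent.MP_993212_an.H92.PDefs

/-! Basic facts on actions, coefficients, positivity and chains with classes. -/

set_option linter.unusedSectionVars false

namespace Pool.Agent.MP_993212_an.H92

open Matrix Polynomial H16

variable {G : Type} [AddCommGroup G] [Module ℤ[X] G]
variable {I J K V : Type}

section Act

variable [Fintype J] [Fintype K]

theorem act_mul (M : Matrix I J ℤ[X]) (N : Matrix J K ℤ[X]) (ξ : K → G) :
    act (M * N) ξ = act M (act N ξ) := by
  funext i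
  simp only [act, mul_apply, Finset.sum_smul, Finset.smul_sum, mul_smul]
  exact Finset.sum_comm

theorem act_add (M N : Matrix I J ℤ[X]) (ξ : J → G) : act (M + N) ξ = act M ξ + act N ξ := by
  funext i; simp [act, add_smul, Finset.sum_add_distrib]

theorem act_sub (M N : Matrix I J ℤ[X]) (ξ : J → G) : act (M - N) ξ = act M ξ - act N ξ := by
  funext i; simp [act, sub_smul, Finset.sum_sub_distrib]

@[simp] theorem act_zero (ξ : J → G) : act (0 : Matrix I J ℤ[X]) ξ = 0 := by
  funext i; simp [act]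

@[simp] theorem act_zero' (M : Matrix I J ℤ[X]) : act M (0 : J → G) = 0 := by
  funext i; simp [act]

@[simp] theorem act_one [DecidableEq J] (ξ : J → G) : act (1 : Matrix J J ℤ[X]) ξ = ξ := by
  funext i; simp [act, one_apply, ite_smul]

theorem act_smul (c : ℤ[X]) (M : Matrix I J ℤ[X]) (ξ : J → G) : act (c • M) ξ = c • act M ξ := by
  funext i; simp [act, Finset.smul_sum, mul_smul]

theorem act_smul' (c : ℤ[X]) (M : Matrix I J ℤ[X]) (ξ : J → G) : act M (c • ξ) = c • act M ξ := by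
  funext i; simp [act, Finset.smul_sum, smul_comm c]

theorem act_add' (M : Matrix I J ℤ[X]) (ξ η : J → G) : act M (ξ + η) = act M ξ + act M η := by
  funext i; simp [act, Finset.sum_add_distrib]

theorem act_blocks {I' : Type} (A : Matrix I J ℤ[X]) (B : Matrix I K ℤ[X]) (C : Matrix I' J ℤ[X])
    (D : Matrix I' K ℤ[X]) (ξ : J → G) (η : K → G) : act (fromBlocks A B C D) (Sum.elim ξ η) =
      Sum.elim (act A ξ + act B η) (act C ξ + act D η) := by
  funext i; rcases i with i | i <;> simp [act, Fintype.sum_sum_type]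

theorem sum_act [Fintype I] (y : I → ℤ[X]) (M : Matrix I J ℤ[X]) (ξ : J → G) :
    ∑ i, y i • act M ξ i = ∑ j, (y ᵥ* M) j • ξ j := by
  simp only [act, vecMul, dotProduct, Finset.smul_sum, Finset.sum_smul, mul_smul]
  exact Finset.sum_comm

theorem cc_mul (A : Matrix I J ℤ) (B : Matrix J K ℤ) : cc (A * B) = cc A * cc B :=
  Matrix.map_mul (f := (C : ℤ →+* ℤ[X]))

theorem cf_mul (A : Matrix I J ℤ[X]) (B : Matrix J K ℤ[X]) : cf 0 (A * B) = cf 0 A * cf 0 B := by
  ext; simp [cf, mul_apply]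

theorem cf_cc_mul (k : ℕ) (A : Matrix I J ℤ) (B : Matrix J K ℤ[X]) :
    cf k (cc A * B) = A * cf k B := by
  ext; simp [cf, cc, mul_apply]

theorem N0.mul {A : Matrix I J ℤ} {B : Matrix J K ℤ} (h : N0 A) (g : N0 B) : N0 (A * B) :=
  fun i k => Finset.sum_nonneg fun j _ => mul_nonneg (h i j) (g j k)

theorem NN.mul {A : Matrix I J ℤ[X]} {B : Matrix J K ℤ[X]} (h : NN A) (g : NN B) : NN (A * B) :=
  fun i k n => by
    rw [mul_apply, finset_sum_coeff]
    exact Finset.sum_nonneg fun j _ => by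
      rw [coeff_mul]; exact Finset.sum_nonneg fun p _ => mul_nonneg (h _ _ _) (g _ _ _)

end Act

@[simp] theorem cc_one [DecidableEq I] : cc (1 : Matrix I I ℤ) = 1 :=
  Matrix.map_one _ (map_zero _) (map_one _)

@[simp] theorem cc_zero : cc (0 : Matrix I J ℤ) = 0 := by ext; simp [cc]

theorem cc_add (A B : Matrix I J ℤ) : cc (A + B) = cc A + cc B := by ext; simp [cc]

theorem cc_sub (A B : Matrix I J ℤ) : cc (A - B) = cc A - cc B := by ext; simp [cc]

@[simp] theorem cf_cc (A : Matrix I J ℤ) : cf 0 (cc A) = A := by ext; simp [cc, cf]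

theorem cf_add (k : ℕ) (A B : Matrix I J ℤ[X]) : cf k (A + B) = cf k A + cf k B := by
  ext; simp [cf]

theorem cf_sub (k : ℕ) (A B : Matrix I J ℤ[X]) : cf k (A - B) = cf k A - cf k B := by
  ext; simp [cf]

@[simp] theorem cf_zero (k : ℕ) : cf k (0 : Matrix I J ℤ[X]) = 0 := by ext; simp [cf]

@[simp] theorem cf_one [DecidableEq I] : cf 0 (1 : Matrix I I ℤ[X]) = 1 := by
  rw [← cc_one, cf_cc]

@[simp] theorem cf_X_smul (A : Matrix I J ℤ[X]) : cf 0 ((X : ℤ[X]) • A) = 0 := by ext; simp [cf]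

theorem cf_blocks {I' J' : Type} (k : ℕ) (A : Matrix I J ℤ[X]) (B : Matrix I J' ℤ[X])
    (C : Matrix I' J ℤ[X]) (D : Matrix I' J' ℤ[X]) :
    cf k (fromBlocks A B C D) = fromBlocks (cf k A) (cf k B) (cf k C) (cf k D) :=
  fromBlocks_map _ _ _ _ _

theorem cc_blocks {I' J' : Type} (A : Matrix I J ℤ) (B : Matrix I J' ℤ) (C : Matrix I' J ℤ)
    (D : Matrix I' J' ℤ) : cc (fromBlocks A B C D) = fromBlocks (cc A) (cc B) (cc C) (cc D) :=
  fromBlocks_map _ _ _ _ _

theorem split_X (N : Matrix I J ℤ[X]) : cc (cf 0 N) + (X : ℤ[X]) • N.map divX = N := by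
  refine Matrix.ext fun i j => ?_
  simpa [cc, cf, add_comm, mul_comm] using divX_mul_X_add (N i j)

theorem divX_X_smul (N : Matrix I J ℤ[X]) : ((X : ℤ[X]) • N).map divX = N := by
  ext i j k; simp [coeff_divX, coeff_X_mul]

theorem divX_add' (M N : Matrix I J ℤ[X]) : (M + N).map divX = M.map divX + N.map divX := by
  ext i j k; simp [coeff_divX]

theorem divX_cc_mul [Fintype J] (A : Matrix I J ℤ) (N : Matrix J K ℤ[X]) :
    (cc A * N).map divX = cc A * N.map divX := by
  ext i j k; simp [coeff_divX, cc, mul_apply]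

@[simp] theorem divX_cc (A : Matrix I J ℤ) : (cc A).map divX = 0 := by
  refine Matrix.ext fun i j => ?_
  exact divX_C _

theorem N0.add {A B : Matrix I J ℤ} (h : N0 A) (g : N0 B) : N0 (A + B) :=
  fun i j => add_nonneg (h i j) (g i j)

theorem N0.zero : N0 (0 : Matrix I J ℤ) := fun _ _ => le_rfl

theorem N0.one [DecidableEq I] : N0 (1 : Matrix I I ℤ) := fun i j => by
  rw [one_apply]; split_ifs <;> simp

theorem N0.pow [Fintype I] [DecidableEq I] {A : Matrix I I ℤ} (h : N0 A) (n : ℕ) : N0 (A ^ n) := by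
  induction n with
  | zero => simpa using N0.one
  | succ n ih => rw [pow_succ]; exact ih.mul h

theorem N0.sum {α : Type} {s : Finset α} {f : α → Matrix I J ℤ} (h : ∀ a ∈ s, N0 (f a)) :
    N0 (∑ a ∈ s, f a) := fun i j => by
  rw [Matrix.sum_apply]; exact Finset.sum_nonneg fun a ha => h a ha i j

theorem N0.blocks {I' J' : Type} {A : Matrix I J ℤ} {B : Matrix I J' ℤ} {C : Matrix I' J ℤ}
    {D : Matrix I' J' ℤ} (a : N0 A) (b : N0 B) (c : N0 C) (d : N0 D) : N0 (fromBlocks A B C D) := by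
  rintro (i | i) (j | j)
  exacts [a i j, b i j, c i j, d i j]

theorem N0.cc {A : Matrix I J ℤ} (h : N0 A) : NN (cc A) := fun i j k => by
  simp only [H92.cc, map_apply, coeff_C]; split_ifs; exacts [h i j, le_rfl]

theorem NN.cf {A : Matrix I J ℤ[X]} (h : NN A) (k : ℕ) : N0 (cf k A) := fun i j => h i j k

theorem NN.add {A B : Matrix I J ℤ[X]} (h : NN A) (g : NN B) : NN (A + B) := fun i j k => by
  simpa using add_nonneg (h i j k) (g i j k)

theorem NN.zero : NN (0 : Matrix I J ℤ[X]) := fun _ _ _ => by simp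

theorem NN.one [DecidableEq I] : NN (1 : Matrix I I ℤ[X]) := cc_one (I := I) ▸ N0.one.cc

theorem NN.divX {A : Matrix I J ℤ[X]} (h : NN A) : NN (A.map divX) := fun i j k => by
  simpa [coeff_divX] using h i j (k + 1)

theorem NN.pow_smul {A : Matrix I J ℤ[X]} (h : NN A) (n : ℕ) : NN ((X ^ n : ℤ[X]) • A) :=
  fun i j k => by
    simp only [Matrix.smul_apply, smul_eq_mul, coeff_X_pow_mul']; split_ifs; exacts [h _ _ _, le_rfl]

theorem NN.X_smul {A : Matrix I J ℤ[X]} (h : NN A) : NN ((X : ℤ[X]) • A) := by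
  simpa using h.pow_smul 1

theorem NN.blocks {I' J' : Type} {A : Matrix I J ℤ[X]} {B : Matrix I J' ℤ[X]}
    {C : Matrix I' J ℤ[X]} {D : Matrix I' J' ℤ[X]} (a : NN A) (b : NN B) (c : NN C) (d : NN D) :
    NN (fromBlocks A B C D) := by
  rintro (i | i) (j | j)
  exacts [a i j, b i j, c i j, d i j]

theorem NN.sub {I' J' : Type} {A : Matrix I J ℤ[X]} (h : NN A) (e : I' → I) (f : J' → J) :
    NN (A.submatrix e f) := fun _ _ => h _ _

theorem NN.tr {A : Matrix I J ℤ[X]} (h : NN A) : NN Aᵀ := fun _ _ => h _ _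

theorem NN.eq_zero {a b : ℤ[X]} (ha : ∀ k, 0 ≤ a.coeff k) (hb : ∀ k, 0 ≤ b.coeff k)
    (h : a + b = 0) : a = 0 := by
  ext k
  have := congrArg (fun p => p.coeff k) h
  have h1 := ha k
  have h2 := hb k
  simp only [coeff_add, coeff_zero] at this ⊢
  omega

variable [Fintype I] [DecidableEq I] [Fintype J] [DecidableEq J] [Fintype V] [DecidableEq V]

theorem nil_swap {R : Matrix I J ℤ} {S : Matrix J I ℤ} (h : IsNilpotent (R * S)) :
    IsNilpotent (S * R) := by
  obtain ⟨n, hn⟩ := h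
  refine ⟨n + 1, ?_⟩
  rw [pow_succ, ← Matrix.mul_assoc, H12.pow_inter (Matrix.mul_assoc S R S) n, hn]
  simp

theorem nil_mono {A B : Matrix I I ℤ} (ha : N0 A) (h : N0 (B - A)) (hb : IsNilpotent B) :
    IsNilpotent A := by
  obtain ⟨n, hn⟩ := hb
  have : ∀ k, N0 (B ^ k - A ^ k) := fun k => by
    induction k with
    | zero => simpa using N0.zero
    | succ k ih =>
      have := (ih.mul (h.add ha)).add ((ha.pow k).mul h)
      rwa [show (B ^ k - A ^ k) * (B - A + A) + A ^ k * (B - A) = B ^ (k + 1) - A ^ (k + 1) by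
        rw [pow_succ, pow_succ]; noncomm_ring] at this
  refine ⟨n, Matrix.ext fun i j => le_antisymm ?_ (ha.pow n i j)⟩
  simpa [hn] using this n i j

theorem exists_inv {A : Matrix I I ℤ} (ha : N0 A) (h : IsNilpotent A) :
    N0 (1 - A)⁻¹ ∧ (1 - A) * (1 - A)⁻¹ = 1 ∧ (1 - A)⁻¹ * (1 - A) = 1 := by
  obtain ⟨n, hn⟩ := h
  have e : (1 - A) * ∑ i ∈ Finset.range n, A ^ i = 1 := by rw [mul_neg_geom_sum, hn, sub_zero]
  rw [Matrix.inv_eq_right_inv e]
  exact ⟨N0.sum fun i _ => ha.pow i, e, mul_eq_one_comm.1 e⟩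

theorem nil_of_inv {A Z : Matrix I I ℤ} (ha : N0 A) (hz : N0 Z) (e : Z * (1 - A) = 1) :
    IsNilpotent A := by
  by_contra h
  have h1 : ∀ k : ℕ, (k : ℤ) ≤ ∑ i, ∑ j, (Z - Z * A ^ k) i j := fun k => by
    induction k with
    | zero => simp
    | succ k ih =>
      have e1 : Z - Z * A ^ (k + 1) = Z - Z * A ^ k + A ^ k := by
        have : Z * (1 - A) * A ^ k = A ^ k := by rw [e, one_mul]
        rw [pow_succ', ← this]; nth_rewrite 3 [← this]; rw [e]; simp only [one_mul]
        rw [← sub_eq_zero]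
        have : Z * (A * A ^ k) = Z * A ^ k - A ^ k := by
          nth_rewrite 3 [← this]; noncomm_ring
        rw [this]; abel
      obtain ⟨i, j, hij⟩ : ∃ i j, (A ^ k) i j ≠ 0 := by
        by_contra g
        exact h ⟨k, Matrix.ext fun i j => by by_contra g'; exact g ⟨i, j, g'⟩⟩
      have h2 : (A ^ k) i j ≤ ∑ i, ∑ j, (A ^ k) i j :=
        (Finset.single_le_sum (fun j _ => ha.pow k i j) (Finset.mem_univ j)).trans
          (Finset.single_le_sum (f := fun i => ∑ j, (A ^ k) i j)
            (fun i _ => Finset.sum_nonneg fun j _ => ha.pow k i j) (Finset.mem_univ i))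
      have h3 := ha.pow k i j
      rw [e1]
      simp only [Matrix.add_apply, Finset.sum_add_distrib]
      push_cast
      omega
  have h2 := h1 ((∑ i, ∑ j, Z i j).toNat + 1)
  have h3 : 0 ≤ ∑ i, ∑ j, (Z * A ^ ((∑ i, ∑ j, Z i j).toNat + 1)) i j :=
    Finset.sum_nonneg fun i _ => Finset.sum_nonneg fun j _ => hz.mul (ha.pow _) i j
  simp only [Matrix.sub_apply, Finset.sum_sub_distrib] at h2
  omega

theorem N0.lift {B : Matrix I J ℤ} (h : N0 B) : ∃ B' : Matrix I J ℕ, zz B' = B :=
  ⟨B.map Int.toNat, Matrix.ext fun i j => Int.toNat_of_nonneg (h i j)⟩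

variable {A : Matrix V V ℕ} {ι : V → G}

theorem Rp.step {R : Matrix I J ℤ} {S : Matrix J I ℤ} {κ : J → G} (hR : N0 R) (hS : N0 S)
    (h : Rp A ι (R * S) (act (cc R) κ)) : Rp A ι (S * R) κ := by
  obtain ⟨R, rfl⟩ := hR.lift
  obtain ⟨S, rfl⟩ := hS.lift
  obtain ⟨B, T, a, b, e, c, h⟩ := h
  obtain rfl : B = R * S := zz_inj (e.trans (zz_mul R S).symm)
  exact ⟨S * R, T * R, a, b, zz_mul S R, c.step R S, by rw [h, zz_mul, cc_mul, act_mul]⟩

theorem rp_smul {B : Matrix I I ℤ} {κ : I → G} : Rp A ι B ((X : ℤ[X]) • κ) ↔ Rp A ι B κ := by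
  constructor
  · rintro ⟨B', T, a, b, e, c, h⟩
    exact ⟨B', T, a, b + 1, e, c, by rw [h, act_smul', smul_smul, pow_succ]⟩
  · rintro ⟨B', T, a, b, e, c, h⟩
    exact ⟨B', T, a + 1, b, e, c, by rw [pow_succ', mul_smul, h, act_smul', smul_comm]⟩

theorem rp_step {R : Matrix I J ℤ} {S : Matrix J I ℤ} {κ : J → G} (hR : N0 R) (hS : N0 S)
    (h : κ = (X : ℤ[X]) • act (cc S) (act (cc R) κ)) :
    Rp A ι (R * S) (act (cc R) κ) ↔ Rp A ι (S * R) κ :=
  ⟨Rp.step hR hS, fun g => Rp.step hS hR (rp_smul.1 (h ▸ g))⟩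

/-- removal of states that are only entered from removed states of smaller height -/
theorem rp_cut {B : Matrix I I ℤ} {κ : I → G} (hB : N0 B) (hκ : κ = (X : ℤ[X]) • act (cc B) κ)
    (e : J → I) (he : Function.Injective e) (ht : I → ℕ)
    (h : ∀ u v, B u v ≠ 0 → v ∉ Set.range e → u ∉ Set.range e ∧ ht u < ht v) :
    Rp A ι B κ ↔ Rp A ι (B.submatrix e e) (κ ∘ e) := by
  classical
  let D : ℕ → Matrix I I ℤ := fun k => diagonal fun u => if u ∈ Set.range e ∨ k ≤ ht u then 1 else 0
  have d0 : ∀ k, N0 (D k) := fun k u v => by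
    simp only [D, diagonal_apply]; split_ifs <;> simp
  have d1 : ∀ k, D k * B * D (k + 1) = D k * B := fun k => by
    ext u v
    simp only [D, mul_diagonal, diagonal_mul]
    by_cases g : B u v = 0
    · simp [g]
    have := h u v g
    split_ifs with p q
    · simp
    · exfalso
      rw [not_or] at q
      have := this q.1
      rcases p with p | p
      exacts [this.1 p, by omega]
    all_goals simp
  have d2 : ∀ k, D (k + 1) * D k = D (k + 1) := fun k => by
    simp only [D, diagonal_mul_diagonal]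
    congr 1; funext u
    split_ifs with p q
    · simp
    · exact absurd (p.imp id fun p => by omega) q
    all_goals simp
  have d3 : ∀ k, act (cc (D k)) κ = (X : ℤ[X]) • act (cc (D k * B)) κ := fun k => by
    rw [cc_mul, act_mul, ← act_smul', ← hκ]
  have key : ∀ k, Rp A ι B κ ↔ Rp A ι (D k * B) (act (cc (D k)) κ) := fun k => by
    induction k with
    | zero => simp [D]
    | succ k ih =>
      have e1 : act (cc (D k * B)) (act (cc (D (k + 1))) κ) = act (cc (D k * B)) κ := by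
        rw [← act_mul, ← cc_mul, d1]
      have := rp_step (A := A) (ι := ι) (κ := act (cc (D (k + 1))) κ) ((d0 k).mul hB) (d0 (k + 1))
        (by rw [e1, ← act_mul, ← cc_mul, ← Matrix.mul_assoc, d2, d3])
      rw [d1, e1, ← Matrix.mul_assoc, d2] at this
      rw [ih, d3, rp_smul, this]
  let n := Finset.univ.sup ht + 1
  let E : Matrix J I ℤ := (1 : Matrix I I ℤ).submatrix e id
  have e0 : N0 E := fun _ _ => N0.one _ _
  have e1 : Eᵀ * E = D n := by
    ext u v
    have : ¬n ≤ ht u := by have := Finset.le_sup (f := ht) (Finset.mem_univ u); omega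
    simp only [E, D, mul_apply, transpose_apply, submatrix_apply, id, one_apply, diagonal_apply,
      this, or_false]
    by_cases g : u ∈ Set.range e
    · obtain ⟨j, rfl⟩ := g
      rw [Finset.sum_eq_single j (fun x _ q => by simp [he.eq_iff, q]) (by simp)]
      simp
    · rw [Finset.sum_eq_zero fun j _ => by rw [if_neg fun q => g ⟨j, q⟩, zero_mul]]
      simp [g]
  have e2 : E * B * Eᵀ = B.submatrix e e := by
    ext i j; simp [E, mul_apply, one_apply]
  have e3 : act (cc E) κ = κ ∘ e := by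
    funext j; simp [E, act, cc, one_apply, apply_ite C, ite_smul]
  have e4 : E * B * D n = E * B := by
    ext j v
    have : (E * B) j v = B (e j) v := by simp [E, mul_apply, one_apply]
    simp only [D, mul_diagonal, this]
    by_cases g : B (e j) v = 0
    · simp [g]
    rw [if_pos (Or.inl (by by_contra q; exact (h _ _ g q).1 ⟨j, rfl⟩)), mul_one]
  have := rp_step (A := A) (ι := ι) (κ := act (cc E) κ) (R := Eᵀ) (fun _ _ => e0 _ _) (e0.mul hB)
    (by rw [← act_mul (cc Eᵀ), ← cc_mul, e1, ← act_mul, ← cc_mul, e4, cc_mul, act_mul,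
      ← act_smul', ← hκ])
  rw [← Matrix.mul_assoc, e1, ← act_mul, ← cc_mul, e1, e2, e3] at this
  rw [key n, this]

end Pool.Agent.MP_993212_an.H92
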