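import Pool.Agent.MP_993212_an.H92.RMain
import Pool.Agent.MP_993212_an.H46.Spec

/-! The statements `RB`, `KER`, `SOL` and monotone forms of the reduction bounds. -/

namespace Pool.Agent.MP_993212_an.H92

open Matrix H46

theorem gs_mono {N N' c c' : ℕ} (h : N ≤ N') (g : c ≤ c') : gsb N c ≤ gsb N' c' := by
  unfold gsb; gcongr

theorem sb_mono {N N' p p' c c' : ℕ} (h : N ≤ N') (e : p ≤ p') (g : c ≤ c') :
    sb N p c ≤ sb N' p' c' := by
  have h1 : ∀ k, (gsb N)^[k] c ≤ (gsb N')^[k] c' := fun k => by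
    induction k with
    | zero => exact g
    | succ k ih => rw [Function.iterate_succ_apply', Function.iterate_succ_apply']; exact gs_mono h ih
  have h2 := Function.monotone_iterate_of_id_le (f := gsb N')
    (fun x => (Nat.le_succ x).trans (le_gs N' x)) (Nat.mul_le_mul_left 2 e) c'
  exact Nat.succ_le_succ ((h1 _).trans h2)

theorem ib_mono {n n' c c' : ℕ} (h : n ≤ n') (g : c ≤ c') : ib n c ≤ ib n' c' := by
  unfold ib
  refine Nat.mul_le_mul ?_ (by gcongr; omega)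
  rcases Nat.eq_zero_or_pos n' with e | e
  · subst e; rw [Nat.le_zero.1 h]
  · exact (Nat.pow_le_pow_left h _).trans (Nat.pow_le_pow_right e h)

theorem rc_mono {n n' : ℕ} (h : n ≤ n') : rc n ≤ rc n' := by
  unfold rc; gcongr; omega

theorem xb_mono {n n' k k' : ℕ} (h : n ≤ n') (g : k ≤ k') : xb n k ≤ xb n' k' := by
  have h1 : fc n k ≤ fc n' k' := by unfold fc; have := rc_mono h; gcongr
  have h2 : dc n k ≤ dc n' k' := by unfold dc; gcongr; omega
  have h3 := ib_mono h (le_refl 2)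
  unfold xb; gcongr

theorem bnd_mono {n n' s s' k k' : ℕ} (h : n ≤ n') (e : s ≤ s') (g : k ≤ k') :
    bnd n s k ≤ bnd n' s' k' := by
  have h1 := xb_mono h g
  have h2 : sb (n * n) (s * (n * n) + n * n) (2 * xb n k + 1) ≤
      sb (n' * n') (s' * (n' * n') + n' * n') (2 * xb n' k' + 1) :=
    sb_mono (by gcongr) (by gcongr) (by gcongr)
  have h3 := ib_mono h (Nat.succ_le_succ h2)
  unfold bnd pb
  exact Nat.succ_le_succ (Nat.add_le_add (Nat.add_le_add h3 h2) h1)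

theorem pb_bnd : PB fun N => bnd N N N :=
  ⟨primrec_bnd Primrec.id Primrec.id Primrec.id, fun _ _ h => bnd_mono h h h⟩

theorem pb_xb : PB fun N => xb N N := ⟨primrec_xb Primrec.id Primrec.id, fun _ _ h => xb_mono h h⟩

theorem pb_sb : PB fun N => sb N N N :=
  ⟨primrec_sb Primrec.id Primrec.id Primrec.id, fun _ _ h => sb_mono h h h⟩

theorem pb_ib : PB fun N => ib N N :=
  ⟨by unfold ib; open Pool.Agent.MP_c1eef4_lc.H62 in fun_prop, fun _ _ h => ib_mono h h⟩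

/-- THEOREM R with one bound -/
theorem connect' {s n N : ℕ} {M M' : Tup s n} (hn : n ≤ N) (hs : s ≤ N) (hS : SS M)
    (hM : ∀ i, Bd N (M i)) (hM' : ∀ i, Bd N (M' i)) {g g' : Mx n} (e : g * g' = 1)
    (ar : Arr M g M') : Conn (bnd N N N) M g M' :=
  (connect hS hM hM' e ar).mono (bnd_mono hn hs le_rfl)

/-- THEOREM R0 with one bound -/
theorem bounded_rep' {s n N : ℕ} {M M' : Tup s n} (hn : n ≤ N) (hS : SS M)
    (hM : ∀ i, Bd N (M i)) {P : Matrix (Fin n) (Fin n) ℚ} (e : P.det ≠ 0)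
    (ar : ∀ i, cq (M i) * P = P * cq (M' i)) :
    ∃ (h h' : Mx n) (X : Tup s n), h * h' = 1 ∧ Arr M' h X ∧ ∀ i, Bd (xb N N) (X i) := by
  obtain ⟨h, h', X, e1, a, b⟩ := bounded_rep hS hM (Matrix.mul_nonsing_inv P (Ne.isUnit e)) ar
  exact ⟨h, h', X, e1, a, fun i => (b i).mono (xb_mono hn le_rfl)⟩

theorem det_cq_ne {n : ℕ} {P : Mx n} (e : P.det ≠ 0) : (cq P).det ≠ 0 := by
  have : (cq P).det = (P.det : ℚ) := ((Int.castRingHom ℚ).map_det P).symm
  rw [this]; exact_mod_cast e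

theorem SS.conjq {s n : ℕ} {M M' : Tup s n} (h : SS M) {P : Matrix (Fin n) (Fin n) ℚ}
    (e : P.det ≠ 0) (ar : ∀ i, cq (M i) * P = P * cq (M' i)) : SS M' :=
  SSq.conj h (Matrix.mul_nonsing_inv P (Ne.isUnit e)) ar

theorem SS.conjd {s n : ℕ} {M M' : Tup s n} (h : SS M) {P : Mx n} (e : P.det ≠ 0)
    (ar : Arr M P M') : SS M' :=
  h.conjq (det_cq_ne e) fun i => by rw [← cq_mul, ar i, cq_mul]

theorem SS.snoc {s n : ℕ} {M : Tup s n} (h : SS M) {e : Mx n} (he : e * e = e)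
    (hc : ∀ i, e * M i = M i * e) : SS (Fin.snoc (α := fun _ => Mx n) M e) := by
  intro W hW
  obtain ⟨P, p1, p2, p3⟩ := h W fun i => by simpa using hW i.castSucc
  have w1 : ∀ v ∈ W, cq e *ᵥ v ∈ W := by simpa using hW (Fin.last s)
  have w2 : ∀ v ∈ W, (1 - cq e) *ᵥ v ∈ W := fun v hv => by
    rw [sub_mulVec, one_mulVec]; exact W.sub_mem hv (w1 v hv)
  have e1 : cq e * cq e = cq e := by rw [← cq_mul, he]
  have e2 : ∀ i, Commute (cq e) (cq (M i)) := fun i => by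
    rw [Commute, SemiconjBy, ← cq_mul, hc, cq_mul]
  refine ⟨cq e * P * cq e + (1 - cq e) * P * (1 - cq e), fun i => ?_, fun v => ?_, fun v hv => ?_⟩
  · refine Fin.lastCases ?_ (fun i => ?_) i
    · simp only [Fin.snoc_last, Matrix.add_mul, Matrix.mul_add, Matrix.mul_assoc, Matrix.sub_mul,
        Matrix.one_mul, e1, sub_self, Matrix.mul_zero]
      rw [← Matrix.mul_assoc (cq e) (cq e), e1, Matrix.mul_sub (cq e), ← Matrix.mul_assoc (cq e) (cq e),
        e1, sub_self]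
    · simp only [Fin.snoc_castSucc]
      have c1 : Commute P (cq (M i)) := p1 i
      have c2 := (Commute.one_left _).sub_left (e2 i)
      exact (((e2 i).mul_left c1).mul_left (e2 i)).add_left ((c2.mul_left c1).mul_left c2)
  · simp only [add_mulVec, ← mulVec_mulVec]
    exact W.add_mem (w1 _ (p2 _)) (w2 _ (p2 _))
  · simp only [add_mulVec, ← mulVec_mulVec]
    rw [p3 _ (w1 v hv), p3 _ (w2 v hv), mulVec_mulVec, mulVec_mulVec, ← add_mulVec]
    have : cq e * cq e + (1 - cq e) * (1 - cq e) = 1 := by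
      rw [Matrix.sub_mul, Matrix.mul_sub, Matrix.mul_sub, e1]; simp
    rw [this, one_mulVec]

theorem sol_gen (α β : Type) [Fintype α] [Fintype β] (S : Matrix α β ℤ) (N : ℕ)
    (ha : Fintype.card α ≤ N) (hb : Fintype.card β ≤ N) (hS : sz S ≤ N) :
    ∃ K : Matrix β β ℤ, (∀ i j, (K i j).natAbs ≤ sb N N N) ∧ S * K = 0 ∧
      ∀ x : β → ℤ, vs (S *ᵥ x) ≤ N → ∃ r m, x = r + K *ᵥ m ∧ ∀ j, (r j).natAbs ≤ sb N N N := by
  classical
  have c1 : ∀ {z : ℤ} {c : ℕ}, |z| ≤ c ↔ z.natAbs ≤ c := fun {z c} => by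
    rw [← Int.natCast_natAbs, Nat.cast_le]
  have c2 := sb_mono hb ha (le_refl N)
  let ε := Fintype.equivFin α
  obtain ⟨K, b, z, t⟩ := sol_sys (σ := β) _ N (fun e => S (ε.symm e)) fun e j =>
    c1.2 ((le_sz S _ _).trans hS)
  refine ⟨K, fun i j => (c1.1 (b i j)).trans c2, ?_, fun x hx => ?_⟩
  · ext i j
    simpa [vecMul, dotProduct, Matrix.mul_apply] using congrFun (z (ε i)) j
  · obtain ⟨r, m, e1, e2⟩ := t x fun e => c1.2 ((le_vs (S *ᵥ x) _).trans hx)
    exact ⟨r, m, e1, fun j => (c1.1 (e2 j)).trans c2⟩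

theorem sol : SOL := by
  refine ⟨fun N => N * sb N N N, PB.id.mul pb_sb, fun α β _ _ S N x ha hb hS hx => ?_⟩
  obtain ⟨K, -, z, t⟩ := sol_gen α β S N ha hb hS
  obtain ⟨r, m, e1, e2⟩ := t x hx
  refine ⟨r, ?_, (vs_le_of e2).trans (Nat.mul_le_mul_right _ hb)⟩
  rw [e1, mulVec_add, mulVec_mulVec, z, zero_mulVec, add_zero]

theorem ker : KER := by
  refine ⟨fun N => (2 * sb N N N + 1) ^ N + N * sb N N N,
    (((PB.const 2).mul pb_sb).pow PB.id).add (PB.id.mul pb_sb), fun α β _ _ S N ha hb hS => ?_⟩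
  classical
  obtain ⟨K, b, z, t⟩ := sol_gen α β S N ha hb hS
  set c := sb N N N
  let T : Finset (β → ℤ) :=
    (Fintype.piFinset fun _ => Finset.Icc (-(c : ℤ)) c).filter fun v => S *ᵥ v = 0
  have hT : ∀ v, v ∈ T ↔ (∀ j, (v j).natAbs ≤ c) ∧ S *ᵥ v = 0 := fun v => by
    simp only [T, Finset.mem_filter, Fintype.mem_piFinset, Finset.mem_Icc]
    exact and_congr_left fun _ => forall_congr' fun j => by omega
  have hm : ∀ v, v ∈ T → v ∈ Submodule.span ℤ (Set.range fun j => (T.equivFin.symm j : β → ℤ)) :=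
    fun v hv => Submodule.subset_span ⟨T.equivFin ⟨v, hv⟩, by simp⟩
  refine ⟨T.card, fun j => T.equivFin.symm j, ?_, fun j => ?_, fun j => ((hT _).1 (T.equivFin.symm j).2).2,
    fun x hx => ?_⟩
  · refine le_add_right ((Finset.card_filter_le _ _).trans ?_)
    rw [Fintype.card_piFinset, Finset.prod_const, Int.card_Icc, Finset.card_univ]
    exact (Nat.pow_le_pow_left (by omega) _).trans (Nat.pow_le_pow_right (Nat.succ_pos _) hb)
  · exact le_add_left ((vs_le_of ((hT _).1 (T.equivFin.symm j).2).1).trans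
      (Nat.mul_le_mul_right _ hb))
  obtain ⟨r, m, e1, e2⟩ := t x (by simp [hx, vs])
  have e3 : S *ᵥ r = 0 := by
    rwa [e1, mulVec_add, mulVec_mulVec, z, zero_mulVec, add_zero] at hx
  have e4 : K *ᵥ m = ∑ j, m j • fun i => K i j := by
    ext i; simp [mulVec, dotProduct, mul_comm]
  rw [e1, e4]
  refine Submodule.add_mem _ (hm _ ((hT _).2 ⟨e2, e3⟩)) (Submodule.sum_mem _ fun j _ =>
    Submodule.smul_mem _ _ (hm _ ((hT _).2 ⟨fun i => b i j, ?_⟩)))
  ext i
  simpa [mulVec, dotProduct, Matrix.mul_apply] using congrFun (congrFun z i) j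

theorem cast_vs {m : ℕ} (v : Fin m → ℤ) : (vs v : ℝ) = ∑ i, |(v i : ℝ)| := by
  simp [vs, Nat.cast_natAbs]

theorem rb : RB := by
  refine ⟨rc, ⟨by unfold rc; open Pool.Agent.MP_c1eef4_lc.H62 in fun_prop, fun _ _ => rc_mono⟩,
    fun m L => ?_⟩
  have β := Module.finBasis ℤ L
  have hr : Module.finrank ℤ L ≤ m := by simpa using L.finrank_le
  generalize Module.finrank ℤ L = r at β hr
  let B : Matrix (Fin m) (Fin r) ℤ := Matrix.of fun i k => (β k : Fin m → ℤ) i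
  have li : LinearIndependent ℤ fun k => (β k : Fin m → ℤ) :=
    β.linearIndependent.map' L.subtype L.ker_subtype
  have hB : ∀ t : Fin r → ℤ, B *ᵥ t = ∑ k, t k • (β k : Fin m → ℤ) := fun t => by
    ext i; simp [B, mulVec, dotProduct, mul_comm]
  have hd : (Bᵀ * B).det ≠ 0 := fun h => by
    obtain ⟨v, hv, e⟩ := Matrix.exists_mulVec_eq_zero_iff.2 h
    have e1 : (B *ᵥ v) ⬝ᵥ (B *ᵥ v) = 0 := by
      rw [dotProduct_mulVec, vecMul_mulVec, ← dotProduct_mulVec, e, dotProduct_zero]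
    rw [dotProduct_self_eq_zero, hB] at e1
    exact hv (funext (Fintype.linearIndependent_iff.1 li v e1))
  have hd' : IsUnit (cr (Bᵀ * B)).det := by
    have : (cr (Bᵀ * B)).det = ((Bᵀ * B).det : ℝ) := ((Int.castRingHom ℝ).map_det _).symm
    rw [this]; exact Ne.isUnit (by exact_mod_cast hd)
  have hQ : (cr (Bᵀ * B))⁻¹ * cr Bᵀ * cr B = 1 := by
    rw [Matrix.mul_assoc, ← cr_mul, Matrix.nonsing_inv_mul _ hd']
  have hN : IsN fun x : Fin r → ℝ => ∑ i, |(cr B *ᵥ x) i| := by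
    refine ⟨fun x y => ?_, fun t x => le_of_eq ?_, ?_⟩
    · rw [← Finset.sum_add_distrib, mulVec_add]
      exact Finset.sum_le_sum fun i _ => abs_add_le _ _
    · simp [mulVec_smul, abs_mul, Finset.mul_sum]
    let Q := LinearMap.toContinuousLinearMap (Matrix.mulVecLin ((cr (Bᵀ * B))⁻¹ * cr Bᵀ))
    refine ⟨1 / (‖Q‖ + 1), by positivity, fun x => ?_⟩
    have h1 : ‖x‖ ≤ ‖Q‖ * ‖cr B *ᵥ x‖ := by
      have := Q.le_opNorm (cr B *ᵥ x)
      rwa [show Q (cr B *ᵥ x) = x by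
        change ((cr (Bᵀ * B))⁻¹ * cr Bᵀ) *ᵥ (cr B *ᵥ x) = x
        rw [mulVec_mulVec, hQ, one_mulVec]] at this
    have h2 : ‖cr B *ᵥ x‖ ≤ ∑ i, |(cr B *ᵥ x) i| :=
      (pi_norm_le_iff_of_nonneg (by positivity)).2 fun i =>
        Finset.single_le_sum (f := fun i => |(cr B *ᵥ x) i|) (fun _ _ => abs_nonneg _)
          (Finset.mem_univ i)
    rw [div_mul_eq_mul_div, div_le_iff₀ (by positivity)]
    nlinarith [norm_nonneg (cr B *ᵥ x), norm_nonneg Q]
  obtain ⟨g, hg, e⟩ := exists_reduced r _ hN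
  obtain ⟨g', e'⟩ := hg.exists_right_inv
  have hb : ∀ t : Fin r → ℤ, (∑ k, t k • fun i => (B * g) i k) = B *ᵥ (g *ᵥ t) := fun t => by
    rw [mulVec_mulVec]; ext i; simp [mulVec, dotProduct, mul_comm]
  have hc : ∀ (t : Fin r → ℤ) i, (cr B *ᵥ (cr g *ᵥ fun k => (t k : ℝ))) i = (B *ᵥ (g *ᵥ t)) i :=
    fun t i => by simp [cr, mulVec, dotProduct]
  have hk : ∀ k i, (cr B *ᵥ col g k) i = (B * g) i k := fun k i => by
    simp [cr, col, mulVec, dotProduct, Matrix.mul_apply]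
  refine ⟨r, fun k i => (B * g) i k, hr, le_antisymm (Submodule.span_le.2 ?_) fun v hv => ?_,
    fun k h => ?_, fun t k => ?_⟩
  · rintro _ ⟨k, rfl⟩
    have : (fun i => (B * g) i k) = B *ᵥ fun j => g j k := rfl
    beta_reduce
    rw [this, hB]
    exact L.sum_mem fun j _ => L.smul_mem _ (β j).2
  · have h1 : v = B *ᵥ (g *ᵥ (g' *ᵥ fun k => β.repr ⟨v, hv⟩ k)) := by
      rw [mulVec_mulVec _ g, e', one_mulVec, hB]
      have := congrArg Subtype.val (β.sum_repr ⟨v, hv⟩)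
      simp only [Submodule.coe_sum, Submodule.coe_smul] at this
      exact this.symm
    rw [h1, ← hb]
    exact Submodule.sum_mem _ fun k _ => Submodule.smul_mem _ _ (Submodule.subset_span ⟨k, rfl⟩)
  · have := hN.pos (col_ne_zero e' k)
    simp [hk, congrFun h] at this
  · have h1 := e (fun k => t k) k
    simp only [hk, hc] at h1
    rw [← cast_vs, ← cast_vs, ← Int.cast_abs, ← Nat.cast_natAbs, ← hb] at h1
    exact le_trans (by exact_mod_cast h1) (Nat.mul_le_mul_right _ (rc_mono hr))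

end Pool.Agent.MP_993212_an.H92
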