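import Pool.Agent.MP_993212_an.H92.Pre

/-! Honest presentations have the potential of the matrix up to an admissible value. -/

namespace Pool.Agent.MP_993212_an.H92

open Matrix Polynomial Function H16

theorem honStmt (hB : Base) : HonStmt := by
  rintro V s G _ _ _ _ _ _ oV o A ι P ξ iV io p ⟨a1, a2, L, C, T, a, b, a3, a4, a5, a6⟩
  have sh : ∀ (n : ℕ) (ι : V → G), Pres (pen (zz A)) ι →
      pt G V oV (zz A) (fun u => (X : ℤ[X]) ^ n • ι u) - pt G V oV (zz A) ι ∈ Adm A :=
    fun n ι p => by
      have q : Pres (pen (zz A)) fun u => (X : ℤ[X]) ^ n • ι u := by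
        induction n with
        | zero => simpa using p
        | succ n ih =>
          simpa only [pow_succ', mul_smul] using
            (hB.tr.pres_shift V G (pen (zz A)) _ (fun u v => pen_coeff _ u v) ih).1
      have := hB.ch_adm iV (Ch.pow A n) oV _ iV q
      rwa [zz_pow, pull_smul, pull_fix p.smul_pull] at this
  have q := hB.pres_lv a1 a3 a2
  rw [← a4] at q
  have b1 := hB.ch_adm iV a5 _ _ (rkL_inj io _) q
  have b2 := sh b _ (hB.pres_ch (T := zz T) (a5.map (Nat.castRingHom ℤ)) q)
  have b3 := sh a ι p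
  rw [funext a6] at b3
  rw [a1.pn, pp_eq hB (hB.pt_isPot G 0) io (fun _ => Nat.zero_le _) a1 a3 a2, ppL, ← a4]
  convert add_mem (sub_mem b1 b2) b3 using 1
  abel

end Pool.Agent.MP_993212_an.H92
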