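import Pool.Agent.MP_993212_an.H92.PMain
import Pool.Agent.MP_993212_an.H15.FatA

/-! Small multiples of a fat form are virtually positive. -/

namespace Pool.Agent.MP_993212_an.H92

open Matrix Polynomial Finset H18 H15F
open H15 hiding cf

variable {I : Type} [Fintype I] [DecidableEq I] {ρ K ε : ℝ} {h c L : ℕ} {γ : I → ℕ} {z p q : I}
  {N : Matrix I I ℤ[X]}

theorem ff_split (F : FF ρ K ε h c L γ z p q N) (h0 : 0 ≤ ρ) (hL : 2 * h ≤ L) (i l : I) :
    ∃ e, N1 ((N - Lb z ((c : ℤ[X]) * X ^ h) fun l => X ^ γ l) i l - e - if l = z then Wd h else 0) ∧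
      X ^ (if l = z then 2 * h else L) ∣ e ∧ nz ρ e ≤ (if l = z then ρ ^ (2 * h) / 8 else 0) + ε := by
  have p0 : 0 ≤ ρ ^ (2 * h) / 8 := by positivity
  simp only [Matrix.sub_apply, Lb, of_apply]
  by_cases a : l = z <;> by_cases b : i = z <;> simp only [a, b, if_true, if_false, zero_add]
  · obtain ⟨a, h1, h2, h3⟩ := F.hub
    exact ⟨_, by simpa using h1, h2, h3⟩
  · exact ⟨_, by simpa using n1_zero, (pow_dvd_pow _ hL).trans (F.col i b).1,
      (F.col i b).2.trans (by linarith)⟩
  · exact ⟨_, by simpa using n1_zero, F.row l a⟩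
  · by_cases d : i = l
    · obtain ⟨φ, h1, -, -, h2⟩ := F.dia l a
      exact ⟨_, by simpa [d] using h1, h2⟩
    · exact ⟨_, by simpa using n1_zero, F.off i l b a d⟩

theorem ff_bd (F : FF ρ K ε h c L γ z p q N) (h0 : 0 ≤ ρ) (h1 : ρ ≤ 1) (e1 : ε ≤ 1) (j l : I) :
    nz ρ ((1 - N) j l) ≤ h + 3 + if j = z then |K| else 0 := by
  have a1 : nz ρ ((1 : Matrix I I ℤ[X]) j l) ≤ 1 := by
    rw [one_apply]; split_ifs <;> simp [nz_one, nz_zero]
  have a2 : nz ρ (Wd h) ≤ h := by
    rw [Wd_eq, nz_pow_mul h0]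
    exact (mul_le_of_le_one_left (nz_nonneg _) (pow_le_one₀ h0 h1)).trans (nz_W h0 h1 h)
  have a3 : ∀ x y : ℤ[X], nz ρ x ≤ nz ρ (x - y) + nz ρ y := fun x y => by
    simpa using nz_add (ρ := ρ) (x - y) y
  have a4 : (0 : ℝ) ≤ h := by positivity
  have a5 := le_abs_self K
  have a6 := abs_nonneg K
  refine (nz_sub_le a1 le_rfl).trans ?_
  by_cases a : l = z <;> by_cases b : j = z <;> simp only [a, b, if_true, if_false]
  · linarith [F.bd]
  · linarith [(F.col j b).2, a3 (N j z) (Wd h)]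
  · linarith [(F.row l a).2, a3 (N z l) (X ^ γ l), nz_X_pow h0 (γ l), pow_le_one₀ (n := γ l) h0 h1]
  · by_cases d : j = l
    · obtain ⟨φ, -, h2, -, -, h3⟩ := F.dia l a
      rw [d]
      linarith [a3 (N l l) φ]
    · linarith [(F.off j l b a d).2]

theorem regStmt : RegStmt := by
  intro ρ h c γ₀ h0 h1 hh hc
  refine ⟨ρ ^ (2 * h + γ₀) / (16 * (h + 3)), by positivity, fun I _ _ z p q γ K hp hq gp gq g1 => ?_⟩
  obtain ⟨τ, t0, t1, t2⟩ : ∃ τ : ℝ, 0 < τ ∧ τ ≤ 1 ∧ ∀ l, τ ≤ ρ ^ (2 * h + γ l) :=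
    ⟨ρ ^ (2 * h + univ.sup γ), by positivity, pow_le_one₀ h0.le h1.le, fun l =>
      pow_le_pow_of_le_one h0.le h1.le (Nat.add_le_add_left (le_sup (mem_univ l)) _)⟩
  refine ⟨τ / (16 * (Fintype.card I + 1) * (h + 3 + |K|)), by positivity, τ / 32, by positivity,
    2 * h + univ.sup γ, fun N H ν F hν R => ?_⟩
  set r := ρ ^ (2 * h + γ₀) / (16 * (h + 3)) with hr
  set r₁ := τ / (16 * (Fintype.card I + 1) * (h + 3 + |K|)) with hr₁
  have r0 : 0 ≤ r := by positivity
  have r1 : r * (h + 3) = ρ ^ (2 * h + γ₀) / 16 := by rw [hr]; field_simp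
  have r2 : r ≤ 1 := by
    have := pow_le_one₀ (n := 2 * h + γ₀) h0.le h1.le
    nlinarith [mul_nonneg r0 (Nat.cast_nonneg h)]
  have r3 : Fintype.card I * (r₁ * (h + 3 + |K|)) ≤ τ / 16 := by
    have : (Fintype.card I + 1) * (r₁ * (h + 3 + |K|)) = τ / 16 := by rw [hr₁]; field_simp
    have : 0 ≤ r₁ * (h + 3 + |K|) := by positivity
    linarith
  have bd := ff_bd F h0.le h1.le (by linarith)
  have g2 : ∀ l, γ l ≤ univ.sup γ := fun l => le_sup (mem_univ l)
  have x0 : cf 0 H.val = 1 := by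
    rw [← sub_eq_zero, ← cf_one, ← cf_sub]
    ext i j
    have := R i j
    split_ifs at this
    all_goals exact X_pow_dvd_iff.1 this.1 0 (by omega)
  have key : ∀ i l, X ^ (if l = z then h else h + γ l) ∣ ((H.val - 1) * (1 - N)) i l ∧
      nz ρ (((H.val - 1) * (1 - N)) i l) ≤
        ρ ^ (2 * h + if l = z then 0 else γ l) / 8 + τ / 8 := fun i l => by
    have u1 : ρ ^ (2 * h + γ₀) ≤ ρ ^ (2 * h + 0) := pow_le_pow_of_le_one h0.le h1.le (by omega)
    have u2 : 0 < ρ ^ (2 * h + if l = z then 0 else γ l) := by positivity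
    have u : ∀ j, X ^ (if l = z then h else h + γ l) ∣ (H.val - 1) i j * (1 - N) j l ∧
        nz ρ ((H.val - 1) i j * (1 - N) j l) ≤ r₁ * (h + 3 + |K|) +
          ((if j = p then 1 else 0) + if j = q then 1 else 0) *
            (ρ ^ (2 * h + if l = z then 0 else γ l) / 16 + τ / 32) := fun j => by
      have R' := R i j
      have b := bd j l
      have v0 : 0 ≤ r₁ * (h + 3 + |K|) := by positivity
      by_cases m : (i = p ∨ i = q) ∧ (j = p ∨ j = q)
      · rw [if_pos m] at R'
        have jz : j ≠ z := m.2.elim (fun e => e ▸ hp) fun e => e ▸ hq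
        have v1 : (1 : ℝ) ≤ (if j = p then 1 else 0) + if j = q then 1 else 0 := by
          split_ifs with a b b
          · norm_num
          · norm_num
          · norm_num
          · exact absurd m.2 (not_or.2 ⟨a, b⟩)
        rw [if_neg jz, add_zero] at b
        suffices w : X ^ (if l = z then h else h + γ l) ∣ (H.val - 1) i j * (1 - N) j l ∧
            nz ρ ((H.val - 1) i j * (1 - N) j l) ≤
              ρ ^ (2 * h + if l = z then 0 else γ l) / 16 + τ / 32 from
          ⟨w.1, w.2.trans ((le_mul_of_one_le_left (by positivity) v1).trans (by linarith))⟩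
        have w1 := nz_mul_le R'.2 b
        by_cases a : l = z
        · simp only [a, if_true] at w1 ⊢
          exact ⟨((pow_dvd_pow _ (by omega)).trans R'.1).mul_right _, by linarith⟩
        simp only [a, if_false] at u2 ⊢
        by_cases d : j = l
        · have : γ l = γ₀ := m.2.elim (fun e => d ▸ e ▸ gp) fun e => d ▸ e ▸ gq
          rw [this]
          exact ⟨((pow_dvd_pow _ (by omega)).trans R'.1).mul_right _, by linarith⟩
        · have o := F.off j l jz a d
          have := g2 l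
          rw [Matrix.sub_apply 1, one_apply_ne d, zero_sub]
          refine ⟨((pow_dvd_pow _ (by omega)).trans o.1).neg_right.mul_left _, ?_⟩
          have := nz_mul_le (R'.2.trans r2) ((nz_neg _).trans_le o.2)
          linarith
      · rw [if_neg m] at R'
        have := g2 l
        refine ⟨((pow_dvd_pow _ (by split_ifs <;> omega)).trans R'.1).mul_right _,
          (nz_mul_le R'.2 (b.trans (show _ ≤ h + 3 + |K| by split_ifs <;> simp))).trans
            (le_add_of_nonneg_right (by positivity))⟩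
    rw [mul_apply]
    refine ⟨dvd_sum fun j _ => (u j).1, (nz_sum _ _).trans ((sum_le_sum fun j _ => (u j).2).trans ?_)⟩
    rw [sum_add_distrib, sum_const, ← sum_mul, sum_add_distrib]
    simp only [card_univ, nsmul_eq_mul, sum_ite_eq', mem_univ, if_true]
    linarith
  have b1 : ∀ l, (X : ℤ[X]) ∣ X ^ γ l := fun l => dvd_pow_self _ (by have := g1 l; omega)
  refine ⟨nn_Lb (n1_mul (n1_nat c) (n1_pow h)) fun l => n1_pow _, cf_Lb (dvd_g hh) b1,
    room moves h0 h1 hh hc (fun l => n1_pow _) b1 fun i => Or.inr ?_,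
    by rw [cf_mul, cf_sub, x0, F.zero]; simp⟩
  choose e e1 e2 e3 using ff_split F h0.le (Nat.le_add_right _ _) i
  have e4 : ∀ l, (1 - Lb z ((c : ℤ[X]) * X ^ h) (fun l => X ^ γ l) - H.val * (1 - N)) i l +
      (((H.val - 1) * (1 - N)) i l - e l) =
      (N - Lb z ((c : ℤ[X]) * X ^ h) fun l => X ^ γ l) i l - e l := fun l => by
    rw [← add_sub_assoc, ← Matrix.add_apply, show 1 - _ - H.val * (1 - N) + (H.val - 1) * (1 - N) =
      N - Lb z ((c : ℤ[X]) * X ^ h) fun l => X ^ γ l by noncomm_ring]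
  refine ⟨0, fun l => ((H.val - 1) * (1 - N)) i l - e l, by rw [e4]; simpa using e1 z, ?_,
    fun l hl => ⟨by rw [e4]; simpa [hl] using e1 l, Or.inr ⟨γ l, by simpa using n1_zero, ?_⟩⟩⟩
  · have a := key i z
    have b := e2 z
    have d := e3 z
    have := (t2 p).trans (pow_le_pow_of_le_one h0.le h1.le (Nat.le_add_right _ _))
    simp only [if_true, add_zero, zero_add] at a b d ⊢
    refine Sm.of_dvd h0 (a.1.sub ((pow_dvd_pow _ (by omega)).trans b)) ((nz_sub_le a.2 d).trans ?_)
    rw [two_mul, pow_add] at *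
    linarith
  · have a := key i l
    have b := e2 l
    have d := e3 l
    have := t2 l
    have := g2 l
    simp only [if_neg hl, zero_add] at a b d ⊢
    refine Sm.of_dvd h0 (a.1.sub ((pow_dvd_pow _ (by omega)).trans b)) ((nz_sub_le a.2 d).trans ?_)
    rw [div_mul_eq_mul_div, ← pow_add, ← add_assoc, ← two_mul]
    linarith

end Pool.Agent.MP_993212_an.H92
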