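import Pool.Agent.MP_993212_an.H92.LowF
import Pool.Agent.MP_993212_an.H92.RegF
import Pool.Agent.MP_993212_an.H72.Last
import Pool.Agent.MP_993212_an.H2.End
import Pool.Agent.MP_993212_an.H15.FatB
import Pool.Agent.MP_993212_an.H18.HubB
import Pool.Agent.MP_993212_an.H54.Mid
import Pool.Agent.MP_993212_an.H54.Abund
import Pool.Agent.MP_993212_an.H28.Clean
import Pool.Agent.MP_993212_an.H57.Bound
import Pool.Agent.MP_993212_an.H46.Ext
import Pool.Agent.MP_993212_an.H46.Room
import Pool.Agent.MP_993212_an.H46.Push

/-! The low normal form. -/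

namespace Pool.Agent.MP_993212_an.H92

theorem lowStmt : H16.LowStmt :=
  low_of (H18.hub_of moves) (H18.emb_of moves) (H18.clean_of (H46.push_of moves)) H65.traceStmt
    (H65.lowExt_of (H46.ext_of moves) H65.traceStmt) (H18.mid_of (H46.ext_of moves)) H18.abundStmt
    (H2.end_of moves (H46.push_of moves)) (H2.dly_of moves) H57.divStmt H57.susStmt
    (H15F.fat_of moves (H18.last_of moves (H46.push_of moves)) H57.boundStmt H57.closeStmt
      (H46.room_of moves) regStmt)

end Pool.Agent.MP_993212_an.H92
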