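import Pool.Agent.MP_993212_an.H16.Spec4
import Pool.Agent.MP_993212_an.H18.Small

/-! The module of a shift equivalence with an admissible value. -/

namespace Pool.Agent.MP_993212_an.H92

open Matrix Polynomial Function H16

variable {V W G : Type} [Fintype V] [DecidableEq V] [Fintype W] [DecidableEq W] [AddCommGroup G]
  [Module ℤ[X] G]

theorem ch_trace {A : Matrix V V ℤ} {B : Matrix W W ℤ} {T : Matrix V W ℤ} (h : Ch A B T) (e : ℕ) :
    trace (A ^ (e + 1)) = trace (B ^ (e + 1)) := by
  induction h with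
  | refl => rfl
  | step R S _ ih =>
    rw [ih, pow_succ, ← Matrix.mul_assoc, trace_mul_comm, H12.pow_inter (Matrix.mul_assoc R S R) e,
      ← Matrix.mul_assoc, pow_succ']

theorem pull_fix {A : Matrix V V ℤ} {ι : V → G} (h : ∀ u, (X : ℤ[X]) • pull A ι u = ι u) (n : ℕ) :
    (fun u => (X : ℤ[X]) ^ n • pull (A ^ n) ι u) = ι := by
  induction n with
  | zero => simp [pull_one]
  | succ n ih =>
    funext u
    rw [pow_succ', pow_succ' A, pull_mul, mul_smul, ← h u]
    nth_rewrite 2 [← ih]
    rw [pull_smul]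

theorem preStmt (hB : Base) : PreStmt where
  small _ _ _ _ _ _ _ _ _ _ _ pA pB _ _ e2 e3 e4 h := H18.real_small pA pB h e2 e3 e4
  pre V W _ _ _ _ oV oW A B R T v a b iV e c e' m := by
    obtain ⟨G, _, _, κ, hκ⟩ := hB.tr.pres_ex W (pen (zz B))
    obtain ⟨h1, h2, h3⟩ := hB.chV_pt (G := G) iV c
    have p1 := hB.pres_ch h2 hκ
    have p2 := hB.pres_ch ((Ch.pow (zz A) b).trans h2) hκ
    have sh : ∀ (n : ℕ) (ι : V → G), Pres (pen (zz A)) ι →
        Pres (pen (zz A)) fun u => (X : ℤ[X]) ^ n • ι u := fun n ι p => by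
      induction n with
      | zero => simpa using p
      | succ n ih =>
        simpa only [pow_succ', mul_smul] using
          (hB.tr.pres_shift V G (pen (zz A)) _ (fun u v => pen_coeff _ u v) ih).1
    have f1 : ∀ u, (X : ℤ[X]) • pull (zz A) (pull (zz R) κ) u = pull (zz R) κ u := fun u => by
      rw [← pull_mul, ← zz_mul, e, zz_mul, pull_mul, ← congrFun (pull_smul _ _ _) u,
        funext hκ.smul_pull]
    have p3 : Pres (pen (zz A)) (pull (zz R) κ) := by
      rw [← pull_fix f1 a, ← pull_mul, e']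
      exact sh a _ p2
    refine ⟨G, _, _, κ, h1, ?_, hκ, p3, ?_⟩
    · have : ∀ k, np k B = np k A := fun k => Finset.sum_congr rfl fun d hd => by
        obtain ⟨d, rfl⟩ := Nat.exists_eq_succ_of_ne_zero (Nat.pos_of_mem_divisors hd).ne'
        rw [← trace_zz, ← trace_zz, zz_pow, zz_pow, ch_trace h2]
      ext x
      simp only [Adm, AddSubgroup.mem_mk, AddSubmonoid.mem_mk, AddSubsemigroup.mem_mk,
        Set.mem_setOf_eq, this]
    · have a1 := hB.ch_adm iV (Ch.pow A a) oV _ iV p3
      have a2 := hB.ch_adm iV (Ch.pow A b) oV _ iV p1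
      rw [zz_pow, ← pull_mul, e'] at a1
      rw [zz_pow, ← pull_mul] at a2
      rw [h3 κ hκ] at m
      convert sub_mem (add_mem m a2) a1 using 1
      abel

end Pool.Agent.MP_993212_an.H92
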