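import Pool.Agent.MP_993212_an.H92.RUp

/-! Every norm on real `n`-space has a quasi-orthogonal basis of the integer lattice. -/

namespace Pool.Agent.MP_993212_an.H92

open Matrix

/-- an integer matrix as a real matrix -/
def cr {m n : Type} (X : Matrix m n ℤ) : Matrix m n ℝ := X.map (Int.castRingHom ℝ)

theorem cr_mul {l m n : Type} [Fintype m] (X : Matrix l m ℤ) (Y : Matrix m n ℤ) :
    cr (X * Y) = cr X * cr Y := Matrix.map_mul

theorem cr_one {n : Type} [DecidableEq n] : cr (1 : Matrix n n ℤ) = 1 :=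
  Matrix.map_one _ (map_zero _) (map_one _)

/-- the column `j` as a real vector -/
def col {n : ℕ} (g : Mx n) (j : Fin n) : Fin n → ℝ := fun i => g i j

theorem col_mul {n : ℕ} (g h : Mx n) (j : Fin n) : col (g * h) j = cr g *ᵥ col h j := by
  ext i; simp [col, cr, mulVec, dotProduct, Matrix.mul_apply]

theorem mulVec_eq_sum_col {n : ℕ} (g : Mx n) (x : Fin n → ℝ) :
    cr g *ᵥ x = ∑ j, x j • col g j := by
  ext i; simp [col, cr, mulVec, dotProduct, mul_comm]

/-- norms on real `n`-space -/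
structure IsN {n : ℕ} (N : (Fin n → ℝ) → ℝ) : Prop where
  add : ∀ x y, N (x + y) ≤ N x + N y
  smul : ∀ (t : ℝ) x, N (t • x) ≤ |t| * N x
  low : ∃ m, 0 < m ∧ ∀ x, m * ‖x‖ ≤ N x

namespace IsN

variable {n : ℕ} {N : (Fin n → ℝ) → ℝ} (h : IsN N)
include h

theorem nonneg (x) : 0 ≤ N x := let ⟨_, m, e⟩ := h.low; le_trans (by positivity) (e x)

theorem pos {x} (hx : x ≠ 0) : 0 < N x :=
  let ⟨_, m, e⟩ := h.low; lt_of_lt_of_le (mul_pos m (norm_pos_iff.2 hx)) (e x)

theorem le_smul (t : ℝ) (x) : |t| * N x ≤ N (t • x) := by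
  by_cases e : t = 0
  · simp only [e, abs_zero, zero_mul]; exact h.nonneg _
  have h1 := h.smul t⁻¹ (t • x)
  rw [smul_smul, inv_mul_cancel₀ e, one_smul, abs_inv] at h1
  have h2 := abs_pos.2 e
  calc |t| * N x ≤ |t| * (|t|⁻¹ * N (t • x)) := by gcongr
    _ = _ := by field_simp

theorem sub (x y) : N (x - y) ≤ N x + N y := by
  have h1 := h.add x ((-1 : ℝ) • y)
  have h2 := h.smul (-1) y
  simp only [neg_smul, one_smul, abs_neg, abs_one, one_mul, ← sub_eq_add_neg] at h1 h2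
  linarith

theorem sum {ι : Type} (s : Finset ι) (f : ι → Fin n → ℝ) :
    N (∑ i ∈ s, f i) ≤ ∑ i ∈ s, N (f i) := by
  classical
  induction s using Finset.induction_on with
  | empty => simpa using h.smul 0 0
  | insert a s ha ih => rw [Finset.sum_insert ha, Finset.sum_insert ha]; linarith [h.add (f a) (∑ i ∈ s, f i)]

theorem comp {P Q : Matrix (Fin n) (Fin n) ℝ} (e : Q * P = 1) : IsN fun x => N (P *ᵥ x) where
  add x y := by rw [mulVec_add]; exact h.add _ _
  smul t x := by rw [mulVec_smul]; exact h.smul _ _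
  low := by
    obtain ⟨m, hm, e1⟩ := h.low
    let L := LinearMap.toContinuousLinearMap (Matrix.mulVecLin Q)
    refine ⟨m / (‖L‖ + 1), by positivity, fun x => le_trans ?_ (e1 _)⟩
    have h1 : ‖x‖ ≤ ‖L‖ * ‖P *ᵥ x‖ := by
      have := L.le_opNorm (P *ᵥ x)
      simpa [L, e] using this
    rw [div_mul_eq_mul_div, div_le_iff₀ (by positivity)]
    nlinarith [norm_nonneg (P *ᵥ x), mul_le_mul_of_nonneg_left h1 hm.le]

end IsN

theorem col_ne_zero {n : ℕ} {g g' : Mx n} (e : g * g' = 1) (j : Fin n) : col g j ≠ 0 := fun h => by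
  have h1 := col_mul g' g j
  rw [mul_eq_one_comm.1 e, h, mulVec_zero] at h1
  simpa [col] using congrFun h1 j

/-- a basis whose first vector is shortest among all basis vectors -/
theorem exists_short {n : ℕ} {N : (Fin (n + 1) → ℝ) → ℝ} (h : IsN N) :
    ∃ U : Mx (n + 1), IsUnit U ∧ ∀ g : Mx (n + 1), IsUnit g → ∀ j, N (col U 0) ≤ N (col g j) := by
  obtain ⟨m, hm, e⟩ := h.low
  let S : Set (Fin (n + 1) → ℤ) :=
    {v | N (fun i => v i) ≤ N (col 1 0) ∧ ∃ g : Mx (n + 1), IsUnit g ∧ ∃ j, v = fun i => g i j}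
  have hS : S.Finite := by
    refine (Set.Finite.pi' fun _ => Set.finite_Icc (-⌈N (col 1 0) / m⌉) ⌈N (col 1 0) / m⌉).subset ?_
    rintro v ⟨h1, -⟩ i
    have h2 : |(v i : ℝ)| ≤ N (col 1 0) / m := by
      rw [le_div_iff₀ hm, mul_comm]
      refine le_trans ?_ ((e _).trans h1)
      gcongr
      exact norm_le_pi_norm (fun i => (v i : ℝ)) i
    have h3 : |v i| ≤ ⌈N (col 1 0) / m⌉ := by
      have := h2.trans (Int.le_ceil _)
      exact_mod_cast this
    exact abs_le.1 h3
  obtain ⟨v, ⟨h1, g, hg, j, rfl⟩, h2⟩ := Set.exists_min_image S (fun v => N fun i => v i) hS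
    ⟨fun i => (1 : Mx (n + 1)) i 0, le_rfl, 1, isUnit_one, 0, rfl⟩
  refine ⟨g.submatrix id (Equiv.swap 0 j), ?_, fun g' hg' j' => ?_⟩
  · rw [Matrix.isUnit_iff_isUnit_det, det_permute']
    exact ((Equiv.Perm.sign _).isUnit.map (Int.castRingHom ℤ)).mul
      ((Matrix.isUnit_iff_isUnit_det _).1 hg)
  · have e1 : col (g.submatrix id (Equiv.swap 0 j)) 0 = fun i => (g i j : ℝ) := by
      ext i; simp [col]
    rw [e1]
    by_cases h3 : N (col g' j') ≤ N (col 1 0)
    · exact h2 (fun i => g' i j') ⟨h3, g', hg', j', rfl⟩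
    · exact h1.trans (not_le.1 h3).le

theorem isN_quot {n : ℕ} {N : (Fin (n + 1) → ℝ) → ℝ} (h : IsN N) :
    IsN fun y : Fin n → ℝ => ⨅ t : ℝ, N (Fin.cons t y) := by
  have hb : ∀ y : Fin n → ℝ, BddBelow (Set.range fun t : ℝ => N (Fin.cons t y)) :=
    fun y => ⟨0, by rintro _ ⟨t, rfl⟩; exact h.nonneg _⟩
  refine ⟨fun x y => ?_, fun t x => ?_, ?_⟩
  · refine le_ciInf_add_ciInf fun t u => (ciInf_le (hb _) (t + u)).trans (le_trans ?_ (h.add _ _))
    refine le_of_eq (congrArg N ?_)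
    ext i; refine Fin.cases ?_ (fun i => ?_) i <;> simp
  · rw [Real.mul_iInf_of_nonneg (abs_nonneg t)]
    refine le_ciInf fun u => (ciInf_le (hb _) (t * u)).trans (le_trans ?_ (h.smul _ _))
    refine le_of_eq (congrArg N ?_)
    ext i; refine Fin.cases ?_ (fun i => ?_) i <;> simp
  · obtain ⟨m, hm, e⟩ := h.low
    refine ⟨m, hm, fun y => le_ciInf fun t => le_trans ?_ (e _)⟩
    gcongr
    refine (pi_norm_le_iff_of_nonneg (norm_nonneg _)).2 fun i => ?_
    simpa using norm_le_pi_norm (Fin.cons t y : Fin (n + 1) → ℝ) i.succ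

theorem rc_step (n : ℕ) : 1 + 3 * (n + 1) * rc n ≤ rc (n + 1) := by
  unfold rc
  have h1 : (4 * (n + 1)) ^ n ≤ (4 * (n + 1 + 1)) ^ n := Nat.pow_le_pow_left (by omega) _
  have h2 : 0 < (4 * (n + 1)) ^ n := by positivity
  rw [pow_succ]
  nlinarith

/-- reduced bases -/
theorem exists_reduced (n : ℕ) : ∀ N : (Fin n → ℝ) → ℝ, IsN N → ∃ g : Mx n, IsUnit g ∧
    ∀ x j, |x j| * N (col g j) ≤ rc n * N (cr g *ᵥ x) := by
  induction n with
  | zero => exact fun N _ => ⟨1, isUnit_one, fun x j => j.elim0⟩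
  | succ n ih =>
    intro N0 h0
    obtain ⟨U, hU, hs⟩ := exists_short h0
    obtain ⟨U', eU⟩ := hU.exists_left_inv
    have h : IsN fun x => N0 (cr U *ᵥ x) := h0.comp (Q := cr U') (by rw [← cr_mul, eU, cr_one])
    set N : (Fin (n + 1) → ℝ) → ℝ := fun x => N0 (cr U *ᵥ x) with hN
    have hs' : ∀ g : Mx (n + 1), IsUnit g → ∀ j, N (col 1 0) ≤ N (col g j) := fun g hg j => by
      simp only [hN, ← col_mul, Matrix.mul_one]
      exact hs _ (hU.mul hg) j
    suffices ∃ g : Mx (n + 1), IsUnit g ∧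
        ∀ x j, |x j| * N (col g j) ≤ rc (n + 1) * N (cr g *ᵥ x) by
      obtain ⟨g, hg, e⟩ := this
      refine ⟨U * g, hU.mul hg, fun x j => ?_⟩
      rw [col_mul, cr_mul, ← mulVec_mulVec]
      exact e x j
    clear_value N
    have hq := isN_quot h
    obtain ⟨k, hk, e⟩ := ih _ hq
    obtain ⟨k', ek⟩ := hk.exists_right_inv
    have ht : ∀ j, ∃ t : ℝ, N (Fin.cons t (col k j)) < 5 / 4 * ⨅ t : ℝ, N (Fin.cons t (col k j)) :=
      fun j => exists_lt_of_ciInf_lt (by linarith [hq.pos (col_ne_zero ek j)])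
    choose t ht using ht
    let g : Mx (n + 1) := Matrix.of (Fin.cons (Fin.cons 1 fun j => round (t j))
      fun i => Fin.cons 0 (k i))
    have hg : IsUnit g := by
      rw [Matrix.isUnit_iff_isUnit_det, det_succ_column_zero, Fin.sum_univ_succ]
      have : g.submatrix (Fin.succAbove 0) Fin.succ = k := by ext i j; simp [g]
      rw [this]
      simpa [g] using (Matrix.isUnit_iff_isUnit_det _).1 hk
    have c0 : col g 0 = col 1 0 := by
      ext i; refine Fin.cases ?_ (fun i => ?_) i <;> simp [col, g, Matrix.one_apply]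
    have c1 : ∀ j, N (col g j.succ) ≤ 3 * ⨅ t : ℝ, N (Fin.cons t (col k j)) := fun j => by
      have e1 : col g j.succ = Fin.cons (t j) (col k j) - (t j - round (t j)) • col 1 0 := by
        ext i; refine Fin.cases ?_ (fun i => ?_) i <;> simp [col, g, Matrix.one_apply]
      have e2 := h.sub (Fin.cons (t j) (col k j)) ((t j - round (t j)) • col 1 0)
      have e3 := h.smul (t j - round (t j)) (col 1 0)
      have e4 := mul_le_mul_of_nonneg_right (abs_sub_round (t j)) (h.nonneg (col 1 0))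
      rw [← e1] at e2
      linarith [ht j, hs' g hg j.succ, hq.nonneg (col k j)]
    have hb : ∀ y : Fin n → ℝ, BddBelow (Set.range fun t : ℝ => N (Fin.cons t y)) :=
      fun y => ⟨0, by rintro _ ⟨t, rfl⟩; exact h.nonneg _⟩
    have c2 : ∀ x j, |x (Fin.succ j)| * N (col g j.succ) ≤ 3 * rc n * N (cr g *ᵥ x) := fun x j => by
      have e1 := e (Fin.tail x) j
      have e2 : (⨅ t : ℝ, N (Fin.cons t (cr k *ᵥ Fin.tail x))) ≤ N (cr g *ᵥ x) := by
        refine (ciInf_le (hb _) ((cr g *ᵥ x) 0)).trans (le_of_eq (congrArg N ?_))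
        ext i; refine Fin.cases ?_ (fun i => ?_) i
        · simp
        · simp [cr, g, mulVec, dotProduct, Fin.sum_univ_succ, Fin.tail]
      have e3 := mul_le_mul_of_nonneg_left (c1 j) (abs_nonneg (x j.succ))
      have e4 := mul_le_mul_of_nonneg_left e2 (Nat.cast_nonneg (α := ℝ) (rc n))
      simp only [Fin.tail] at e1 e4
      linarith
    have c3 : (1 : ℝ) + 3 * (n + 1) * rc n ≤ rc (n + 1) := by exact_mod_cast rc_step n
    have c4 : (0 : ℝ) ≤ rc n := Nat.cast_nonneg _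
    have c5 : (0 : ℝ) ≤ n := Nat.cast_nonneg _
    refine ⟨g, hg, fun x j => ?_⟩
    have c6 := h.nonneg (cr g *ᵥ x)
    refine Fin.cases ?_ (fun j => (c2 x j).trans ?_) j
    · have e1 : x 0 • col g 0 = cr g *ᵥ x - ∑ j : Fin n, x j.succ • col g j.succ := by
        rw [mulVec_eq_sum_col, Fin.sum_univ_succ]; simp
      have e2 := h.le_smul (x 0) (col g 0)
      have e3 := h.sub (cr g *ᵥ x) (∑ j : Fin n, x j.succ • col g j.succ)
      have e4 := (h.sum Finset.univ fun j : Fin n => x j.succ • col g j.succ).trans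
        (Finset.sum_le_card_nsmul _ _ _ fun j _ => (h.smul _ _).trans (c2 x j))
      rw [← e1] at e3
      rw [Finset.card_univ, Fintype.card_fin, nsmul_eq_mul] at e4
      nlinarith [mul_nonneg c4 c6]
    · nlinarith [mul_nonneg c4 c6, mul_nonneg c5 (mul_nonneg c4 c6)]

end Pool.Agent.MP_993212_an.H92
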