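import Pool.Agent.MP_993212_an.H92.RRep
import Pool.Agent.MP_993212_an.H92.RBasis
import Pool.Agent.MP_c1eef4_lc.H62.Prim

/-! The reduction theorems: bounded representatives and bounded generation of the groupoid. -/

namespace Pool.Agent.MP_993212_an.H92

open Matrix

variable {s n : ℕ}

/-- weights compatible with a tuple -/
def Fr (c : ℕ) (M : Tup s n) (a : Fin n → ℝ) : Prop :=
  (∀ j, 0 < a j) ∧ ∀ i k l, |(M i k l : ℝ)| * a k ≤ c * a l

/-- bounded representative of a weighted tuple -/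
def Rpb (C : ℕ) (a : Fin n → ℝ) (M : Tup s n) (w : Mx n) (X : Tup s n) : Prop :=
  (∀ k l, (w - 1) k l ≠ 0 → a k < a l) ∧ Arr M w X ∧ ∀ i, Bd C (X i)

theorem Rpb.up {C : ℕ} {a : Fin n → ℝ} {M X : Tup s n} {w : Mx n} (h : Rpb C a M w X) :
    Up 1 (fun k => (Finset.univ.filter fun j => a j < a k).card)
      (fun k => (Finset.univ.filter fun j => a j < a k).card) (w - 1) := fun k l e => by
  have h1 := h.1 k l e
  refine Finset.card_lt_card ⟨fun j hj => ?_, fun g => ?_⟩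
  · simp only [Finset.mem_filter, Finset.mem_univ, true_and] at hj ⊢
    exact hj.trans h1
  · simpa using g (Finset.mem_filter.2 ⟨Finset.mem_univ k, h1⟩)

theorem conn_same {C : ℕ} (hC : 1 ≤ C) {a : Fin n → ℝ} {M X Y : Tup s n} {w w' v : Mx n}
    (h : Rpb C a M w X) (g : Rpb C a M v Y) (e : w * w' = 1) : Conn (pb n s C) X (w' * v) Y := by
  obtain ⟨v', ev⟩ := g.up.exists_inv
  have u1 := (h.up.inv_sub e).mul_sub g.up
  have e1 : w' * v * (v' * w) = 1 := by
    rw [Matrix.mul_assoc, ← Matrix.mul_assoc v, ev, Matrix.one_mul, mul_eq_one_comm.1 e]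
  refine conn_par h.2.2 g.2.2 e1 ((h.2.1.inv e).mul g.2.1) (u1.of_sub_one.inv e1) fun k l hp => ?_
  have h1 : (w' * v - 1) k l = 0 := by_contra fun q => hp (u1 k l q)
  rw [Matrix.sub_apply, sub_eq_zero] at h1
  rw [h1, Matrix.one_apply]
  split_ifs <;> simp [hC]

theorem int_zero {z : ℤ} {A B : ℝ} {c : ℕ} (h : |(z : ℝ)| * A ≤ c * B) (e : (c + 1) * B < A)
    (hB : 0 < B) : z = 0 := by
  by_contra g
  have h1 : (1 : ℝ) ≤ |(z : ℝ)| := by exact_mod_cast Int.one_le_abs g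
  have h2 : (0 : ℝ) ≤ c * B := by positivity
  nlinarith

theorem int_bd {z : ℤ} {A B : ℝ} {c m k : ℕ} (h : |(z : ℝ)| * A ≤ c * B)
    (e : B ≤ ((c : ℝ) + 1) ^ m * A) (hA : 0 < A) (hm : m ≤ k) :
    |z| ≤ (c * (c + 1) ^ k : ℕ) := by
  have hc : (0 : ℝ) ≤ c := Nat.cast_nonneg c
  have h1 : ((c : ℝ) + 1) ^ m ≤ ((c : ℝ) + 1) ^ k := pow_le_pow_right₀ (by linarith) hm
  have h2 : |(z : ℝ)| * A ≤ c * ((c : ℝ) + 1) ^ k * A := by
    rw [mul_assoc]; exact h.trans (by gcongr; exact e.trans (by gcongr))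
  exact_mod_cast le_of_mul_le_mul_right h2 hA

theorem link_aux {k : ℕ} {M M2 : Tup s n} (hS : SS M) {a b : Fin n → ℝ}
    (f1 : Fr (fc n k) M a) (f2 : Fr (fc n k) M2 b) {g g' : Mx n} (e : g * g' = 1)
    (ar : Arr M g M2) (b1 : ∀ i j, |(g i j : ℝ)| * a i ≤ fc n k * b j)
    (b2 : ∀ i j, |(g' i j : ℝ)| * b i ≤ fc n k * a j) :
    ∃ w w' v X Y, w * w' = 1 ∧ Rpb (xb n k) a M w X ∧ Rpb (xb n k) b M2 v Y ∧
      Conn (bnd n s k) X (w' * g * v) Y := by
  classical
  let S : Finset ℝ := Finset.univ.image a ∪ Finset.univ.image b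
  have ha : ∀ i, a i ∈ S := fun i => by simp [S]
  have hb : ∀ i, b i ∈ S := fun i => by simp [S]
  have hS0 : ∀ x ∈ S, 0 < x := fun x hx => by
    simp only [S, Finset.mem_union, Finset.mem_image, Finset.mem_univ, true_and] at hx
    rcases hx with ⟨i, rfl⟩ | ⟨i, rfl⟩
    exacts [f1.1 i, f2.1 i]
  have hc : S.card ≤ 2 * n := (Finset.card_union_le _ _).trans (by
    have h1 := Finset.card_image_le (s := Finset.univ) (f := a)
    have h2 := Finset.card_image_le (s := Finset.univ) (f := b)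
    simp only [Finset.card_univ, Fintype.card_fin] at h1 h2
    omega)
  have hG : (1 : ℝ) ≤ fc n k + 1 := by simp
  obtain ⟨l, l1, l2⟩ := exists_level S hS0 hG
  have z : ∀ {z : ℤ} {x y : ℝ}, x ∈ S → y ∈ S → |(z : ℝ)| * x ≤ fc n k * y → z ≠ 0 →
      l x + 0 ≤ l y := fun hx hy h hz => by
    by_contra q
    exact hz (int_zero h (l1 _ hy _ hx (by omega)) (hS0 _ hy))
  have bd : ∀ {z : ℤ} {x y : ℝ}, x ∈ S → y ∈ S → |(z : ℝ)| * x ≤ fc n k * y → l x = l y →
      |z| ≤ dc n k := fun hx hy h q => int_bd h (l2 _ hx _ hy q) (hS0 _ hx) hc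
  have lt : ∀ {x y : ℝ}, x ∈ S → y ∈ S → l x + 1 ≤ l y → x < y := fun hx hy q => by
    have := l1 _ hx _ hy q
    nlinarith [hS0 _ hx]
  obtain ⟨w, X, w1, w2, w3⟩ := exists_rep hS (fun i => l (a i))
    (fun i p q => z (ha p) (ha q) (f1.2 i p q)) fun i p q => bd (ha p) (ha q) (f1.2 i p q)
  obtain ⟨v, Y, v1, v2, v3⟩ := exists_rep (hS.conj e ar) (fun i => l (b i))
    (fun i p q => z (hb p) (hb q) (f2.2 i p q)) fun i p q => bd (hb p) (hb q) (f2.2 i p q)
  obtain ⟨w', ew⟩ := w1.exists_inv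
  obtain ⟨v', ev⟩ := v1.exists_inv
  have x1 : ∀ i, Bd (xb n k) (X i) := fun i => (w3 i).mono (by unfold xb; omega)
  have y1 : ∀ i, Bd (xb n k) (Y i) := fun i => (v3 i).mono (by unfold xb; omega)
  have ug : Up 0 (fun i => l (a i)) (fun i => l (b i)) g := fun p q => z (ha p) (hb q) (b1 p q)
  have ug' : Up 0 (fun i => l (b i)) (fun i => l (a i)) g' := fun p q => z (hb p) (ha q) (b2 p q)
  refine ⟨w, w', v, X, Y, ew, ⟨fun p q h => lt (ha p) (ha q) (w1 p q h), w2, x1⟩,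
    ⟨fun p q h => lt (hb p) (hb q) (v1 p q h), v2, y1⟩,
    conn_par x1 y1 (d' := v' * g' * w) (a := fun i => l (a i)) ?_ (((w2.inv ew).mul ar).mul v2)
      (((v1.of_sub_one.inv ev).mul ug').mul w1.of_sub_one) fun p q h => ?_⟩
  · calc w' * g * v * (v' * g' * w) = w' * (g * ((v * v') * g')) * w := by
          simp only [Matrix.mul_assoc]
      _ = 1 := by rw [ev, Matrix.one_mul, e, Matrix.mul_one, mul_eq_one_comm.1 ew]
  have e1 : w' * g * v - g = (w' - 1) * g * v + g * (v - 1) := by noncomm_ring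
  have e2 : (w' * g * v - g) p q = 0 := by_contra fun r => h
    ((((w1.inv_sub ew).mul ug).mul v1.of_sub_one).add (ug.mul v1) p q (e1 ▸ r))
  rw [Matrix.sub_apply, sub_eq_zero] at e2
  rw [e2]
  by_cases r : g p q = 0
  · simp [r]
  · have h1 : l (a p) + 0 ≤ l (b q) := ug p q r
    have h2 : ¬(l (a p) + 1 ≤ l (b q)) := h
    exact (bd (ha p) (hb q) (b1 p q) (by omega)).trans (Nat.cast_le.2 (by unfold xb; omega))

theorem one_le_fc (n k : ℕ) : 1 ≤ fc n k := by unfold fc; exact Nat.one_le_iff_ne_zero.2 (by positivity)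

theorem Fr.rep {k : ℕ} {M : Tup s n} (hS : SS M) {a : Fin n → ℝ} (f : Fr (fc n k) M a) :
    ∃ w X, Rpb (xb n k) a M w X := by
  have h : ∀ i j, |((1 : Mx n) i j : ℝ)| * a i ≤ fc n k * a j := fun i j => by
    have h1 : (1 : ℝ) ≤ fc n k := by exact_mod_cast one_le_fc n k
    have h2 := f.1 j
    rw [Matrix.one_apply]
    split_ifs with q
    · simp [q]; nlinarith
    · simp; positivity
  obtain ⟨w, -, -, X, -, -, r, -⟩ := link_aux hS f f (Matrix.mul_one 1) Arr.one h h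
  exact ⟨w, X, r⟩

/-- a basis which is quasi-orthogonal for a norm, with weights -/
def NF (N : (Fin n → ℝ) → ℝ) (g : Mx n) (a : Fin n → ℝ) : Prop :=
  (∀ j, 0 < a j) ∧ (∀ x j, |x j| * a j ≤ (rc n + 2) * N (cr g *ᵥ x)) ∧
    ∀ j, N (col g j) ≤ (rc n + 2) * a j

theorem exists_nf {N : (Fin n → ℝ) → ℝ} (h : IsN N) : ∃ g g' a, g * g' = 1 ∧ NF N g a := by
  obtain ⟨g, hg, e⟩ := exists_reduced n N h
  obtain ⟨g', e'⟩ := hg.exists_right_inv
  have hr : (0 : ℝ) ≤ rc n := Nat.cast_nonneg _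
  exact ⟨g, g', fun j => N (col g j), e', fun j => h.pos (col_ne_zero e' j),
    fun x j => by nlinarith [e x j, h.nonneg (cr g *ᵥ x)], fun j => by
      nlinarith [h.nonneg (col g j)]⟩

theorem NF.adj {N N2 : (Fin n → ℝ) → ℝ} {g g' h : Mx n} {a b : Fin n → ℝ} (f1 : NF N g a)
    (f2 : NF N2 h b) (e : g * g' = 1) (k : ℕ) (T : Mx n)
    (le : ∀ v, N (cr T *ᵥ v) ≤ (n * k + 2) * N2 v) (i j) :
    |((g' * T * h) i j : ℝ)| * a i ≤ fc n k * b j := by
  have h1 := f1.2.1 (col (g' * T * h) j) i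
  rw [← col_mul, ← Matrix.mul_assoc, ← Matrix.mul_assoc, e, Matrix.one_mul, col_mul T] at h1
  refine le_trans h1 ?_
  unfold fc
  push_cast
  calc (rc n + 2 : ℝ) * N (cr T *ᵥ col h j) ≤ (rc n + 2) * ((n * k + 2) * ((rc n + 2) * b j)) := by
        gcongr; exact (le _).trans (by gcongr; exact f2.2.2 j)
    _ = _ := by ring

/-- the norm is compatible with the tuple -/
def TB (k : ℕ) (M : Tup s n) (N : (Fin n → ℝ) → ℝ) : Prop :=
  ∀ i v, N (cr (M i) *ᵥ v) ≤ (n * k + 2) * N v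

theorem arr_conj (M : Tup s n) {g g' : Mx n} (e : g * g' = 1) : Arr M g fun i => g' * M i * g :=
  fun i => by rw [← Matrix.mul_assoc, ← Matrix.mul_assoc, e, Matrix.one_mul]

theorem NF.fr {k : ℕ} {M : Tup s n} {N : (Fin n → ℝ) → ℝ} {g g' : Mx n} {a : Fin n → ℝ}
    (f : NF N g a) (e : g * g' = 1) (t : TB k M N) : Fr (fc n k) (fun i => g' * M i * g) a :=
  ⟨f.1, fun i => f.adj f e k (M i) (t i)⟩

theorem conn_step {k : ℕ} {M X Y : Tup s n} (hS : SS M) {N N2 : (Fin n → ℝ) → ℝ} (n1 : IsN N)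
    (n2 : IsN N2) (t1 : TB k M N) (t2 : TB k M N2) (l1 : ∀ v, N v ≤ 2 * N2 v)
    (l2 : ∀ v, N2 v ≤ 2 * N v) {g g' h h' w v : Mx n} {a b : Fin n → ℝ} (e1 : g * g' = 1)
    (e2 : h * h' = 1) (f1 : NF N g a) (f2 : NF N2 h b)
    (r1 : Rpb (xb n k) a (fun i => g' * M i * g) w X)
    (r2 : Rpb (xb n k) b (fun i => h' * M i * h) v Y)
    (c : Conn (bnd n s k) M (g * w) X) : Conn (bnd n s k) M (h * v) Y := by
  have hk : (0 : ℝ) ≤ n * k := by positivity
  have b1 := f1.adj f2 e1 k 1 fun v => by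
    rw [cr_one, one_mulVec]; nlinarith [l1 v, n2.nonneg v]
  have b2 := f2.adj f1 e2 k 1 fun v => by
    rw [cr_one, one_mulVec]; nlinarith [l2 v, n1.nonneg v]
  rw [Matrix.mul_one] at b1 b2
  obtain ⟨w0, w0', v0, X0, Y0, e3, s1, s2, c0⟩ := link_aux (hS.conj e1 (arr_conj M e1))
    (f1.fr e1 t1) (f2.fr e2 t2) (g := g' * h) (g' := h' * g)
    (by rw [Matrix.mul_assoc, ← Matrix.mul_assoc h, e2, Matrix.one_mul, mul_eq_one_comm.1 e1])
    (((arr_conj M e1).inv e1).mul (arr_conj M e2)) b1 b2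
  obtain ⟨w', e4⟩ := r1.up.exists_inv
  obtain ⟨v0', e5⟩ := s2.up.exists_inv
  have hx : 1 ≤ xb n k := by unfold xb; omega
  have c1 := ((c.trans (conn_same hx r1 s1 e4)).trans c0).trans (conn_same hx s2 r2 e5)
  have e6 : g * w * (w' * w0) * (w0' * (g' * h) * v0) * (v0' * v) =
      g * ((w * w') * (w0 * w0')) * g' * h * (v0 * v0') * v := by simp only [Matrix.mul_assoc]
  rwa [e6, e3, e4, e5, Matrix.mul_one, Matrix.mul_one, Matrix.mul_one, e1, Matrix.one_mul] at c1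

theorem Bd.norm_le {c : ℕ} {X : Mx n} (h : Bd c X) (v : Fin n → ℝ) :
    ‖cr X *ᵥ v‖ ≤ n * c * ‖v‖ := by
  refine (pi_norm_le_iff_of_nonneg (by positivity)).2 fun i => ?_
  rw [mulVec, dotProduct]
  refine (norm_sum_le _ _).trans ((Finset.sum_le_card_nsmul _ _ (c * ‖v‖) fun j _ => ?_).trans ?_)
  · rw [norm_mul]
    have : ‖cr X i j‖ ≤ c := by
      change |((X i j : ℤ) : ℝ)| ≤ c
      exact_mod_cast h i j
    gcongr
    exact norm_le_pi_norm v j
  · simp [mul_assoc]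

theorem exists_bd (X : Mx n) : ∃ c, Bd c X :=
  ⟨Finset.univ.sup fun p : Fin n × Fin n => (X p.1 p.2).natAbs, fun i j => by
    rw [← Int.natCast_natAbs]
    exact Nat.cast_le.2 (Finset.le_sup (f := fun p : Fin n × Fin n => (X p.1 p.2).natAbs)
      (Finset.mem_univ (i, j)))⟩

theorem norm_col_one (j : Fin n) : ‖col (1 : Mx n) j‖ ≤ 1 :=
  (pi_norm_le_iff_of_nonneg zero_le_one).2 fun i => by
    rw [col, Matrix.one_apply]; split_ifs <;> simp

/-- THEOREM R: isomorphisms of bounded semisimple tuples are products of bounded ones -/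
theorem connect {k : ℕ} {M M' : Tup s n} (hS : SS M) (hM : ∀ i, Bd k (M i))
    (hM' : ∀ i, Bd k (M' i)) {g g' : Mx n} (e : g * g' = 1) (ar : Arr M g M') :
    Conn (bnd n s k) M g M' := by
  let N : ℝ → (Fin n → ℝ) → ℝ := fun t v => t * ‖v‖ + ‖cr g' *ᵥ v‖
  have hN : ∀ t, 0 < t → IsN (N t) := fun t ht =>
    ⟨fun x y => by
      simp only [N, mulVec_add]
      nlinarith [norm_add_le x y, norm_add_le (cr g' *ᵥ x) (cr g' *ᵥ y)],
    fun u x => le_of_eq (by simp only [N, mulVec_smul, norm_smul, Real.norm_eq_abs]; ring),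
    t, ht, fun x => le_add_of_nonneg_right (norm_nonneg _)⟩
  have hT : ∀ t, 0 < t → TB k M (N t) := fun t ht i v => by
    have h1 := (hM i).norm_le v
    have h2 := (hM' i).norm_le (cr g' *ᵥ v)
    rw [mulVec_mulVec, ← cr_mul, ar.inv e i, cr_mul, ← mulVec_mulVec] at h2
    simp only [N]
    nlinarith [norm_nonneg v, norm_nonneg (cr g' *ᵥ v), mul_le_mul_of_nonneg_left h1 ht.le,
      mul_nonneg ht.le (norm_nonneg v)]
  have hr : (0 : ℝ) ≤ rc n := Nat.cast_nonneg _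
  obtain ⟨c, hc⟩ := exists_bd g
  obtain ⟨c', hc'⟩ := exists_bd g'
  set B : ℝ := n * c' + 1 with hB
  have B0 : 0 < B := by positivity
  have xk : k ≤ xb n k := by unfold xb; omega
  have key : ∀ j : ℕ, ∀ h h' a w X, h * h' = 1 → NF (N (B / 2 ^ j)) h a →
      Rpb (xb n k) a (fun i => h' * M i * h) w X → Conn (bnd n s k) M (h * w) X := by
    intro j
    induction j with
    | zero =>
      intro h h' a w X e1 f r
      rw [pow_zero, div_one] at f
      have n1 := hN B B0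
      refine conn_step hS n1 n1 (hT B B0) (hT B B0) (fun v => by linarith [n1.nonneg v])
        (fun v => by linarith [n1.nonneg v]) (Matrix.mul_one 1) e1 (a := fun _ => B)
        ⟨fun _ => B0, fun x j => ?_, fun j => ?_⟩ f (w := 1) (X := M)
        ⟨by simp, fun i => by simp, fun i => (hM i).mono xk⟩ r (by simpa using Conn.refl)
      · rw [cr_one, one_mulVec]
        have h1 : |x j| ≤ ‖x‖ := norm_le_pi_norm x j
        have h2 : |x j| * B ≤ N B x := by
          simp only [N]; nlinarith [norm_nonneg (cr g' *ᵥ x)]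
        nlinarith [n1.nonneg x]
      · have h1 := hc'.norm_le (col 1 j)
        have h2 := norm_col_one j
        have h3 : (0 : ℝ) ≤ n * c' := by positivity
        simp only [N]
        nlinarith [mul_le_mul_of_nonneg_left h2 h3]
    | succ j ih =>
      intro h h' a w X e1 f r
      have p1 : 0 < B / 2 ^ j := by positivity
      have p2 : 0 < B / 2 ^ (j + 1) := by positivity
      have p3 : B / 2 ^ j = 2 * (B / 2 ^ (j + 1)) := by rw [pow_succ]; field_simp
      obtain ⟨h0, h0', a0, e0, f0⟩ := exists_nf (hN _ p1)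
      obtain ⟨w0, X0, r0⟩ := (f0.fr e0 (hT _ p1)).rep (hS.conj e0 (arr_conj M e0))
      refine conn_step hS (hN _ p1) (hN _ p2) (hT _ p1) (hT _ p2) (fun v => ?_) (fun v => ?_) e0 e1
        f0 f r0 r (ih _ _ _ _ _ e0 f0 r0) <;> simp only [N, p3] <;>
        nlinarith [norm_nonneg (cr g' *ᵥ v), mul_nonneg p2.le (norm_nonneg v)]
  obtain ⟨j, hj⟩ := pow_unbounded_of_one_lt (B * (n * c)) (one_lt_two (α := ℝ))
  have p1 : 0 < B / 2 ^ j := by positivity
  have e' : ∀ x, cr g' *ᵥ (cr g *ᵥ x) = x := fun x => by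
    rw [mulVec_mulVec, ← cr_mul, mul_eq_one_comm.1 e, cr_one, one_mulVec]
  have := key j g g' (fun _ => 1) 1 M' e ⟨fun _ => one_pos, fun x i => ?_, fun i => ?_⟩
    ⟨by simp, fun i => ?_, fun i => (hM' i).mono xk⟩
  · simpa using this
  · have h1 : |x i| ≤ ‖x‖ := norm_le_pi_norm x i
    have h2 : |x i| ≤ N (B / 2 ^ j) (cr g *ᵥ x) := by
      simp only [N, e']; nlinarith [mul_nonneg p1.le (norm_nonneg (cr g *ᵥ x))]
    nlinarith [(hN _ p1).nonneg (cr g *ᵥ x)]
  · have h0 : col g i = cr g *ᵥ col 1 i := by rw [← col_mul, Matrix.mul_one]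
    have h1 := hc.norm_le (col 1 i)
    have h2 := norm_col_one i
    have h3 : (0 : ℝ) ≤ n * c := by positivity
    have h4 : B / 2 ^ j * (n * c) ≤ 1 := by
      rw [div_mul_eq_mul_div, div_le_one (by positivity)]; exact hj.le
    simp only [N, h0, e']
    nlinarith [mul_le_mul_of_nonneg_left (h1.trans (mul_le_mul_of_nonneg_left h2 h3)) p1.le]
  · simp only [Matrix.mul_one, Matrix.one_mul]
    rw [Matrix.mul_assoc, ar i, ← Matrix.mul_assoc, mul_eq_one_comm.1 e, Matrix.one_mul]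

/-- THEOREM R0: every integral tuple rationally conjugate to a bounded semisimple tuple is
integrally conjugate to a bounded tuple -/
theorem bounded_rep {k : ℕ} {M M' : Tup s n} (hS : SS M) (hM : ∀ i, Bd k (M i))
    {P Q : Matrix (Fin n) (Fin n) ℚ} (e : P * Q = 1) (ar : ∀ i, cq (M i) * P = P * cq (M' i)) :
    ∃ (h h' : Mx n) (X : Tup s n), h * h' = 1 ∧ Arr M' h X ∧ ∀ i, Bd (xb n k) (X i) := by
  have hS' : SS M' := SSq.conj hS e ar
  let φ := Rat.castHom ℝ
  have n0 : IsN fun v : Fin n → ℝ => ‖v‖ :=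
    ⟨norm_add_le, fun t x => (norm_smul t x).le, 1, one_pos, fun x => by simp⟩
  have n1 := n0.comp (P := P.map φ) (Q := Q.map φ) (by
    rw [← Matrix.map_mul, mul_eq_one_comm.1 e, Matrix.map_one _ (map_zero _) (map_one _)])
  have hc : ∀ X : Mx n, (cq X).map φ = cr X := fun X => by ext i j; simp [cq, cr, φ]
  have t1 : TB k M' fun v => ‖P.map φ *ᵥ v‖ := fun i v => by
    have h1 := (hM i).norm_le (P.map φ *ᵥ v)
    rw [mulVec_mulVec, ← hc, ← Matrix.map_mul, ar, Matrix.map_mul, hc, ← mulVec_mulVec] at h1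
    nlinarith [norm_nonneg (P.map φ *ᵥ v)]
  obtain ⟨g, g', a, e1, f⟩ := exists_nf n1
  obtain ⟨w, X, r⟩ := (f.fr e1 t1).rep (hS'.conj e1 (arr_conj M' e1))
  obtain ⟨w', e2⟩ := r.up.exists_inv
  exact ⟨g * w, w' * g', X, by
    rw [Matrix.mul_assoc, ← Matrix.mul_assoc w, e2, Matrix.one_mul, e1],
    (arr_conj M' e1).mul r.2.1, r.2.2⟩

theorem le_xb (n k : ℕ) : k ≤ xb n k := by unfold xb; omega

theorem xb_le_bnd (n s k : ℕ) : xb n k ≤ bnd n s k := by
  have := le_pb n s (xb n k); unfold bnd; omega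

section Prim

open Pool.Agent.MP_c1eef4_lc.H62

variable {α : Type} [Primcodable α]

@[fun_prop] theorem primrec_sb {f g h : α → ℕ} (hf : Primrec f) (hg : Primrec g)
    (hh : Primrec h) : Primrec fun a => sb (f a) (g a) (h a) := by
  unfold sb
  refine P.add (Primrec.nat_iterate (by fun_prop) hh (h := fun a c => gsb (f a) c) ?_) (by fun_prop)
  unfold gsb Primrec₂
  fun_prop

@[fun_prop] theorem primrec_xb {f h : α → ℕ} (hf : Primrec f) (hh : Primrec h) :
    Primrec fun a => xb (f a) (h a) := by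
  unfold xb dc fc rc ib
  fun_prop

@[fun_prop] theorem primrec_bnd {f g h : α → ℕ} (hf : Primrec f) (hg : Primrec g)
    (hh : Primrec h) : Primrec fun a => bnd (f a) (g a) (h a) := by
  unfold bnd pb ib
  fun_prop

end Prim

end Pool.Agent.MP_993212_an.H92
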