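import Mathlib

/-! Reduction theory for tuples of integer matrices: definitions and the explicit bound. -/

namespace Pool.Agent.MP_993212_an.H92

open Matrix

/-- square integer matrices -/
abbrev Mx (n : ℕ) := Matrix (Fin n) (Fin n) ℤ

/-- tuples of square integer matrices -/
abbrev Tup (s n : ℕ) := Fin s → Mx n

/-- all entries are at most `c` in absolute value -/
def Bd {m n : Type} (c : ℕ) (X : Matrix m n ℤ) : Prop := ∀ i j, |X i j| ≤ c

/-- an integer matrix as a rational matrix -/
def cq {m n : Type} (X : Matrix m n ℤ) : Matrix m n ℚ := X.map (Int.castRingHom ℚ)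

/-- every invariant rational subspace is the image of an equivariant projection -/
def SSq {s n : ℕ} (T : Fin s → Matrix (Fin n) (Fin n) ℚ) : Prop :=
  ∀ W : Submodule ℚ (Fin n → ℚ), (∀ i, ∀ v ∈ W, T i *ᵥ v ∈ W) →
    ∃ P : Matrix (Fin n) (Fin n) ℚ, (∀ i, P * T i = T i * P) ∧ (∀ v, P *ᵥ v ∈ W) ∧
      ∀ v ∈ W, P *ᵥ v = v

/-- the tuple is semisimple over the rationals -/
def SS {s n : ℕ} (M : Tup s n) : Prop := SSq fun i => cq (M i)

/-- `g` intertwines the two tuples -/
def Arr {s n : ℕ} (X : Tup s n) (g : Mx n) (Y : Tup s n) : Prop := ∀ i, X i * g = g * Y i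

/-- `g` is a product of arrows bounded by `C` (with inverses) through tuples bounded by `C` -/
inductive Conn {s n : ℕ} (C : ℕ) (X : Tup s n) : Mx n → Tup s n → Prop
  | refl : Conn C X 1 X
  | step {g : Mx n} {Y : Tup s n} (h h' : Mx n) (Z : Tup s n) : Conn C X g Y →
      (∀ i, Bd C (Z i)) → Bd C h → Bd C h' → h * h' = 1 → Arr Y h Z → Conn C X (g * h) Z

/-- one growth step of the bounded solution lemma -/
def gsb (N c : ℕ) : ℕ := (N + 1) ^ 2 * (c + 1) ^ 3

/-- bound for solutions of `p` equations in `N` unknowns with data bounded by `c` -/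
def sb (N p c : ℕ) : ℕ := (gsb N)^[2 * p] c + 1

/-- bound for the inverse of a unimodular matrix bounded by `c` -/
def ib (n c : ℕ) : ℕ := n ^ n * (c + 1) ^ n

/-- bound for the parabolic lemma -/
def pb (n s c : ℕ) : ℕ :=
  ib n (sb (n * n) (s * (n * n) + n * n) (2 * c + 1) + 1) +
    sb (n * n) (s * (n * n) + n * n) (2 * c + 1) + c + 1

/-- constant of the reduced basis lemma -/
def rc (n : ℕ) : ℕ := (4 * (n + 1)) ^ n

/-- constant of frames -/
def fc (n k : ℕ) : ℕ := (n * k + 2) * (rc n + 2) ^ 2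

/-- bound on the level diagonal -/
def dc (n k : ℕ) : ℕ := fc n k * (fc n k + 1) ^ (2 * n)

/-- bound for representatives -/
def xb (n k : ℕ) : ℕ := n * (n * 2 * dc n k) * ib n 2 + dc n k + k + 1

/-- the bound of the reduction theorems -/
def bnd (n s k : ℕ) : ℕ := pb n s (xb n k)

end Pool.Agent.MP_993212_an.H92
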