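import Pool.Agent.MP_993212_an.H92.RRep
import Pool.Agent.MP_993212_an.H46.Spec2

/-! The regular representation of the quotient by the trace radical. -/

namespace Pool.Agent.MP_993212_an.H92

open Matrix H46

theorem proj_of {R M : Type} [Ring R] [IsSemisimpleRing R] [AddCommGroup M] [Module R M]
    (W : Submodule R M) : ∃ p : M →ₗ[R] M, (∀ v, p v ∈ W) ∧ ∀ v ∈ W, p v = v :=
  have ⟨U, hU⟩ := exists_isCompl W
  ⟨W.projection U hU, Submodule.projection_apply_mem hU,
    fun _ => Submodule.projection_apply_of_mem_left hU⟩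

theorem ssq_of {s n : ℕ} (T : Fin s → Matrix (Fin n) (Fin n) ℚ)
    (A : Subalgebra ℚ (Module.End ℚ (Fin n → ℚ))) (h1 : ∀ i, toLin' (T i) ∈ A)
    (h2 : ∀ u ∈ A, u ∈ Submodule.span ℚ (Set.range fun i => toLin' (T i)))
    (h3 : ∀ u : A, (∀ v : A, IsNilpotent (v * u)) → u = 0) : SSq T := by
  have : IsArtinianRing A := .of_finite ℚ A
  have : IsSemisimpleRing A := by
    rw [IsArtinianRing.isSemisimpleRing_iff_jacobson, ← Ideal.jacobson_bot, eq_bot_iff]
    obtain ⟨k, hk⟩ := IsArtinianRing.isNilpotent_jacobson_bot (R := A)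
    refine fun u hu => h3 u fun v => ⟨k, ?_⟩
    have := Ideal.pow_mem_pow (Ideal.mul_mem_left _ v hu) k
    rwa [hk] at this
  intro W hW
  have hs : ∀ u ∈ A, ∀ v ∈ W, u v ∈ W := fun u hu v hv => by
    refine Submodule.span_induction (p := fun u _ => u v ∈ W) ?_ W.zero_mem
      (fun _ _ _ _ => W.add_mem) (fun c _ _ => W.smul_mem c) (h2 u hu)
    rintro _ ⟨i, rfl⟩
    exact hW i v hv
  obtain ⟨p, p1, p2⟩ := proj_of (R := A) (M := Fin n → ℚ)
    { carrier := W, add_mem' := W.add_mem, zero_mem' := W.zero_mem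
      smul_mem' := fun u v hv => hs u u.2 v hv }
  let q : Module.End ℚ (Fin n → ℚ) :=
    { toFun := p, map_add' := p.map_add, map_smul' := fun c v => by
        simp }
  refine ⟨LinearMap.toMatrix' q, fun i => ?_, fun v => ?_, fun v hv => ?_⟩
  · refine toLin'.injective (LinearMap.ext fun v => ?_)
    simp only [toLin'_mul, toLin'_toMatrix']
    exact p.map_smul ⟨_, h1 i⟩ v
  · rw [LinearMap.toMatrix'_mulVec]
    exact p1 v
  · rw [LinearMap.toMatrix'_mulVec]
    exact p2 v hv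

section Co

variable {L : Type} [Ring L] {r : ℕ} (κ : L →+ Fin r → ℤ) (e : Fin r → L)

/-- right multiplication in coordinates -/
def rho (y : L) : MZ r := Matrix.of fun j => κ (e j * y)

/-- left multiplication in coordinates -/
def lmb : L →+ MZ r where
  toFun y := Matrix.of fun j => κ (y * e j)
  map_zero' := by ext; simp
  map_add' x y := by ext; simp [add_mul]

/-- coordinates on the quotient by a two-sided ideal -/
structure Co : Prop where
  one : ∀ k, κ (e k) = Pi.single k 1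
  left : ∀ x y, κ x = 0 → κ (y * x) = 0
  right : ∀ x y, κ x = 0 → κ (x * y) = 0

variable {κ e} (h : Co κ e)
include h

theorem Co.sum (v : Fin r → ℤ) : κ (∑ k, v k • e k) = v := by
  ext j
  simp only [map_sum, map_zsmul, h.one]
  simp [Pi.single_apply]

theorem Co.rho_mul (x y : L) : κ (x * y) = κ x ᵥ* rho κ e y := by
  have := h.right (x - ∑ k, κ x k • e k) y (by rw [map_sub, h.sum, sub_self])
  rw [sub_mul, map_sub, sub_eq_zero] at this
  rw [this]
  ext j
  simp only [Finset.sum_mul, smul_mul_assoc, map_sum, map_zsmul]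
  simp [vecMul, dotProduct, rho]

theorem Co.lmb_mul (x y : L) : κ (y * x) = κ x ᵥ* lmb κ e y := by
  have := h.left (x - ∑ k, κ x k • e k) y (by rw [map_sub, h.sum, sub_self])
  rw [mul_sub, map_sub, sub_eq_zero] at this
  rw [this]
  ext j
  simp only [Finset.mul_sum, mul_smul_comm, map_sum, map_zsmul]
  simp [vecMul, dotProduct, lmb]

theorem Co.ext {M M' : MZ r} (g : ∀ x, κ x ᵥ* M = κ x ᵥ* M') : M = M' := by
  ext j k
  simpa [h.one] using congrFun (g (e j)) k

/-- the regular representation -/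
def Co.hom : L →+* MZ r where
  toFun := rho κ e
  map_zero' := by ext; simp [rho]
  map_add' x y := by ext; simp [rho, mul_add]
  map_one' := h.ext fun x => by rw [← h.rho_mul, mul_one, vecMul_one]
  map_mul' x y := h.ext fun z => by simp only [← vecMul_vecMul, ← h.rho_mul, mul_assoc]

theorem Co.lmb_one : lmb κ e 1 = 1 := h.ext fun x => by rw [← h.lmb_mul, one_mul, vecMul_one]

theorem Co.lmb_anti (x y : L) : lmb κ e (x * y) = lmb κ e y * lmb κ e x :=
  h.ext fun z => by simp only [← vecMul_vecMul, ← h.lmb_mul, mul_assoc]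

theorem Co.rho_zero {x : L} : rho κ e x = 0 ↔ κ x = 0 :=
  ⟨fun g => by rw [← one_mul x, h.rho_mul, g, vecMul_zero], fun g => funext fun j => h.left x _ g⟩

theorem Co.lmb_zero {x : L} : lmb κ e x = 0 ↔ κ x = 0 :=
  ⟨fun g => by rw [← mul_one x, h.lmb_mul, g, vecMul_zero], fun g => funext fun j => h.right x _ g⟩

theorem Co.lmb_sum (x : L) : lmb κ e x = ∑ i, κ x i • lmb κ e (e i) := by
  have := h.lmb_zero.2 (show κ (x - ∑ k, κ x k • e k) = 0 by rw [map_sub, h.sum, sub_self])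
  rw [map_sub, sub_eq_zero] at this
  rw [this]
  simp only [map_sum, map_zsmul]

theorem Co.comm (x y : L) : lmb κ e x * rho κ e y = rho κ e y * lmb κ e x :=
  h.ext fun z => by simp only [← vecMul_vecMul, ← h.lmb_mul, ← h.rho_mul, mul_assoc]

theorem Co.commutant {g : MZ r} (hg : ∀ i, lmb κ e (e i) * g = g * lmb κ e (e i)) :
    rho κ e (∑ k, (κ 1 ᵥ* g) k • e k) = g := h.ext fun z => by
  have : lmb κ e z * g = g * lmb κ e z := by
    rw [h.lmb_sum]
    simp only [Finset.sum_mul, Finset.mul_sum, smul_mul_assoc, mul_smul_comm, hg]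
  rw [← h.rho_mul, h.lmb_mul, h.sum, vecMul_vecMul, ← this, ← vecMul_vecMul, ← h.lmb_mul, mul_one]

theorem Co.ss (n : ∀ x, (∀ y, ∃ m, κ ((x * y) ^ (m + 1)) = 0) → κ x = 0) :
    SS fun i => lmb κ e (e i) := by
  let Λ : L →+ Module.End ℚ (Fin r → ℚ) :=
    { toFun := fun x => toLin' (cq (lmb κ e x))
      map_zero' := by ext; simp [cq]
      map_add' := fun x y => by ext; simp [cq] }
  have m1 : ∀ x y, Λ (x * y) = Λ y * Λ x := fun x y => by
    change toLin' (cq (lmb κ e (x * y))) = _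
    rw [h.lmb_anti, cq_mul, toLin'_mul]; rfl
  have m0 : Λ 1 = 1 := by
    change toLin' (cq (lmb κ e 1)) = _
    rw [h.lmb_one, cq_one, toLin'_one]; rfl
  have mz : ∀ x, Λ x = 0 ↔ κ x = 0 := fun x => by
    rw [← h.lmb_zero]
    change toLin' (cq (lmb κ e x)) = 0 ↔ _
    simp [← Matrix.ext_iff, cq]
  have mp : ∀ x m, Λ (x ^ m) = Λ x ^ m := fun x m => by
    induction m with
    | zero => simpa using m0
    | succ m ih => rw [pow_succ, m1, ih, pow_succ']
  let A : Subalgebra ℚ (Module.End ℚ (Fin r → ℚ)) :=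
    { carrier := {u | ∃ (c : ℤ) (x : L), c ≠ 0 ∧ c • u = Λ x}
      mul_mem' := by
        rintro u v ⟨c, x, hc, hx⟩ ⟨d, y, hd, hy⟩
        exact ⟨c * d, y * x, mul_ne_zero hc hd, by rw [m1, ← hx, ← hy, smul_mul_smul_comm]⟩
      add_mem' := by
        rintro u v ⟨c, x, hc, hx⟩ ⟨d, y, hd, hy⟩
        refine ⟨c * d, d • x + c • y, mul_ne_zero hc hd, ?_⟩
        rw [map_add, map_zsmul, map_zsmul, ← hx, ← hy, smul_smul, smul_smul, mul_comm d, smul_add]
      algebraMap_mem' := fun q => ⟨q.den, q.num • 1, by simp, by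
        rw [map_zsmul, m0, Algebra.algebraMap_eq_smul_one, ← Int.cast_smul_eq_zsmul ℚ,
          ← Int.cast_smul_eq_zsmul ℚ, smul_smul]
        simp [mul_comm]⟩ }
  have hA : ∀ x, Λ x ∈ A := fun x => ⟨1, x, one_ne_zero, one_smul _ _⟩
  refine ssq_of _ A (fun i => hA _) ?_ ?_
  · rintro u ⟨c, x, hc, hx⟩
    have : Λ x = ∑ i, κ x i • Λ (e i) := by
      have := (mz _).2 (show κ (x - ∑ k, κ x k • e k) = 0 by rw [map_sub, h.sum, sub_self])
      rw [map_sub, sub_eq_zero] at this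
      rw [this]
      simp only [map_sum, map_zsmul]
    rw [← Submodule.smul_mem_iff _ (Int.cast_ne_zero.2 hc : (c : ℚ) ≠ 0), Int.cast_smul_eq_zsmul,
      hx, this]
    exact Submodule.sum_mem _ fun i _ => Submodule.smul_of_tower_mem _ _
      (Submodule.subset_span ⟨i, rfl⟩)
  · rintro ⟨u, c, x, hc, hx⟩ hu
    have : κ x = 0 := n x fun y => by
      obtain ⟨m, hm⟩ := hu (c • ⟨_, hA y⟩)
      refine ⟨m, (mz _).1 ?_⟩
      have : (c • Λ y * u) ^ m = 0 := congrArg Subtype.val hm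
      rw [mp, m1, ← hx, mul_smul_comm, ← smul_mul_assoc, pow_succ, this, zero_mul]
    rw [(mz _).2 this] at hx
    exact Subtype.ext ((smul_eq_zero.1 hx).resolve_left hc)

end Co

section Rad

variable {ι : Type} [Fintype ι] [DecidableEq ι] {L : Subring (Matrix ι ι ℤ)} {θ : L}

theorem tr0 (hN : NIL) (hθ : ∀ x, θ * x = x * θ) {z : L} {j m : ℕ} (h : Jr θ (θ ^ j * z ^ (m + 1))) :
    trace ((z * θ ^ Fintype.card ι : L) : Matrix ι ι ℤ) = 0 := by
  have c : Commute θ z := hθ z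
  have h1 := hN ι L θ hθ (List.replicate (Fintype.card ι) (θ ^ j * z ^ (m + 1))) (by simp)
    fun x hx => List.eq_of_mem_replicate hx ▸ h
  generalize Fintype.card ι = d at h1 ⊢
  rw [List.prod_replicate, (c.pow_pow _ _).mul_pow, ← pow_mul, ← pow_mul, ← mul_assoc,
    ← pow_add] at h1
  have h2 : IsNilpotent (z * θ ^ d) := ⟨d + j + (m + 1) * d, by
    rw [(c.symm.pow_right _).mul_pow, ← pow_mul, ← (c.pow_pow _ _).eq,
      show d * (d + j + (m + 1) * d) = d * ((m + 1) * d) + (d * d + j * d) by ring, pow_add,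
      show d + j + (m + 1) * d = (m + 1) * d + (d + j) by ring, pow_add z, mul_assoc,
      ← mul_assoc (θ ^ _) (z ^ _), h1, zero_mul, mul_zero]⟩
  exact (Matrix.isNilpotent_trace_of_isNilpotent (h2.map L.subtype)).eq_zero

theorem jr_right {x : L} (h : Jr θ x) (y : L) : Jr θ (x * y) := fun z => by
  simpa only [mul_assoc] using h (y * z)

theorem jr_left (hθ : ∀ x, θ * x = x * θ) {x : L} (h : Jr θ x) (y : L) : Jr θ (y * x) := fun z => by
  have c : Commute (θ ^ Fintype.card ι) y := Commute.pow_left (hθ y) _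
  have := h (z * y)
  rw [mul_assoc, mul_assoc, ← c.eq, ← mul_assoc, ← mul_assoc, Subring.coe_mul, trace_mul_comm,
    ← Subring.coe_mul] at this
  simpa only [mul_assoc] using this

theorem trace_le (X : Matrix ι ι ℤ) : X.trace.natAbs ≤ sz X :=
  (Int.natAbs_sum_le _ _).trans (Finset.sum_le_sum fun i _ => Finset.single_le_sum
    (f := fun j => (X i j).natAbs) (fun _ _ => Nat.zero_le _) (Finset.mem_univ i))

theorem sz_comb {s c : ℕ} (v : Fin s → ℤ) {a : Fin s → L} (h : ∀ i, sz (a i : Matrix ι ι ℤ) ≤ c) :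
    sz ((∑ i, v i • a i : L) : Matrix ι ι ℤ) ≤ vs v * c := by
  rw [AddSubmonoidClass.coe_finsetSum, vs, Finset.sum_mul]
  refine (sz_sum _ _).trans (Finset.sum_le_sum fun i _ => ?_)
  rw [AddSubgroupClass.coe_zsmul, sz_smul]
  exact Nat.mul_le_mul_left _ (h i)

end Rad

theorem vs_vecMul {r : ℕ} (v : Fin r → ℤ) (g : MZ r) : vs (v ᵥ* g) ≤ vs v * sz g := by
  simpa [sz, vs, Matrix.mul_apply, vecMul, dotProduct] using
    sz_mul (Matrix.of fun (_ : Unit) j => v j) g

theorem coords (hR : RB) (hS : SOL) : ∃ G, PB G ∧ ∀ (ι : Type) [Fintype ι] [DecidableEq ι]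
    (L : Subring (Matrix ι ι ℤ)) (θ : L) (s : ℕ) (a : Fin s → L) (N : ℕ), Fintype.card ι ≤ N →
    s ≤ N → (∀ i, sz (a i : Matrix ι ι ℤ) ≤ N) → sz (θ : Matrix ι ι ℤ) ≤ N →
    (∀ x, x ∈ Submodule.span ℤ (Set.range a)) →
    ∃ (r : ℕ) (κ : L →+ Fin r → ℤ) (e : Fin r → L), r ≤ N ∧ N ≤ G N ∧ (∀ x, κ x = 0 ↔ Jr θ x) ∧
      (∀ k, κ (e k) = Pi.single k 1) ∧ (∀ k, sz (e k : Matrix ι ι ℤ) ≤ G N) ∧
      ∀ x k, (κ x k).natAbs ≤ G N * sz (x : Matrix ι ι ℤ) := by
  obtain ⟨C, pC, hR⟩ := hR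
  obtain ⟨F, pF, hS⟩ := hS
  let G1 : ℕ → ℕ := fun N => C N * (N * (N * ((N + 1) * (N + 1) ^ N)))
  have p1 : PB G1 :=
    pC.mul (PB.id.mul (PB.id.mul ((PB.id.add (PB.const 1)).mul (PB.id.pow PB.id))))
  let G2 : ℕ → ℕ := fun N => N * (N * (G1 N * N)) + N + 1
  have p2 : PB G2 := ((PB.id.mul (PB.id.mul (p1.mul PB.id))).add PB.id).add (PB.const 1)
  refine ⟨fun N => F (G2 N) * N + G1 N + N, (((pF.comp p2).mul PB.id).add p1).add PB.id,
    fun ι _ _ L θ s a N hι hs ha hθ sp => ?_⟩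
  beta_reduce
  let π : L →ₗ[ℤ] Fin s → ℤ := AddMonoidHom.toIntLinearMap
    { toFun := fun x j => trace ((x * a j * θ ^ Fintype.card ι : L) : Matrix ι ι ℤ)
      map_zero' := by ext; simp
      map_add' := fun x y => by ext; simp [add_mul] }
  obtain ⟨r, b, hr, hb, b0, hi⟩ := hR s (LinearMap.range π)
  have v0 : ∀ k, 1 ≤ vs (b k) := fun k => by
    obtain ⟨j, hj⟩ := Function.ne_iff.1 (b0 k)
    exact (Int.natAbs_pos.2 hj).trans_le (le_vs _ j)
  have hc : ∀ (t : Fin r → ℤ) k, (t k).natAbs ≤ C s * vs (∑ i, t i • b i) := fun t k =>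
    (Nat.le_mul_of_pos_right _ (v0 k)).trans (hi t k)
  have inj : ∀ t t' : Fin r → ℤ, ∑ i, t i • b i = ∑ i, t' i • b i → t = t' := fun t t' g => by
    ext k
    have := hc (t - t') k
    simp only [Pi.sub_apply, sub_smul, Finset.sum_sub_distrib, g, sub_self] at this
    simp only [vs, Pi.zero_apply, Int.natAbs_zero, Finset.sum_const_zero] at this
    omega
  choose f hf using fun x => (Submodule.mem_span_range_iff_exists_fun ℤ).1
    (hb.ge (LinearMap.mem_range_self π x))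
  let κ : L →+ Fin r → ℤ := AddMonoidHom.mk' f fun x y => inj _ _ (by
    simp only [Pi.add_apply, add_smul, Finset.sum_add_distrib, hf, map_add])
  have hκ : ∀ x k, (κ x k).natAbs ≤ G1 N * sz (x : Matrix ι ι ℤ) := fun x k => by
    have h1 : sz ((θ ^ Fintype.card ι : L) : Matrix ι ι ℤ) ≤ (N + 1) * (N + 1) ^ N := by
      have : sz (θ : Matrix ι ι ℤ) ^ Fintype.card ι ≤ (N + 1) ^ N :=
        (Nat.pow_le_pow_left (by omega) _).trans (Nat.pow_le_pow_right N.succ_pos hι)
      refine (sz_pow _ _).trans ?_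
      rw [add_mul, one_mul]; gcongr
    have h2 : vs (π x) ≤ Fintype.card (Fin s) * (sz (x : Matrix ι ι ℤ) * N * ((N + 1) * (N + 1) ^ N)) :=
      vs_le_of fun j => (trace_le _).trans ((sz_mul _ _).trans (Nat.mul_le_mul
        ((sz_mul _ _).trans (Nat.mul_le_mul_left _ (ha j))) h1))
    refine (hc (f x) k).trans ?_
    rw [hf]
    rw [Fintype.card_fin] at h2
    refine (Nat.mul_le_mul (pC.2 hs) (h2.trans (Nat.mul_le_mul_right _ hs))).trans (le_of_eq ?_)
    simp only [G1]; ring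
  have hv : ∀ v : Fin s → ℤ, (Matrix.of fun k i => κ (a i) k) *ᵥ v = κ (∑ i, v i • a i) := fun v => by
    ext k
    simp only [map_sum, map_zsmul]
    simp [mulVec, dotProduct, mul_comm]
  have he : ∀ k, ∃ e : L, κ e = Pi.single k 1 ∧ sz (e : Matrix ι ι ℤ) ≤ F (G2 N) * N := fun k => by
    obtain ⟨x, hx⟩ : b k ∈ LinearMap.range π := hb.le (Submodule.subset_span ⟨k, rfl⟩)
    obtain ⟨v, rfl⟩ := (Submodule.mem_span_range_iff_exists_fun ℤ).1 (sp x)
    have h1 : κ (∑ i, v i • a i) = Pi.single k 1 := inj _ _ ((hf _).trans (by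
      rw [hx]; simp [Pi.single_apply]))
    obtain ⟨v0, g1, g2⟩ := hS _ _ (Matrix.of fun k i => κ (a i) k) (G2 N) v
      (by simp only [G2, Fintype.card_fin]; omega) (by simp only [G2, Fintype.card_fin]; omega)
      ((sz_le_of (c := G1 N * N) fun k i => (hκ _ _).trans (Nat.mul_le_mul_left _ (ha i))).trans (by
        simp only [G2, Fintype.card_fin]
        have := hr.trans hs
        exact le_add_right (le_add_right (by gcongr))))
      (by rw [hv, h1]; simp [vs, Pi.single_apply, apply_ite Int.natAbs, G2])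
    exact ⟨_, by rw [← hv, g1, hv, h1], (sz_comb _ ha).trans (Nat.mul_le_mul_right _ g2)⟩
  choose e e1 e2 using he
  refine ⟨r, κ, e, hr.trans hs, by omega, fun x => ⟨fun g y => ?_, fun g => inj _ _ ?_⟩, e1,
    fun k => (e2 k).trans (by omega), fun x k => (hκ x k).trans (Nat.mul_le_mul_right _ (by omega))⟩
  · have h1 : π x = 0 := by rw [← hf, show f x = 0 from g]; simp
    obtain ⟨v, rfl⟩ := (Submodule.mem_span_range_iff_exists_fun ℤ).1 (sp y)
    simp only [Finset.mul_sum, Finset.sum_mul, mul_smul_comm, smul_mul_assoc,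
      AddSubmonoidClass.coe_finsetSum, AddSubgroupClass.coe_zsmul, trace_sum, trace_smul]
    exact Finset.sum_eq_zero fun i _ => smul_eq_zero_of_right _ (congrFun h1 i)
  · refine (hf x).trans ?_
    ext j
    exact (g (a j)).trans (by simp)

theorem reg : RB → SOL → NIL → REG := fun hR hS hN => by
  obtain ⟨G, pG, hG⟩ := coords hR hS
  refine ⟨fun N => (G N + 1) ^ 5, pG.pow (PB.const 5), fun ι _ _ L θ s a N hι hs ha hθ sp cθ => ?_⟩
  beta_reduce
  obtain ⟨r, κ, e, hr, g0, k0, k1, g1, g2⟩ := hG ι L θ s a N hι hs ha hθ sp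
  have h : Co κ e := ⟨k1, fun x y g => (k0 _).2 (jr_left cθ ((k0 _).1 g) y),
    fun x y g => (k0 _).2 (jr_right ((k0 _).1 g) y)⟩
  have g3 : r ≤ G N + 1 := by omega
  have g4 : ∀ x : L, vs (κ x) ≤ (G N + 1) * (G N * sz (x : Matrix ι ι ℤ)) := fun x =>
    (vs_le_of (g2 x)).trans (Nat.mul_le_mul_right _ (by simpa using g3))
  have g5 : ∀ x y : L, ∀ k, (κ (x * y) k).natAbs ≤
      G N * (sz (x : Matrix ι ι ℤ) * sz (y : Matrix ι ι ℤ)) := fun x y k =>
    (g2 _ _).trans (Nat.mul_le_mul_left _ (sz_mul _ _))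
  refine ⟨r, h.hom, fun i => lmb κ e (e i), κ θ, hr, fun i => ?_, (g4 θ).trans ?_, fun x => ?_,
    fun x => h.rho_zero.trans (k0 x), fun i x => h.comm _ x, fun g hg => ⟨_, h.commutant hg, ?_⟩,
    ?_, fun g => ?_, h.ss fun x g => (k0 x).2 fun y => ?_⟩
  · refine (sz_le_of (c := G N * (G N * G N)) fun j k => (g5 _ _ k).trans
      (Nat.mul_le_mul_left _ (Nat.mul_le_mul (g1 i) (g1 j)))).trans ?_
    rw [Fintype.card_fin, show (G N + 1) ^ 5 =
      (G N + 1) * ((G N + 1) * ((G N + 1) * ((G N + 1) * (G N + 1)))) by ring]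
    gcongr <;> omega
  · refine le_trans ?_ (Nat.pow_le_pow_right (G N).add_one_pos (show 3 ≤ 5 by omega))
    rw [show (G N + 1) ^ 3 = (G N + 1) * ((G N + 1) * (G N + 1)) by ring]
    gcongr <;> omega
  · refine (sz_le_of (c := G N * (G N * sz (x : Matrix ι ι ℤ))) fun j k => (g5 _ _ k).trans
      (Nat.mul_le_mul_left _ (Nat.mul_le_mul_right _ (g1 j)))).trans ?_
    refine le_trans ?_ (Nat.mul_le_mul_right _
      (Nat.pow_le_pow_right (G N).add_one_pos (show 4 ≤ 5 by omega)))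
    rw [Fintype.card_fin, show (G N + 1) ^ 4 * sz (x : Matrix ι ι ℤ) =
      (G N + 1) * ((G N + 1) * ((G N + 1) * ((G N + 1) * sz (x : Matrix ι ι ℤ)))) by ring]
    gcongr <;> omega
  · refine (sz_comb _ g1).trans ((Nat.mul_le_mul_right _ ((vs_vecMul _ _).trans
      (Nat.mul_le_mul_right _ (g4 1)))).trans ?_)
    refine le_trans ?_ (Nat.mul_le_mul_right _
      (Nat.pow_le_pow_right (G N).add_one_pos (show 4 ≤ 5 by omega)))
    rw [OneMemClass.coe_one, sz_one, show (G N + 1) ^ 4 * sz g =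
      (G N + 1) * ((G N + 1) * (G N + 1)) * sz g * (G N + 1) by ring]
    gcongr <;> omega
  · exact (h.lmb_sum θ).symm.trans (funext fun j => congrArg κ (cθ (e j)))
  · obtain ⟨v, hv, g⟩ := Matrix.exists_vecMul_eq_zero_iff.2 g
    rw [← h.sum v] at hv g
    refine hv ((k0 _).2 fun y => tr0 hN cθ (j := 1) (m := 0) ?_)
    rw [pow_one, zero_add, pow_one, ← mul_assoc, cθ]
    exact jr_right ((k0 _).1 ((h.rho_mul _ _).trans g)) y
  · obtain ⟨m, hm⟩ := g y
    exact tr0 hN cθ (j := 0) (by rw [pow_zero, one_mul]; exact (k0 _).1 hm)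

end Pool.Agent.MP_993212_an.H92
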