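import Pool.Agent.MP_993212_an.H92.PBase
import Pool.Agent.MP_993212_an.H15.FatA

/-! After a long relative delay the classes of the two worlds differ by deep and small terms. -/

namespace Pool.Agent.MP_993212_an.H92

open Matrix Polynomial Finset H15F Filter
open H15 hiding cf

variable {I G : Type} [Fintype I] [DecidableEq I] [AddCommGroup G] [Module ℤ[X] G]

theorem cls {ρ : ℝ} (h0 : 0 ≤ ρ) (h1 : ρ < 1) (z : I) (D : Finset I) (ξA ξB : I → G)
    (gen : ∀ g, ∃ y : I → ℤ[X], (∀ i, i ∉ D → y i = 0) ∧ ∑ i, y i • ξB i = g) (zD : z ∉ D)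
    (hz : ξA z = ξB z) (hD : ∀ d ∈ D, ξA d = ξB d) (L M₁ : ℕ) :
    ∀ᶠ M₂ in atTop, ∀ (π : Equiv.Perm I) (δ : I → ℕ), (∀ i, i = z ∨ i ∈ D → π i = i ∧ δ i = 0) →
      ∃ Z : Matrix I I ℤ[X], (∀ i d, Z i d ≠ 0 → i ≠ z ∧ i ∉ D ∧ d ∈ D) ∧
        (∀ i d, X ^ L ∣ Z i d ∧ nz ρ (Z i d) ≤ 1) ∧
        (fun i => (X ^ δ i : ℤ[X]) •
          (X ^ (if π i = z then 0 else if π i ∈ D then M₁ else M₂) : ℤ[X]) • ξA (π i)) =
        act (1 + Z) fun i => (X ^ (if i = z then 0 else if i ∈ D then M₁ else M₂) : ℤ[X]) • ξB i := by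
  choose y y1 y2 using gen
  have t : ∀ a : ℤ[X], ∀ᶠ n in atTop, ρ ^ n * nz ρ a ≤ 1 / 2 := fun a => by
    have := (tendsto_pow_atTop_nhds_zero_of_lt_one h0 h1).mul_const (nz ρ a)
    rw [zero_mul] at this
    exact (this.eventually (gt_mem_nhds one_half_pos)).mono fun _ h => h.le
  have t2 : ∀ ξ : I → G, ∀ᶠ n in atTop, ∀ i d, ρ ^ n * nz ρ (y (ξ i) d) ≤ 1 / 2 := fun ξ =>
    eventually_all.2 fun _ => eventually_all.2 fun _ => t _
  obtain ⟨n, hn⟩ := eventually_atTop.1 (((t2 ξA).and (t2 ξB)).and (eventually_ge_atTop L))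
  filter_upwards [eventually_ge_atTop (M₁ + n)] with M₂ hM π δ hπ
  obtain ⟨k, rfl⟩ := Nat.exists_eq_add_of_le (le_of_add_le_left hM)
  obtain ⟨⟨a1, a2⟩, a3⟩ := hn k (by omega)
  refine ⟨Matrix.of fun i d => if i = z ∨ i ∈ D then 0 else
    X ^ k * (X ^ δ i * y (ξA (π i)) d - y (ξB i) d), fun i d g => ?_, fun i d => ?_,
    funext fun i => ?_⟩
  · rw [of_apply] at g
    split_ifs at g with p
    · exact absurd rfl g
    · exact ⟨fun e => p (.inl e), fun e => p (.inr e), by_contra fun e => g (by simp [y1 _ d e])⟩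
  · rw [of_apply]
    split_ifs
    · simp [nz_zero]
    · refine ⟨(pow_dvd_pow _ a3).mul_right _, ?_⟩
      rw [nz_pow_mul h0]
      refine (mul_le_mul_of_nonneg_left (nz_sub_le ((nz_pow_mul h0 _ _).trans_le
        (mul_le_of_le_one_left (nz_nonneg _) (pow_le_one₀ h0 h1.le))) le_rfl)
        (pow_nonneg h0 k)).trans ?_
      linarith [a1 (π i) d, a2 i d]
  · rw [act_add, act_one, Pi.add_apply]
    by_cases p : i = z ∨ i ∈ D
    · have : ξA i = ξB i := p.elim (fun e => e ▸ hz) (hD i)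
      simp [act, p, (hπ i p).1, (hπ i p).2, this]
    · have q : ¬(π i = z ∨ π i ∈ D) := fun q => p (π.injective (hπ _ q).1 ▸ q)
      have e : ∀ g, ∑ d, y g d • (X ^ (if d = z then 0 else if d ∈ D then M₁ else M₁ + k) : ℤ[X]) •
          ξB d = (X ^ M₁ : ℤ[X]) • g := fun g => by
        nth_rewrite 2 [← y2 g]
        rw [smul_sum]
        refine sum_congr rfl fun d _ => ?_
        by_cases r : d ∈ D
        · rw [if_neg fun e : d = z => zD (e ▸ r), if_pos r, smul_comm]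
        · simp [y1 g d r]
      rw [not_or] at p q
      simp only [act, of_apply, p.1, p.2, q.1, q.2, or_self, if_false, mul_smul, sub_smul,
        ← smul_sum, sum_sub_distrib, e]
      module

end Pool.Agent.MP_993212_an.H92
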