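import Pool.Agent.MP_993212_an.H92.PMain
import Pool.Agent.MP_993212_an.H92.Cls
import Pool.Agent.MP_993212_an.H65.Trace

/-! From two states with the same diagonal to the conclusion of the low normal form. -/

namespace Pool.Agent.MP_993212_an.H92

open Matrix Polynomial Finset H18 Filter
open H15 hiding cf
open H16 hiding Hon lv

variable {V W I G : Type} [Fintype V] [DecidableEq V] [Fintype W] [DecidableEq W] [Fintype I]
  [DecidableEq I] [AddCommGroup G] [Module ℤ[X] G]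

theorem hon_of_eqv {A : Matrix V V ℕ} {ι : V → G} {N : Matrix I I ℤ[X]} {ξ : I → G}
    (h : Eqv (pen (zz A)) 0 ι (1 - N) 0 ξ) (n : cf 0 N = 0) (p : Pres (pen (zz A)) ι) :
    H16.Hon A ι (1 - N) ξ := by
  have c : cf 0 (1 - N) = 1 := by rw [cf_sub, n, cf_one, sub_zero]
  obtain ⟨d, ⟨⟨B, T, a, b, e, g, r⟩, l⟩, d0⟩ := (((moves.out _ _ _ A ι _ ξ h c).and
    (ev_lt (1 - N))).and (eventually_gt_atTop 0)).exists
  obtain ⟨d, rfl⟩ := Nat.exists_eq_succ_of_ne_zero d0.ne'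
  exact ⟨fun u v => (congrFun (congrFun c u) v).trans (one_apply), h.pres.1 p, d, B, T, a, b,
    fun u v => (l u v).le, e, g, congrFun r⟩

theorem nf_mono {ρ η ε ε' : ℝ} {z : I} {L L' : ℕ} {dg dg' : I → ℤ[X]} {N : Matrix I I ℤ[X]}
    (h : NF ρ η ε z L dg N) (a : ε ≤ ε') (b : L' ≤ L) (c : ∀ i, X ^ L' ∣ dg i - dg' i) :
    NF ρ η ε' z L' dg' N :=
  ⟨h.hs, h.inv, fun u l g => ⟨(pow_dvd_pow _ b).trans (h.off u l g).1, (h.off u l g).2.trans a⟩,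
    fun i => by simpa using ((pow_dvd_pow _ b).trans (h.dia i)).add (c i), h.lt⟩

theorem nf_dvd {ρ η ε : ℝ} {z : I} {L : ℕ} {dg : I → ℤ[X]} {N : Matrix I I ℤ[X]}
    (h : NF ρ η ε z L dg N) (i j : I) : X ^ L ∣ (1 - N - diagonal dg) i j := by
  by_cases g : i = j
  · simpa [g] using h.dia j
  · simpa [g] using (h.off i j g).1

theorem hub_dia {ρ η : ℝ} {z : I} {L : ℕ} {N N' : Matrix I I ℤ[X]} (s : St ρ η z L N)
    (s' : St ρ η z L N') (e : (1 - N).det = (1 - N').det) (d : ∀ i, i ≠ z → X ^ L ∣ N i i - N' i i) :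
    X ^ L ∣ N z z - N' z z := by
  have f : ∀ {N : Matrix I I ℤ[X]}, St ρ η z L N → X ^ L ∣ (1 - N).det -
      (1 - N z z) * ∏ i ∈ univ.erase z, (1 - N i i) := fun {N} s => by
    have := H65.det_diag (1 - N) z (X ^ L) fun u l a b => by simpa [b] using s.clean u l a b
    rw [← mul_prod_erase _ _ (mem_univ z)] at this
    simpa using this
  have a : X ^ L ∣ ∏ i ∈ univ.erase z, (1 - N i i) - ∏ i ∈ univ.erase z, (1 - N' i i) := by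
    rw [← Ideal.mem_span_singleton, ← Ideal.Quotient.eq, map_prod, map_prod]
    refine prod_congr rfl fun i hi => Ideal.Quotient.eq.2 (Ideal.mem_span_singleton.2 ?_)
    simpa using (d i (ne_of_mem_erase hi)).neg_right
  have b : X ^ L ∣ (N z z - N' z z) * ∏ i ∈ univ.erase z, (1 - N i i) := by
    convert ((f s).sub (f s')).add (a.mul_left (1 - N' z z)) using 1
    rw [e]; ring
  refine prime_X.pow_dvd_of_dvd_mul_right L (fun g => ?_) b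
  obtain ⟨i, -, g⟩ := (prime_X.dvd_finset_prod_iff _).1 g
  have : (N i i).coeff 0 = 0 := congrFun (congrFun s.hs.2 i) i
  simp [X_dvd_iff, this] at g

theorem glue (hE : EndStmt) (hD : DlyStmt) (hS : Cn I (tI 1) ≤ Hn I (tI 1)) (h3 : Three I)
    {A : Matrix V V ℕ} {B : Matrix W W ℕ} {R : Matrix V W ℕ} {κ : W → G} (e : A * R = R * B)
    (pB : Pres (pen (zz B)) κ) (pA : Pres (pen (zz A)) (pull (zz R) κ))
    (eχ : (pen (zz B)).det = (pen (zz A)).det) {ρ η ε : ℝ} {L L' ν h c : ℕ} {z p q : I}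
    (h0 : 0 < ρ) (h1 : ρ < 1) (η0 : 0 < η) (ε0 : 0 < ε) (l0 : 1 ≤ L) (l1 : L + ν ≤ L')
    (l2 : 2 * ν + 2 ≤ L')
    (hF : ∀ (N₁ N₂ Z : Matrix I I ℤ[X]) (ξ₁ ξ₂ : I → G) (dg : I → ℤ[X]) (D : Finset I),
      NF ρ η ε z L dg N₁ → NF ρ η ε z L dg N₂ →
      N1 (N₁ z z - ((c : ℤ[X]) * X ^ h + Wd h)) → N1 (N₂ z z - ((c : ℤ[X]) * X ^ h + Wd h)) →
      (1 - N₁).det = (pen (zz A)).det → (1 - N₂).det = (pen (zz A)).det → dg p = 1 → dg q = 1 →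
      Pres (1 - N₁) ξ₁ → Pres (1 - N₂) ξ₂ → z ∉ D → (∀ d ∈ D, Src N₁ d ∧ Src N₂ d) →
      (∀ i d, Z i d ≠ 0 → i ≠ z ∧ i ∉ D ∧ d ∈ D) → (∀ i d, X ^ L ∣ Z i d ∧ nz ρ (Z i d) ≤ 1) →
      ξ₁ = act (1 + Z) ξ₂ → ∃ v ∈ Hn I (tI (ν + 1)), ∃ U ∈ Cn I (tI 1), pl v.val ξ₂ = ξ₁ ∧
        (1 - N₁) * v.val = U.val * (1 - N₂) ∧ (U ∈ Hn I (tI ν) → Eq0 N₁ ξ₁ N₂ ξ₂))
    {NA NB : Matrix I I ℤ[X]} {ξA ξB : I → G}
    (qA : Eqv (pen (zz A)) 0 (pull (zz R) κ) (1 - NA) 0 ξA) (qB : Eqv (pen (zz B)) 0 κ (1 - NB) 0 ξB)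
    (sA : St ρ η z L' NA) (sB : St ρ η z L' NB) {dg : I → ℤ[X]}
    (dA : ∀ i, X ^ L' ∣ 1 - NA i i - dg i) (dB : ∀ i, i ≠ z → X ^ L' ∣ 1 - NB i i - dg i)
    (fA : N1 (NA z z - ((c : ℤ[X]) * X ^ h + Wd h))) (fB : N1 (NB z z - ((c : ℤ[X]) * X ^ h + Wd h)))
    (dp : dg p = 1) (dq : dg q = 1) {D : Finset I} (zD : z ∉ D) (sD : ∀ d ∈ D, Src NA d ∧ Src NB d)
    (gen : ∀ g, ∃ y : I → ℤ[X], (∀ i, i ∉ D → y i = 0) ∧ ∑ i, y i • ξB i = g) (cz : ξA z = ξB z)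
    (cD : ∀ d ∈ D, ξA d = ξB d) {per : I → ℕ} (p1 : ∀ i, per i ≠ 0 → dg i = 1 - X ^ per i)
    (p2 : ∀ i, i = z ∨ i ∈ D → per i = 0) :
    ∃ (P₁ P₂ : Matrix I I ℤ[X]) (ξ₁ ξ₂ : I → G),
      H16.Hon A (pull (zz R) κ) P₁ ξ₁ ∧ H16.Hon B κ P₂ ξ₂ ∧
      (∀ i j, X ^ (2 * ν + 2) ∣ (P₁ - diagonal dg) i j) ∧
      (∀ i j, X ^ (2 * ν + 2) ∣ (P₂ - diagonal dg) i j) ∧
      ∀ (π : Equiv.Perm I) (δ : I → ℕ) (P' : Matrix I I ℤ[X]), (∀ i, per (π i) = per i) →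
        (∀ i, per i = 0 → π i = i ∧ δ i = 0) → (∀ i, δ i ≤ ν) → Dly δ (P₁.submatrix π π) P' →
        ∃ v ∈ Hn I (tI (ν + 1)), ∃ U ∈ El I ℤ[X],
          pl v.val ξ₂ = (fun i => (X : ℤ[X]) ^ δ i • ξ₁ (π i)) ∧ P' * v.val = U.val * P₂ ∧
          (U ∈ Hn I (tI ν) → Real A B (zz R)) := by
  have dB' : ∀ i, X ^ L' ∣ 1 - NB i i - dg i := fun i => by
    by_cases g : i = z
    · have := hub_dia sA sB (qA.det.symm.trans (eχ.symm.trans qB.det)) fun i hi => by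
        simpa using (dB i hi).sub (dA i)
      rw [g]
      convert (dA z).add this using 1
      ring
    · exact dB i g
  have ε1 : 0 < ε * ρ ^ ν := by positivity
  obtain ⟨M₁, a, b⟩ := ((hE I G NA ξA z ρ η _ L' D sA qA.rel' h0 h1 η0 ε1 zD fun d g => (sD d g).1).and
    (hE I G NB ξB z ρ η ε L' D sB qB.rel' h0 h1 η0 ε0 zD fun d g => (sD d g).2)).exists
  obtain ⟨M₂, ⟨⟨N₁, a1, a2, a3, a4⟩, N₂, b1, b2, b3, b4⟩, k⟩ :=
    ((a.and b).and (cls h0.le h1 z D ξA ξB gen zD cz cD L M₁)).exists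
  have a5 := nf_mono a2 le_rfl le_rfl dA
  have b5 := nf_mono b2 le_rfl le_rfl dB'
  have a6 := qA.trans a1
  have b6 := qB.trans b1
  refine ⟨_, _, _, _, hon_of_eqv a6 a2.hs.2 pA, hon_of_eqv b6 b2.hs.2 pB,
    fun i j => (pow_dvd_pow _ l2).trans (nf_dvd a5 i j),
    fun i j => (pow_dvd_pow _ l2).trans (nf_dvd b5 i j), fun π δ P' g1 g2 g3 g4 => ?_⟩
  obtain ⟨c1, c2, c3, c4⟩ := hD I G N₁ _ z ρ η ε L ν dg π δ P' (nf_mono a5 le_rfl l1 (by simp))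
    a1.rel' h0 h1.le ε0.le l0 (g2 z (p2 z (.inl rfl))).1 (fun i => by
      by_cases g : per i = 0
      · rw [(g2 i g).1]
      · rw [p1 i g, p1 _ (by rwa [g1]), g1]) g3 g4
  obtain ⟨Z, z1, z2, z3⟩ := k π δ fun i hi => g2 i (p2 i hi)
  have c5 := a6.trans c1
  obtain ⟨v, v1, U, u1, u2, u3, u4⟩ := hF (1 - P') N₂ Z _ _ dg D c2
    (nf_mono b5 le_rfl (by omega) (by simp)) (by rw [c3]; simpa using H15F.n1_add a4 fA)
    (by simpa using H15F.n1_add b4 fB) c5.det.symm (b6.det.symm.trans eχ) dp dq (c5.pres.1 pA)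
    (b6.pres.1 pB) zD (fun d g => ⟨c4 d (by rw [(g2 d (p2 d (.inr g))).1]; exact a3 d g), b3 d g⟩)
    z1 z2 z3
  exact ⟨v, v1, U, Hn_le_El h3 _ (hS u1), u2, by simpa using u3, fun g => moves.fin _ _ _ A B _ κ
    (by rw [← zz_mul, e, zz_mul]) pB (c5.trans ((u4 g).trans b6.symm))⟩

end Pool.Agent.MP_993212_an.H92
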