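import Pool.Agent.MP_993212_an.H92.PBase
import Pool.Agent.MP_993212_an.H16.TR

/-! Shift equivalent matrices have pencils with the same determinant. -/

namespace Pool.Agent.MP_993212_an.H92

open Matrix Polynomial Finset H16

variable {V W : Type} [Fintype V] [DecidableEq V] [Fintype W] [DecidableEq W]

theorem det_se {A : Matrix V V ℕ} {B : Matrix W W ℕ} {R : Matrix V W ℕ} {S : Matrix W V ℕ} {l : ℕ}
    (e1 : A * R = R * B) (e2 : S * A = B * S) (e3 : R * S = A ^ l) (e4 : S * R = B ^ l) :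
    (pen (zz B)).det = (pen (zz A)).det := by
  have m : ∀ {I J K : Type} [Fintype J] [Fintype K] [DecidableEq J] (P : Matrix I J ℕ) (Q : Matrix J K ℕ),
      cc (zz (P * Q)) = cc (zz P) * cc (zz Q) := fun P Q => by rw [zz_mul, cc_mul]
  have p : ∀ {I : Type} [Fintype I] [DecidableEq I] (P : Matrix I I ℕ),
      cc (zz (P ^ l)) = cc (zz P) ^ l := fun P => by
    rw [zz_pow]; exact map_pow (C : ℤ →+* ℤ[X]).mapMatrix _ l
  have f1 := congrArg (fun M => cc (zz M)) e1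
  have f2 := congrArg (fun M => cc (zz M)) e2
  have f3 := congrArg (fun M => cc (zz M)) e3
  have f4 := congrArg (fun M => cc (zz M)) e4
  have a0 := tr_coeff_zero (zz A)
  have b0 := tr_coeff_zero (zz B)
  simp only [m, p] at f1 f2 f3 f4
  change (1 - (X : ℤ[X]) • cc (zz B)).det = (1 - (X : ℤ[X]) • cc (zz A)).det
  change (1 - (X : ℤ[X]) • cc (zz A)).det.coeff 0 = 1 at a0
  change (1 - (X : ℤ[X]) • cc (zz B)).det.coeff 0 = 1 at b0
  generalize cc (zz A) = a, cc (zz B) = b, cc (zz R) = r, cc (zz S) = s at *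
  have g1 : (1 - (X : ℤ[X]) • a) * r = r * (1 - (X : ℤ[X]) • b) := by
    simp [Matrix.sub_mul, Matrix.mul_sub, f1]
  have g2 : (1 - (X : ℤ[X]) • b) * s = s * (1 - (X : ℤ[X]) • a) := by
    simp [Matrix.sub_mul, Matrix.mul_sub, f2]
  have g3 : (∑ i ∈ range l, ((X : ℤ[X]) • a) ^ i) * r = r * ∑ i ∈ range l, ((X : ℤ[X]) • b) ^ i := by
    rw [Matrix.sum_mul, Matrix.mul_sum]
    exact sum_congr rfl fun i _ => H12.pow_inter (by simp [f1]) i
  have g4 := geom_sum_mul_neg ((X : ℤ[X]) • a) l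
  have g5 := geom_sum_mul_neg ((X : ℤ[X]) • b) l
  have g6 := mul_neg_geom_sum ((X : ℤ[X]) • b) l
  rw [_root_.smul_pow, ← f3] at g4
  rw [_root_.smul_pow, ← f4] at g5 g6
  generalize 1 - (X : ℤ[X]) • a = Q, 1 - (X : ℤ[X]) • b = Q',
    ∑ i ∈ range l, ((X : ℤ[X]) • a) ^ i = σ, ∑ i ∈ range l, ((X : ℤ[X]) • b) ^ i = σ' at *
  have k1 : fromBlocks σ r (-((X ^ l : ℤ[X]) • s)) Q' * fromBlocks Q (-r) ((X ^ l : ℤ[X]) • s) σ' =
      1 := by
    simp [fromBlocks_multiply, g2, g3, g4, g6]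
  have k2 : fromBlocks Q (-r) ((X ^ l : ℤ[X]) • s) σ' * fromBlocks 1 r 0 Q' =
      fromBlocks Q 0 ((X ^ l : ℤ[X]) • s) 1 := by
    simp [fromBlocks_multiply, g1, g5]
  obtain ⟨c, -, hc⟩ := Polynomial.isUnit_iff.1 (isUnit_det_of_left_inverse k1)
  have k3 := congrArg det k2
  rw [det_mul, ← hc, det_fromBlocks_zero₂₁, det_fromBlocks_zero₁₂, det_one, det_one, one_mul,
    mul_one] at k3
  have k4 := congrArg (fun f => f.coeff 0) k3
  simp only [coeff_C_mul, a0, b0, mul_one] at k4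
  rw [← k3, k4, map_one, one_mul]

end Pool.Agent.MP_993212_an.H92
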