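import Pool.Agent.MP_993212_an.H92.Glue
import Pool.Agent.MP_993212_an.H92.SeDet
import Pool.Agent.MP_993212_an.H15.LowA
import Pool.Agent.MP_993212_an.H2.Const
import Pool.Agent.MP_993212_an.H18.WSpec2

/-! The assembly of the low normal form. -/

namespace Pool.Agent.MP_993212_an.H92

open Matrix Polynomial Finset H18 Filter H15F
open H15 hiding cf
open H16 hiding Hon lv

/-- the common set of states -/
abbrev Ty (V W : Type) (h ν n : ℕ) (o : ℕ → ℕ) : Type :=
  Option (Option V) ⊕ Option W ⊕ V ⊕ (Σ k : Fin h, Fin (o k)) ⊕ Fin (ν + 1) ⊕ Fin (n + 3)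

variable {V W : Type} {h ν n : ℕ} {o : ℕ → ℕ}

/-- the lengths of the single loops -/
def tyPer : Ty V W h ν n o → ℕ
  | .inr (.inr (.inr (.inl x))) => x.1
  | .inr (.inr (.inr (.inr (.inl k)))) => if h ≤ k then k else 0
  | _ => 0

/-- the states of the second world -/
def tyB : Option (Option W) ↪ Ty V W h ν n o :=
  ⟨fun j => j.elim (.inl none) fun w => .inr (.inl w), by rintro (_ | _) (_ | _) <;> simp⟩

/-- the common sources -/
def tyD : V ↪ Ty V W h ν n o := ⟨fun v => .inr (.inr (.inl v)), fun _ _ => by simp⟩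

/-- the unused states -/
def tyU (i : Fin (n + 3)) : Ty V W h ν n o := .inr (.inr (.inr (.inr (.inr i))))

/-- the rows of the common sources -/
noncomputable def tyY (F : Matrix V W ℕ) {U : Type} :
    Matrix (Ty V U h ν n o) (Option (Option W)) ℤ[X]
  | .inr (.inr (.inl v)), some (some w) => X * (F v w : ℤ[X])
  | _, _ => 0

variable [Fintype V] [DecidableEq V] [Fintype W] [DecidableEq W]

theorem ty_low {k : ℕ} (a : 1 ≤ k) (b : k < h) :
    (univ.filter fun i : Ty V W h ν n o => tyPer i = k).card = o k := by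
  rw [← Fintype.card_fin (o k), ← card_univ]
  refine (card_bij (fun i _ => .inr (.inr (.inr (.inl ⟨⟨k, b⟩, i⟩)))) (fun _ _ => by simp [tyPer])
    (fun _ _ _ _ => by simp) ?_).symm
  rintro (_ | _ | _ | ⟨⟨j, _⟩, i⟩ | j | _) g <;> simp only [tyPer, mem_filter, mem_univ, true_and] at g
  any_goals omega
  · subst g; exact ⟨i, mem_univ _, rfl⟩
  · split_ifs at g <;> omega

theorem ty_hi {k : ℕ} (a : 1 ≤ h) (b : h ≤ k) :
    (univ.filter fun i : Ty V W h ν n o => tyPer i = k).card ≤ 1 := by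
  have : ∀ i : Ty V W h ν n o, tyPer i = k → ∃ j : Fin (ν + 1),
      i = .inr (.inr (.inr (.inr (.inl j)))) ∧ (j : ℕ) = k := by
    rintro (_ | _ | _ | ⟨⟨j, _⟩, i⟩ | j | _) g <;> simp only [tyPer] at g
    any_goals omega
    exact ⟨j, rfl, by split_ifs at g <;> omega⟩
  refine card_le_one.2 fun i hi j hj => ?_
  obtain ⟨x, rfl, a⟩ := this i (mem_filter.1 hi).2
  obtain ⟨y, rfl, b⟩ := this j (mem_filter.1 hj).2
  rw [Fin.ext (a.trans b.symm)]

theorem tyY_spec {U G : Type} [Fintype U] [DecidableEq U] [AddCommGroup G] [Module ℤ[X] G]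
    (F : Matrix V W ℕ) (ξ : Option (Option W) → G) :
    NN (tyY (h := h) (ν := ν) (n := n) (o := o) (U := U) F) ∧
    cf 0 (tyY (h := h) (ν := ν) (n := n) (o := o) (U := U) F) = 0 ∧
    (∀ i : Ty V U h ν n o, i ∉ univ.map tyD → tyY F i = 0) ∧
    ∀ v, act (tyY F) ξ (tyD v : Ty V U h ν n o) =
      act ((X : ℤ[X]) • cc (zz F)) (fun w => ξ (some (some w))) v := by
  refine ⟨?_, ?_, ?_, fun v => by simp [act, tyY, tyD, cc, zz_apply, Fintype.sum_option]⟩
  · rintro (_ | _ | v | _) (_ | _ | w)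
    any_goals exact n1_zero
    exact n1_mul (pow_one (X : ℤ[X]) ▸ n1_pow 1) (n1_nat (F v w))
  · ext (_ | _ | v | _) (_ | _ | w) <;> simp [cf, tyY]
  · rintro (_ | _ | v | _) g
    on_goal 3 => exact absurd (mem_map_of_mem _ (mem_univ v)) g
    all_goals exact funext fun j => by rcases j with _ | _ | _ <;> rfl

theorem low_of (hH : HubStmt2) (hE : EmbStmt) (hC : CleanStmt) (hT : TraceStmt) (hL : LowExtStmt)
    (hM : MidStmt) (hA : AbundStmt) (hN : EndStmt) (hD : DlyStmt) (hV : DivStmt) (hS : SusStmt)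
    (hF : FatStmt) : LowStmt := by
  intro V W G _ _ _ _ _ _ A B R S l κ pA pB h2 hl e1 e2 e3 e4 qB qA
  have nV : Nonempty V := by
    by_contra g
    rw [not_nonempty_iff] at g
    simp at h2
  have row : ∀ {U : Type} [Fintype U] [DecidableEq U] {C : Matrix U U ℕ}, Prim C → ∀ k u,
      ∃ v, (C ^ k) u v ≠ 0 := fun {U} _ _ {C} ⟨m, _, g⟩ k u => by
    by_contra q
    push Not at q
    have : 0 < ((C ^ m) ^ k) u u := by
      clear q
      induction k with
      | zero => simp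
      | succ k ih =>
        rw [pow_succ, mul_apply]
        exact (Nat.mul_pos ih (g u u)).trans_le (single_le_sum
          (f := fun j => ((C ^ m) ^ k) u j * (C ^ m) j u) (fun _ _ => Nat.zero_le _) (mem_univ u))
    obtain ⟨m, rfl⟩ : ∃ j, m = j + 1 := ⟨m - 1, by omega⟩
    rw [← pow_mul, add_mul, one_mul, add_comm, pow_add, mul_apply] at this
    simp [q] at this
  have ex : ∀ {U U' U'' : Type} [Fintype U'] (P : Matrix U U' ℕ) (Q : Matrix U' U'' ℕ) u v,
      (P * Q) u v ≠ 0 → ∃ w, P u w ≠ 0 := fun P Q u v g => by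
    obtain ⟨w, -, g⟩ := exists_ne_zero_of_sum_ne_zero g
    exact ⟨w, left_ne_zero_of_mul g⟩
  obtain ⟨v₀⟩ := id nV
  obtain ⟨w₀, r0⟩ := (row pA l v₀).elim fun v g => ex R S v₀ v (e3 ▸ g)
  obtain ⟨lam, x, l1, x0, ex1⟩ := hA.eig V A pA h2
  have mp : ∀ {U U' U'' : Type} [Fintype U'] (P : Matrix U U' ℕ) (Q : Matrix U' U'' ℕ),
      (P * Q).map (Nat.cast : ℕ → ℝ) = P.map (Nat.cast : ℕ → ℝ) * Q.map (Nat.cast : ℕ → ℝ) :=
    fun P Q => Matrix.map_mul (f := Nat.castRingHom ℝ)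
  have rA : act ((X : ℤ[X]) • cc (zz A)) (pull (zz R) κ) = pull (zz R) κ := by
    have : act (1 - (X : ℤ[X]) • cc (zz A)) (pull (zz R) κ) = 0 :=
      funext fun v => (qA.2 _).2 ⟨Pi.single v 1, (single_one_vecMul v _).symm⟩
    rw [act_sub, act_one, sub_eq_zero] at this
    exact this.symm
  have rB : act ((X : ℤ[X]) • cc (zz B)) κ = κ := by
    have : act (1 - (X : ℤ[X]) • cc (zz B)) κ = 0 :=
      funext fun v => (qB.2 _).2 ⟨Pi.single v 1, (single_one_vecMul v _).symm⟩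
    rw [act_sub, act_one, sub_eq_zero] at this
    exact this.symm
  have rj : ∀ j, act ((X ^ j : ℤ[X]) • cc (zz (R * B ^ j))) κ = pull (zz R) κ := fun j => by
    induction j with
    | zero => simp; rfl
    | succ j ih =>
      rw [← ih]
      nth_rewrite 2 [← rB]
      rw [← act_mul, pow_succ B, ← Matrix.mul_assoc, zz_mul _ B, cc_mul, Matrix.smul_mul,
        Matrix.mul_smul, smul_smul, pow_succ]
  obtain ⟨j, -, hj⟩ := id pB
  obtain ⟨NA, ξA, ρA, ηA, pa, a1, a2, a3, a4, a5, a6, a7, a8, a9, a10⟩ := hH V G A _ lam x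
    (fun _ => 2) 1 pA nV l1 x0 ex1 (by rw [pen, act_sub, act_one]; exact sub_eq_zero.2 rA.symm)
    (fun _ => le_rfl) le_rfl
  obtain ⟨NB, ξB, ρB, ηB, pb, b1, b2, b3, b4, b5, b6, b7, b8, b9, b10⟩ := hH W G B κ lam
    (S.map (Nat.cast : ℕ → ℝ) *ᵥ x) (fun w => ∑ v, 2 * (R * B ^ j) v w) (1 + j) pB ⟨w₀⟩ l1
    (fun w => by
      obtain ⟨v, g⟩ := (row pB l w).elim fun v g => ex S R w v (e4 ▸ g)
      exact sum_pos' (fun v _ => mul_nonneg (Nat.cast_nonneg _) (x0 v).le)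
        ⟨v, mem_univ v, mul_pos (Nat.cast_pos.2 (Nat.pos_of_ne_zero g)) (x0 v)⟩)
    (by rw [mulVec_mulVec, ← mp B S, ← e2, mp S A, ← mulVec_mulVec, ex1, mulVec_smul])
    (by rw [pen, act_sub, act_one]; exact sub_eq_zero.2 rB.symm)
    (fun w => le_trans (Nat.le_mul_of_pos_right 2 ((Nat.mul_pos (Nat.pos_of_ne_zero r0)
      (hj w₀ w)).trans_le (single_le_sum (f := fun u => R v₀ u * (B ^ j) u w)
        (fun _ _ => Nat.zero_le _) (mem_univ w₀))))
      (single_le_sum (f := fun v => 2 * (R * B ^ j) v w) (fun _ _ => Nat.zero_le _) (mem_univ v₀)))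
    (by omega)
  have cz : ξA none = ξB none := by
    rw [a3, b3, ← rj j]
    simp only [act, smul_sum, smul_smul, Matrix.smul_apply, cc, map_apply, zz_apply, smul_eq_mul]
    rw [sum_comm]
    refine sum_congr rfl fun w _ => ?_
    rw [← sum_smul, Nat.cast_sum, sum_mul]
    congr 1
    refine sum_congr rfl fun v _ => ?_
    simp only [eq_intCast, Int.cast_natCast, Nat.cast_mul]
    ring
  have eχ := det_se e1 e2 e3 e4
  obtain ⟨T, hT'⟩ := hV _ (tr_coeff_zero (zz A))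
  obtain ⟨σ, ρ₁, ρ, η, h, c₀, c, c1, -, c3, c4, c5, c6, c7, c8, c9, c10, c11, c12, c13, c14, c15,
    c16⟩ := H2.consts T (fun m => np m A) (Fintype.card (Option (Option V)) +
      Fintype.card (Option (Option W)) + 2) l1 a5 b5 a6 b6 fun ρ K g =>
        hA.many V A lam x ρ K pA nV l1 x0 ex1 g
  obtain ⟨n, hn⟩ := hS
  choose! o ho using hA.dvd V A
  have s1 : ρ₁ < 1 := by linarith
  have s0 : 0 < σ := by linarith
  obtain ⟨ν, f1, f2⟩ := ((hF ρ ρ₁ (η / 2) h c _ c1 c3 s1 (half_pos c8) c11 c13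
    (tr_coeff_zero (zz A)) (hT' ρ c1 c12)).and (eventually_ge_atTop h)).exists
  letI := Classical.decEq (Ty V W h ν n o)
  have cd : n + 3 ≤ Fintype.card (Ty V W h ν n o) := by
    simp only [Fintype.card_sum, Fintype.card_fin]; omega
  have h3 : Three (Ty V W h ν n o) := three_of_card (by omega)
  obtain ⟨ε, ε0, L, l0, f3⟩ := f1 (Ty V W h ν n o) (.inl none) (tyU ⟨1, by omega⟩) (tyU ⟨2, by omega⟩) h3
    (by simp [tyU, Fin.ext_iff])
    (by simp [tyU]) (by simp [tyU])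
  have ct : ∀ k, 1 ≤ k → k < h →
      ((univ.filter fun i : Ty V W h ν n o => tyPer i = k).card : ℤ) * k = np k A :=
    fun k a b => by rw [ty_low a b, ho k a]
  have yA := tyY_spec (h := h) (ν := ν) (n := n) (o := o) (U := W) A ξA
  have yB := tyY_spec (h := h) (ν := ν) (n := n) (o := o) (U := W) (R * B ^ 1) ξB
  obtain ⟨N₁, ξ₁, u1, u2, u3, u4⟩ := phase1 (L := L + 2 * ν + 2) hE hC hT hL A
    Function.Embedding.inl _ tyPer _ a2 a1.rel' a1.det.symm
    (Cert.mono a7 s0.le c5 (show η ≤ ηA by linarith)) a8 a9 a10 yA.1 yA.2.1 yA.2.2.1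
    (by simp [tyD]) (fun _ => rfl) (by simp [tyD, tyPer]) s0 c8 c7 c11 (by omega) ct
  obtain ⟨N₂, ξ₂, v1, v2, v3, v4⟩ := phase1 (L := L + 2 * ν + 2) hE hC hT hL A tyB _ tyPer _ b2
    b1.rel' (b1.det.symm.trans eχ) (Cert.mono b7 s0.le c6 (show η ≤ ηB by linarith)) b8 b9 b10
    yB.1 yB.2.1 yB.2.2.1 (by rintro (_ | _) <;> simp [tyD, tyB]) (by rintro (_ | _) <;> rfl)
    (by simp [tyD, tyPer]) s0 c8 c7 c11 (by omega) ct
  have mA : ∀ i : Ty V W h ν n o, i ∈ (univ.erase none).map Function.Embedding.inl ↔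
      ∃ v, i = .inl (some v) := fun i => by
    simp only [Finset.mem_map, mem_erase]
    exact ⟨by rintro ⟨_ | v, g, rfl⟩; exacts [absurd rfl g.1, ⟨v, rfl⟩],
      fun ⟨v, g⟩ => ⟨some v, by simp, g.symm⟩⟩
  have mB : ∀ i : Ty V W h ν n o, i ∈ (univ.erase none).map tyB ↔ ∃ w, i = .inr (.inl w) :=
    fun i => by
    simp only [Finset.mem_map, mem_erase]
    exact ⟨by rintro ⟨_ | v, g, rfl⟩; exacts [absurd rfl g.1, ⟨v, rfl⟩],
      fun ⟨v, g⟩ => ⟨some v, by simp, g.symm⟩⟩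
  have mD : ∀ i : Ty V W h ν n o, i ∈ univ.map tyD ↔ ∃ v, i = .inr (.inr (.inl v)) :=
    fun i => by simp [tyD, eq_comm]
  have k3 : ∀ a b : ℕ, a + b ≤ Fintype.card (Option (Option V)) + Fintype.card (Option (Option W)) →
      ∀ m, h ≤ m → m < 2 * h → m * (a + b + 2 + (c₀ + c : ℝ) * σ ^ m) ≤ np m A * σ ^ m :=
    fun a b g m m1 _ => by
      have := c16 m m1
      have g' : (a + b : ℝ) ≤ (Fintype.card (Option (Option V)) : ℝ) +
        Fintype.card (Option (Option W)) := by exact_mod_cast g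
      nlinarith [mul_le_mul_of_nonneg_right g' (Nat.cast_nonneg m)]
  have k4 : ((univ.erase none).map (Function.Embedding.inl : _ ↪ Ty V W h ν n o)).card ≤
      Fintype.card (Option (Option V)) := by rw [card_map]; exact card_le_univ _
  have k5 : ((univ.erase none).map (tyB : _ ↪ Ty V W h ν n o)).card ≤
      Fintype.card (Option (Option W)) := by rw [card_map]; exact card_le_univ _
  obtain ⟨N₃, ξ₃, w1, w2, w3, w4, w5, w6, w7⟩ := phase2 (r := tyU 0) (c₀ := c₀) (c := c) hM u4 v4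
    u1.rel' (c1.trans c3) c4.le c8 c7 c11 (by omega) rfl rfl (by simp [tyU]) (by rw [mA]; simp [tyU])
    (by rw [mB]; simp [tyU]) (by simp [mD, tyU]) (by rw [mB]; simp) (by simp [mD])
    (by simp only [mA]; rintro _ ⟨_, rfl⟩; rfl)
    (by simp only [mA, mB, mD]; rintro _ ⟨_, rfl⟩; simp [tyPer])
    (by simp only [mA, mD]; rintro _ ⟨_, rfl⟩; simp [tyPer]) (fun k => ty_hi c11) (by linarith) c15
    (k3 _ _ (by omega))
  obtain ⟨N₄, ξ₄, z1, z2, z3, z4, z5, z6, z7⟩ := phase2 (r := tyU 0) (c₀ := c₀) (c := c) hM v4 u4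
    v1.rel' (c1.trans c3) c4.le c8 c7 c11 (by omega) rfl rfl (by simp [tyU, tyB])
    (by rw [mB]; simp [tyU]) (by rw [mA]; simp [tyU]) (by simp [mD, tyU]) (by rw [mA]; simp [tyB])
    (by simp [mD, tyB]) (by simp only [mB]; rintro _ ⟨_, rfl⟩; rfl)
    (by simp only [mA, mB, mD]; rintro _ ⟨_, rfl⟩; simp [tyPer])
    (by simp only [mB, mD]; rintro _ ⟨_, rfl⟩; simp [tyPer]) (fun k => ty_hi c11) (by linarith) c15
    (k3 _ _ (by omega))
  rw [tg_comm] at z7
  have d3 : ∀ v, ξ₃ (tyD v) = pull (zz R) κ v := fun v => by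
    have m := mem_map_of_mem (tyD (W := W) (h := h) (ν := ν) (n := n) (o := o)) (mem_univ v)
    rw [w3 _ m, u3 _ m, yA.2.2.2, funext a4, rA]
  have d4 : ∀ v, ξ₄ (tyD v) = pull (zz R) κ v := fun v => by
    have m := mem_map_of_mem (tyD (W := W) (h := h) (ν := ν) (n := n) (o := o)) (mem_univ v)
    rw [z3 _ m, v3 _ m, yB.2.2.2, funext b4, ← rj 1, pow_one X]
  let dg : Ty V W h ν n o → ℤ[X] := fun i => if i = .inl none then 1 - N₃ i i else
    1 - tg h c₀ tyPer (tyU 0) N₁ N₂ i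
  have du : ∀ i, i ≠ 0 → dg (tyU i) = 1 := fun i g => by
    have p1 := u4.src (tyU i) (by simp [tyU]) (by rw [mA]; simp [tyU]) (by simp [tyU, tyPer]) (tyU i)
    have p2 := v4.src (tyU i) (by simp [tyU, tyB]) (by rw [mB]; simp [tyU]) (by simp [tyU, tyPer]) (tyU i)
    simp only [dg, tg, p1, p2]
    simp [tyU, tyPer, g]
  have p1 : ∀ i, tyPer i ≠ 0 → dg i = 1 - X ^ tyPer i := fun i g => by
    simp only [dg, tg, if_pos g]
    exact if_neg fun q => g (by rw [q]; rfl)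
  obtain ⟨P₁, P₂, η₁, η₂, g1, g2, g3, g4, g5⟩ := glue (dg := dg) hN hD (hn _ (by omega)) h3 e1 qB qA eχ
    (c1.trans c3) s1 (half_pos c8) ε0 l0 (by omega) (by omega) (f3 G) (a1.trans (u1.trans w1))
    (b1.trans (v1.trans z1)) w4 z4
    (fun i => by
      simp only [dg]
      split_ifs with g
      · simp
      · simpa using (w7 i g).neg_right)
    (fun i g => by simpa [dg, g] using (z7 i g).neg_right) w6 z6 (du _ (by simp [Fin.ext_iff]))
    (du _ (by simp [Fin.ext_iff]))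
    (D := univ.map tyD) (by simp [mD]) (fun d g => ⟨w5 d g, z5 d g⟩)
    (fun g => by
      obtain ⟨y, rfl⟩ := qA.1 g
      refine ⟨Function.extend tyD y 0, fun i q => Function.extend_apply' _ _ _ (by simpa using q), ?_⟩
      refine (Fintype.sum_of_injective _ tyD.injective _ _ (fun i q => ?_) fun v => ?_).symm
      · rw [Function.extend_apply' _ _ _ q, Pi.zero_apply, zero_smul]
      · rw [tyD.injective.extend_apply, d4])
    (w2.trans (u2.trans (cz.trans (z2.trans v2).symm)))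
    (fun d g => by obtain ⟨v, -, rfl⟩ := mem_map.1 g; rw [d3, d4]) p1
    (by simp only [mD]; rintro _ (rfl | ⟨_, rfl⟩) <;> rfl)
  refine ⟨h, ν, _, _, _, P₁, P₂, η₁, η₂, dg, tyPer, tyU ⟨1, by omega⟩, tyU ⟨2, by omega⟩, g1, g2, g3, g4, p1, ?_,
    fun k a b _ => ct k a b, fun k _ a b => ⟨.inr (.inr (.inr (.inr (.inl ⟨k, by omega⟩)))),
      if_pos a⟩, by simp [tyU, Fin.ext_iff], du _ (by simp [Fin.ext_iff]),
    du _ (by simp [Fin.ext_iff]), h3, g5⟩
  rintro (_ | _ | _ | ⟨⟨k, _⟩, _⟩ | ⟨k, _⟩ | _) <;> simp only [tyPer]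
  any_goals omega
  split_ifs <;> omega

end Pool.Agent.MP_993212_an.H92
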