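import Pool.Agent.MP_993212_an.H16.Defs

/-! Honest and virtual polynomial systems with tracked classes: definitions. -/

namespace Pool.Agent.MP_993212_an.H92

open Matrix Polynomial H16

variable {G : Type} [AddCommGroup G] [Module ℤ[X] G]
variable {I J K V : Type}

/-- a polynomial matrix acting on a family of classes -/
noncomputable def act [Fintype J] (M : Matrix I J ℤ[X]) (ξ : J → G) : I → G :=
  fun i => ∑ j, M i j • ξ j

/-- a constant matrix as a polynomial matrix -/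
noncomputable def cc (B : Matrix I J ℤ) : Matrix I J ℤ[X] := B.map C

/-- the matrix of coefficients of degree `k` -/
def cf (k : ℕ) (N : Matrix I J ℤ[X]) : Matrix I J ℤ := N.map fun p => p.coeff k

/-- all entries are nonnegative -/
def N0 (B : Matrix I J ℤ) : Prop := ∀ i j, 0 ≤ B i j

/-- all coefficients are nonnegative -/
def NN (N : Matrix I J ℤ[X]) : Prop := ∀ i j k, 0 ≤ (N i j).coeff k

/-- a polynomial matrix as a matrix of power series -/
noncomputable def sr (N : Matrix I J ℤ[X]) : Matrix I J (PowerSeries ℤ) :=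
  N.map Polynomial.coeToPowerSeries.ringHom

/-- all coefficients are nonnegative -/
def NS (M : Matrix I J (PowerSeries ℤ)) : Prop := ∀ i j k, 0 ≤ PowerSeries.coeff k (M i j)

variable [Fintype I] [DecidableEq I] [Fintype J] [DecidableEq J] [Fintype V] [DecidableEq V]

/-- `(B, κ)` is reached from `(A, ι)` by a chain over `ℕ`, classes up to powers of `X` -/
def Rp (A : Matrix V V ℕ) (ι : V → G) (B : Matrix I I ℤ) (κ : I → G) : Prop :=
  ∃ (B' : Matrix I I ℕ) (T : Matrix V I ℕ) (a b : ℕ), zz B' = B ∧ Ch A B' T ∧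
    (X ^ a : ℤ[X]) • ι = (X ^ b : ℤ[X]) • act (cc (zz T)) κ

/-- coefficients placed in the rows of level zero -/
def r0 (d : ℕ) (F : Matrix I J ℤ[X]) : Matrix (I × Fin d) (J × Fin d) ℤ :=
  Matrix.of fun p q => if (p.2 : ℕ) = 0 then (F p.1 q.1).coeff q.2 else 0

/-- one step down the levels -/
def sh (I : Type) [DecidableEq I] (d : ℕ) : Matrix (I × Fin d) (I × Fin d) ℤ :=
  Matrix.of fun p q => if p.1 = q.1 ∧ (p.2 : ℕ) = q.2 + 1 then 1 else 0

/-- the classes of the levels -/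
noncomputable def lv (d : ℕ) (ξ : I → G) : I × Fin d → G := fun q => (X ^ (q.2 : ℕ) : ℤ[X]) • ξ q.1

/-- the honest system `(N, ξ)` is reached from `(A, ι)` -/
def Hon (A : Matrix V V ℕ) (ι : V → G) (N : Matrix I I ℤ[X]) (ξ : I → G) : Prop :=
  ∀ᶠ d in Filter.atTop, Rp A ι (r0 d (cc (1 - cf 0 N)⁻¹ * N.map divX) + sh I d) (lv d ξ)

/-- an honest system: nonnegative, no cycle of length zero, the rows are relations -/
structure Pos (N : Matrix I I ℤ[X]) (ξ : I → G) : Prop where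
  nn : NN N
  nz : IsNilpotent (cf 0 N)
  rel : act (1 - N) ξ = 0

/-- `1 - Q (1 - L)⁻¹ = P + T (1 - L)⁻¹` with `P`, `T` nonnegative -/
def Dec (Q L : Matrix I I ℤ[X]) : Prop :=
  ∃ P T, NN P ∧ NN T ∧ (1 - P) * (1 - L) - T = Q

/-- virtual positivity of `Q` relative to `L` -/
structure VP (Q L : Matrix I I ℤ[X]) : Prop where
  nn : NN L
  zero : cf 0 L = 0
  dec : Dec Q L
  nz : IsNilpotent (1 - cf 0 Q)

/-- the virtual system `(Q, L, ξ)` is reached from `(A, ι)` -/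
def Vir (A : Matrix V V ℕ) (ι : V → G) (Q L : Matrix I I ℤ[X]) (ξ : I → G) : Prop :=
  ∃ P T, NN P ∧ NN T ∧ (1 - P) * (1 - L) - T = Q ∧
    Hon A ι (fromBlocks P T 1 L) (Sum.elim (act (1 - L) ξ) ξ)

/-- equivalence of virtual systems -/
structure Eqv (Q L : Matrix I I ℤ[X]) (ξ : I → G) (Q' L' : Matrix J J ℤ[X]) (ξ' : J → G) :
    Prop where
  vp : VP Q L
  rel : act Q ξ = 0
  vp' : VP Q' L'
  rel' : act Q' ξ' = 0
  iff : ∀ (V : Type) [Fintype V] [DecidableEq V] (A : Matrix V V ℕ) (ι : V → G),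
    Vir A ι Q L ξ ↔ Vir A ι Q' L' ξ'
  det : Q.det = Q'.det
  pres : Pres Q ξ ↔ Pres Q' ξ'

/-- the Green function `(1 - L)⁻¹` -/
noncomputable def gs (L : Matrix I I ℤ[X]) : Matrix I I (PowerSeries ℤ) := (1 - sr L)⁻¹

/-- the matrix of power series `1 - Q (1 - L)⁻¹` -/
noncomputable def ms (Q L : Matrix I I ℤ[X]) : Matrix I I (PowerSeries ℤ) := 1 - sr Q * gs L

theorem Eqv.refl {Q L : Matrix I I ℤ[X]} {ξ : I → G} (h : VP Q L) (r : act Q ξ = 0) :
    Eqv Q L ξ Q L ξ := ⟨h, r, h, r, fun _ _ _ _ _ => Iff.rfl, rfl, Iff.rfl⟩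

theorem Eqv.symm {Q L : Matrix I I ℤ[X]} {ξ : I → G} {Q' L' : Matrix J J ℤ[X]} {ξ' : J → G}
    (h : Eqv Q L ξ Q' L' ξ') : Eqv Q' L' ξ' Q L ξ :=
  ⟨h.vp', h.rel', h.vp, h.rel, fun V _ _ A ι => (h.iff V A ι).symm, h.det.symm, h.pres.symm⟩

theorem Eqv.trans [Fintype K] [DecidableEq K] {Q L : Matrix I I ℤ[X]} {ξ : I → G}
    {Q' L' : Matrix J J ℤ[X]} {ξ' : J → G} {Q'' L'' : Matrix K K ℤ[X]} {ξ'' : K → G}
    (h : Eqv Q L ξ Q' L' ξ') (g : Eqv Q' L' ξ' Q'' L'' ξ'') : Eqv Q L ξ Q'' L'' ξ'' :=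
  ⟨h.vp, h.rel, g.vp', g.rel', fun V _ _ A ι => (h.iff V A ι).trans (g.iff V A ι),
    h.det.trans g.det, h.pres.trans g.pres⟩

/-- the moves: block row move and block column move with signed coefficients, removal of sources
together with reindexing, change of `L`, delay, the criterion by power series, the linear model
and the conclusion -/
structure Moves : Prop where
  row : ∀ (G I : Type) [AddCommGroup G] [Module ℤ[X] G] [Fintype I] [DecidableEq I]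
    (Q L B : Matrix I I ℤ[X]) (ξ : I → G) (S : I → Prop), VP Q L → act Q ξ = 0 →
    (∀ a b, B a b ≠ 0 → S a ∧ ¬S b) → VP ((1 + B) * Q) L → Eqv Q L ξ ((1 + B) * Q) L ξ
  col : ∀ (G I : Type) [AddCommGroup G] [Module ℤ[X] G] [Fintype I] [DecidableEq I]
    (Q L B P : Matrix I I ℤ[X]) (ξ : I → G) (S : I → Prop), VP Q L → act Q ξ = 0 →
    (∀ a b, B a b ≠ 0 → ¬S a ∧ S b) → NN P → NN ((1 - P) * (1 - L) - Q) →
    NN ((1 - P) * (1 - L) - Q * (1 + B)) → IsNilpotent (1 - cf 0 (Q * (1 + B))) →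
    Eqv Q L ξ (Q * (1 + B)) L (act (1 - B) ξ)
  sub : ∀ (G I J : Type) [AddCommGroup G] [Module ℤ[X] G] [Fintype I] [DecidableEq I] [Fintype J]
    [DecidableEq J] (Q L : Matrix I I ℤ[X]) (ξ : I → G) (e : J → I), Function.Injective e →
    VP Q L → act Q ξ = 0 → (∀ a b, b ∉ Set.range e → Q a b = (1 : Matrix I I ℤ[X]) a b ∧ L a b = 0) →
    Eqv Q L ξ (Q.submatrix e e) (L.submatrix e e) (ξ ∘ e)
  ll : ∀ (G I : Type) [AddCommGroup G] [Module ℤ[X] G] [Fintype I] [DecidableEq I]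
    (Q L Z : Matrix I I ℤ[X]) (ξ : I → G), VP Q L → act Q ξ = 0 → NN Z → cf 0 Z = 0 →
    Dec (Q + Z) L → Eqv Q L ξ Q (L + Z) ξ
  ll2 : ∀ (G I : Type) [AddCommGroup G] [Module ℤ[X] G] [Fintype I] [DecidableEq I]
    (Q L L' P : Matrix I I ℤ[X]) (ξ : I → G), VP Q L → act Q ξ = 0 → NN L' → cf 0 L' = 0 → NN P →
    NN ((1 - P) * (1 - L) - Q) → NN ((1 - P) * (1 - L') - Q) → Eqv Q L ξ Q L' ξ
  dly : ∀ (G I : Type) [AddCommGroup G] [Module ℤ[X] G] [Fintype I] [DecidableEq I]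
    (Q Q' : Matrix I I ℤ[X]) (ξ : I → G) (δ : I → ℕ), NN (1 - Q) → cf 0 Q = 1 → cf 0 Q' = 1 →
    act Q ξ = 0 → (∀ i j, Q' i j * X ^ δ j = X ^ δ i * Q i j) →
    Eqv Q 0 ξ Q' 0 fun i => (X ^ δ i : ℤ[X]) • ξ i
  ser : ∀ (I : Type) [Fintype I] [DecidableEq I] (Q L : Matrix I I ℤ[X]), NN L → cf 0 L = 0 →
    (1 - sr L) * gs L = 1 ∧ gs L * (1 - sr L) = 1 ∧ NS (gs L) ∧ (Dec Q L ↔ NS (ms Q L))
  out : ∀ (G V I : Type) [AddCommGroup G] [Module ℤ[X] G] [Fintype V] [DecidableEq V] [Fintype I]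
    [DecidableEq I] (A : Matrix V V ℕ) (ι : V → G) (Q : Matrix I I ℤ[X]) (ξ : I → G),
    Eqv (pen (zz A)) 0 ι Q 0 ξ → cf 0 Q = 1 → ∀ᶠ d in Filter.atTop,
      Rp A ι (lin d (1 - Q)) (lv d ξ)
  fin : ∀ (G V W : Type) [AddCommGroup G] [Module ℤ[X] G] [Fintype V] [DecidableEq V] [Fintype W]
    [DecidableEq W] (A : Matrix V V ℕ) (B : Matrix W W ℕ) (R : Matrix V W ℤ) (κ : W → G),
    zz A * R = R * zz B → Pres (pen (zz B)) κ →
    Eqv (pen (zz A)) 0 (pull R κ) (pen (zz B)) 0 κ → Real A B R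

end Pool.Agent.MP_993212_an.H92
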