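import Pool.Agent.MP_993212_an.H92.PBase

/-! Moves of degree zero and one and removal of sources for honest systems. -/

set_option linter.unusedSectionVars false

namespace Pool.Agent.MP_993212_an.H92

open Matrix Polynomial H16 Filter

variable {G : Type} [AddCommGroup G] [Module ℤ[X] G]
variable {I J K V : Type} [Fintype I] [DecidableEq I] [Fintype J] [DecidableEq J] [Fintype V]
  [DecidableEq V] {d : ℕ}

/-- all degrees are below `d` -/
def Lt (d : ℕ) (F : Matrix I J ℤ[X]) : Prop := ∀ i j, (F i j).natDegree < d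

theorem ev_lt (F : Matrix I J ℤ[X]) : ∀ᶠ d in atTop, Lt d F :=
  eventually_all.2 fun _ => eventually_all.2 fun _ => eventually_gt_atTop _

theorem r0_add (F F' : Matrix I J ℤ[X]) : r0 d (F + F') = r0 d F + r0 d F' := by
  ext p q; simp only [r0, of_apply, Matrix.add_apply, coeff_add]; split_ifs <;> simp

theorem r0_sub (F F' : Matrix I J ℤ[X]) : r0 d (F - F') = r0 d F - r0 d F' := by
  ext p q; simp only [r0, of_apply, Matrix.sub_apply, coeff_sub]; split_ifs <;> simp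

@[simp] theorem r0_zero : r0 d (0 : Matrix I J ℤ[X]) = 0 := by ext p q; simp [r0]

theorem NN.r0 {F : Matrix I J ℤ[X]} (h : NN F) : N0 (r0 d F) := fun p q => by
  simp only [H92.r0, of_apply]; split_ifs; exacts [h _ _ _, le_rfl]

theorem sh_nn : N0 (sh I d) := fun p q => by simp only [sh, of_apply]; split_ifs <;> simp

theorem r0_mul (F : Matrix I J ℤ[X]) (F' : Matrix J K ℤ[X]) :
    r0 d F * r0 d F' = r0 d (cc (cf 0 F) * F') := by
  ext ⟨i, a⟩ ⟨k, b⟩
  simp only [r0, of_apply, mul_apply, Fintype.sum_prod_type, cc, cf, map_apply, finset_sum_coeff,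
    coeff_C_mul]
  split_ifs with h
  · refine Finset.sum_congr rfl fun j _ => ?_
    rw [Finset.sum_eq_single a (fun c _ g => by rw [if_neg fun q => g (Fin.ext (q.trans h.symm)),
      mul_zero]) (by simp), if_pos h, h]
  · simp

theorem r0_sh {F : Matrix I J ℤ[X]} (h : Lt d F) : r0 d F * sh J d = r0 d (F.map divX) := by
  ext ⟨i, a⟩ ⟨k, b⟩
  simp only [r0, sh, of_apply, mul_apply, Fintype.sum_prod_type, map_apply, coeff_divX]
  split_ifs with g
  · rw [Finset.sum_eq_single k (fun j _ q => by simp [q]) (by simp)]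
    by_cases q : (b : ℕ) + 1 < d
    · rw [Finset.sum_eq_single ⟨b + 1, q⟩ (fun c _ q => by simp [Fin.ext_iff] at q; simp [q])
        (by simp)]
      simp
    · rw [coeff_eq_zero_of_natDegree_lt (by have := h i k; omega)]
      exact Finset.sum_eq_zero fun c _ => by rw [if_neg (by have := c.2; omega), mul_zero]
  · simp

theorem act_r0 {F : Matrix I J ℤ[X]} (h : Lt d F) (ξ : J → G) (p : I × Fin d) :
    act (cc (r0 d F)) (lv d ξ) p = if (p.2 : ℕ) = 0 then act F ξ p.1 else 0 := by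
  simp only [act, cc, r0, lv, map_apply, of_apply, Fintype.sum_prod_type]
  split_ifs with g
  · refine Finset.sum_congr rfl fun j _ => ?_
    simp only [smul_smul, ← Finset.sum_smul]
    rw [Fin.sum_univ_eq_sum_range (fun c => C ((F p.1 j).coeff c) * X ^ c),
      ← as_sum_range_C_mul_X_pow' _ (h p.1 j)]
  · simp

theorem act_sh (ξ : I → G) (p : I × Fin d) : (X : ℤ[X]) • act (cc (sh I d)) (lv d ξ) p =
    if (p.2 : ℕ) = 0 then 0 else lv d ξ p := by
  obtain ⟨i, a⟩ := p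
  simp only [act, cc, sh, lv, map_apply, of_apply, Fintype.sum_prod_type, apply_ite C, map_one,
    map_zero, ite_smul, one_smul, zero_smul]
  rw [Finset.sum_eq_single i (fun j _ q => by simp [q.symm]) (by simp)]
  split_ifs with g
  · simp [g]
  · rw [Finset.sum_eq_single ⟨a - 1, by omega⟩ (fun c _ q => by
      rw [if_neg fun r => q (Fin.ext (by simp only; omega))]) (by simp), if_pos ⟨rfl, by simp only; omega⟩,
      smul_smul, ← pow_succ']
    congr 2; simp only; omega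

theorem rel_lin {F : Matrix I I ℤ[X]} {ξ : I → G} (h : Lt d F) (r : ξ = (X : ℤ[X]) • act F ξ) :
    lv d ξ = (X : ℤ[X]) • act (cc (r0 d F + sh I d)) (lv d ξ) := by
  funext p
  rw [cc_add, act_add, Pi.smul_apply, Pi.add_apply, smul_add, act_sh, act_r0 h]
  split_ifs with g
  · simpa [lv, g] using congrFun r p.1
  · simp

variable {A : Matrix V V ℕ} {ι : V → G} {N N' : Matrix I I ℤ[X]} {ξ : I → G}

theorem Pos.inv (h : Pos N ξ) : N0 (1 - cf 0 N)⁻¹ ∧ (1 - cf 0 N) * (1 - cf 0 N)⁻¹ = 1 ∧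
    (1 - cf 0 N)⁻¹ * (1 - cf 0 N) = 1 := exists_inv (h.nn.cf 0) h.nz

theorem red_eq {Z : Matrix I I ℤ} (e : Z * (1 - cf 0 N) = 1) :
    (X : ℤ[X]) • (cc Z * N.map divX) = 1 - cc Z * (1 - N) := by
  nth_rewrite 2 [← split_X N]
  rw [← sub_sub, Matrix.mul_sub, ← cc_one, ← cc_sub, ← cc_mul, e, Matrix.mul_smul]
  simp

theorem Pos.red (h : Pos N ξ) : ξ = (X : ℤ[X]) • act (cc (1 - cf 0 N)⁻¹ * N.map divX) ξ := by
  rw [← act_smul, red_eq h.inv.2.2, act_sub, act_mul, h.rel]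
  simp

theorem X_smul_inj {F F' : Matrix I J ℤ[X]} (h : (X : ℤ[X]) • F = (X : ℤ[X]) • F') : F = F' := by
  rw [← divX_X_smul F, h, divX_X_smul]

theorem hon_left (h : Pos N ξ) (h' : Pos N' ξ) {E : Matrix I I ℤ} (e : 1 - N' = cc E * (1 - N)) :
    Hon A ι N ξ ↔ Hon A ι N' ξ := by
  have e0 : 1 - cf 0 N' = E * (1 - cf 0 N) := by
    simpa [cf_sub, cf_mul] using congrArg (cf 0) e
  have e1 : (1 - cf 0 N')⁻¹ * E = (1 - cf 0 N)⁻¹ :=
    (Matrix.inv_eq_left_inv (by rw [Matrix.mul_assoc, ← e0, h'.inv.2.2])).symm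
  have : cc (1 - cf 0 N)⁻¹ * N.map divX = cc (1 - cf 0 N')⁻¹ * N'.map divX := X_smul_inj (by
    rw [red_eq h.inv.2.2, red_eq h'.inv.2.2, e, ← Matrix.mul_assoc, ← cc_mul, e1])
  rw [Hon, Hon, this]

theorem hon_one {Y Γ : Matrix I I ℤ} (hN : NN N) (hY : N0 Y) (hΓ : N0 Γ) (g1 : Γ * Y = Y)
    (g2 : Y * Γ = 0) (h : Pos (N + (X : ℤ[X]) • cc Y) ξ)
    (h' : Pos (N + (X : ℤ[X]) • (cc Y * N)) ξ) :
    Hon A ι (N + (X : ℤ[X]) • cc Y) ξ ↔ Hon A ι (N + (X : ℤ[X]) • (cc Y * N)) ξ := by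
  obtain ⟨z0, z1, z2⟩ := h.inv
  simp only [Hon, cf_add, cf_X_smul, add_zero, divX_add', divX_X_smul] at z0 z1 z2 ⊢
  generalize (1 - cf 0 N)⁻¹ = Z at *
  have z3 : 1 + Z * cf 0 N = Z := by rw [← z2]; noncomm_ring
  refine eventually_congr ?_
  filter_upwards [ev_lt N, ev_lt (cc Z * N), ev_lt (cc Y), ev_lt (cc Y * N), ev_lt (cc (1 - Γ))]
    with d l1 l2 l3 l4 l5
  let D := 1 - r0 d (cc (1 - Γ))
  have d0 : N0 D := by
    rintro ⟨i, a⟩ ⟨j, b⟩
    simp only [D, Matrix.sub_apply, r0, of_apply, cc, map_apply, coeff_C, one_apply, Prod.mk.injEq]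
    have := hΓ i j
    have : a = b ↔ (a : ℕ) = b := Fin.ext_iff
    split_ifs <;> first | omega | simp_all
  have r0' : N0 ((1 + r0 d (cc Z * N)) * D) := (N0.one.add (z0.cc.mul hN).r0).mul d0
  have a1 : ∀ F, cc Γ * F = F → D * (r0 d F + sh I d) = r0 d F + sh I d := fun F e => by
    rw [Matrix.sub_mul, Matrix.one_mul, Matrix.mul_add, r0_mul, r0_sh l5, cf_cc, divX_cc, cc_sub,
      cc_one, Matrix.sub_mul, Matrix.one_mul, e, sub_self, r0_zero, add_zero, sub_zero]
  have a2 : ∀ F, cc Γ * F = F → (1 + r0 d (cc Z * N)) * D * (r0 d F + sh I d) =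
      r0 d (cc Z * (N.map divX + F)) + sh I d := fun F e => by
    rw [Matrix.mul_assoc, a1 F e, Matrix.add_mul, Matrix.one_mul, Matrix.mul_add, r0_mul,
      r0_sh l2, divX_cc_mul, cf_cc_mul, Matrix.mul_add, r0_add]
    nth_rewrite 4 [← z3]
    rw [cc_add, cc_one, Matrix.add_mul, Matrix.one_mul, r0_add]
    abel
  have b1 : cc Γ * cc Y = cc Y := by rw [← cc_mul, g1]
  have b2 : cc Γ * (cc Y * N) = cc Y * N := by rw [← Matrix.mul_assoc, b1]
  have c0 : (1 - r0 d N) * (1 + r0 d (cc Z * N)) = 1 := by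
    rw [Matrix.mul_add, Matrix.mul_one, Matrix.sub_mul, Matrix.one_mul, r0_mul, ← r0_sub,
      ← Matrix.mul_assoc, ← cc_mul, ← Matrix.sub_mul, ← cc_sub,
      show Z - cf 0 N * Z = 1 by rw [← z1]; noncomm_ring, cc_one, Matrix.one_mul, sub_add_cancel]
  have c1 : ∀ F, Lt d F → act (1 - (N + (X : ℤ[X]) • F)) ξ = 0 → act (cc (1 - r0 d N)) (lv d ξ) =
      (X : ℤ[X]) • act (cc (r0 d F + sh I d)) (lv d ξ) := fun F l r => by
    funext p
    rw [cc_add, act_add, Pi.smul_apply, Pi.add_apply, smul_add, act_sh, act_r0 l, cc_sub, act_sub,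
      cc_one, act_one, Pi.sub_apply, act_r0 l1]
    rw [act_sub, act_add, act_smul, act_one, sub_eq_zero] at r
    split_ifs with g
    · simpa [lv, g, sub_eq_iff_eq_add'] using congrFun r p.1
    · simp
  have c2 : act (cc ((1 + r0 d (cc Z * N)) * D)) (act (cc (1 - r0 d N)) (lv d ξ)) = lv d ξ := by
    rw [cc_mul, act_mul, c1 _ l3 h.rel, act_smul', ← act_mul, ← cc_mul, a1 _ b1,
      ← c1 _ l3 h.rel, ← act_mul, ← cc_mul, mul_eq_one_comm.1 c0, cc_one, act_one]
  have s1 := rp_step (A := A) (ι := ι) r0' (hY.cc.r0.add sh_nn) (by rw [c2]; exact c1 _ l3 h.rel)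
  have s2 := rp_step (A := A) (ι := ι) r0' ((hY.cc.mul hN).r0.add sh_nn)
    (by rw [c2]; exact c1 _ l4 h'.rel)
  rw [c2, a2 _ b1] at s1
  rw [c2, a2 _ b2] at s2
  rw [s1, s2]
  have : (r0 d (cc Y) - r0 d (cc Y * N)) * ((1 + r0 d (cc Z * N)) * D) = 0 := by
    rw [show r0 d (cc Y * N) = r0 d (cc Y) * r0 d N by rw [r0_mul, cf_cc], ← mul_one_sub,
      Matrix.mul_assoc, ← Matrix.mul_assoc _ _ D, c0, Matrix.one_mul, mul_one_sub, r0_mul, cf_cc,
      ← cc_mul, mul_one_sub, g2, sub_zero, sub_self]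
  rw [Matrix.sub_mul, sub_eq_zero] at this
  rw [Matrix.add_mul (r0 d (cc Y)), Matrix.add_mul (r0 d (cc Y * N)), this]

theorem mul_sub' {α L : Type} [NonUnitalNonAssocSemiring α] (e : J → I) (he : Function.Injective e)
    (M : Matrix K I α) (M' : Matrix I L α) {K' L' : Type} (f' : K' → K)
    (g' : L' → L) (h : ∀ k v, v ∉ Set.range e → M (f' k) v = 0) :
    (M * M').submatrix f' g' = M.submatrix f' e * M'.submatrix e g' := by
  ext k l
  simp only [submatrix_apply, mul_apply]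
  exact (Fintype.sum_of_injective e he _ _ (fun v hv => by rw [h k v hv, zero_mul])
    fun _ => rfl).symm

theorem Pos.sub (h : Pos N ξ) {e : J → I} (he : Function.Injective e)
    (hc : ∀ u v, v ∉ Set.range e → N u v = 0) : Pos (N.submatrix e e) (ξ ∘ e) := by
  refine ⟨h.nn.sub _ _, ?_, funext fun j => ?_⟩
  · obtain ⟨n, hn⟩ := h.nz
    have : ∀ k, (cf 0 (N.submatrix e e)) ^ (k + 1) = (cf 0 N ^ (k + 1)).submatrix e e := fun k => by
      induction k with
      | zero => simp; rfl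
      | succ k ih =>
        rw [pow_succ', ih, pow_succ' _ (k + 1), mul_sub' e he _ _ e e fun k v hv => by
          simp [cf, hc _ v hv]]
        rfl
    exact ⟨n + 1, by rw [this, pow_succ, hn]; simp⟩
  · have := congrFun h.rel (e j)
    rw [act_sub, act_one, Pi.sub_apply] at this ⊢
    refine Eq.trans ?_ this
    congr 1
    exact Fintype.sum_of_injective e he _ _ (fun v hv => by rw [hc _ v hv, zero_smul]) fun _ => rfl

theorem hon_sub (h : Pos N ξ) {e : J → I} (he : Function.Injective e)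
    (hc : ∀ u v, v ∉ Set.range e → N u v = 0) :
    Hon A ι N ξ ↔ Hon A ι (N.submatrix e e) (ξ ∘ e) := by
  obtain ⟨z0, z1, z2⟩ := h.inv
  have r := h.red
  have z3 : (1 - cf 0 N)⁻¹ = 1 + (1 - cf 0 N)⁻¹ * cf 0 N := by
    nth_rewrite 2 [← z2]; noncomm_ring
  have z4 : ∀ j v, v ∉ Set.range e → (1 - cf 0 N)⁻¹ (e j) v = 0 := fun j v hv => by
    rw [z3, Matrix.add_apply, one_apply_ne fun q => hv ⟨j, q⟩]
    simp [mul_apply, cf, hc _ v hv]
  have z5 : (1 - cf 0 (N.submatrix e e))⁻¹ = ((1 - cf 0 N)⁻¹).submatrix e e := by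
    refine Matrix.inv_eq_left_inv ?_
    have := mul_sub' e he _ (1 - cf 0 N) e e z4
    rw [z2, submatrix_one e he] at this
    refine Eq.trans ?_ this.symm
    rw [← submatrix_one e he]
    rfl
  have z6 : cc (1 - cf 0 (N.submatrix e e))⁻¹ * (N.submatrix e e).map divX =
      (cc (1 - cf 0 N)⁻¹ * N.map divX).submatrix e e := by
    rw [z5, mul_sub' e he _ _ e e fun j v hv => by simp [cc, z4 j v hv]]
    rfl
  have f0 := z0.cc.mul h.nn.divX
  have f1 : ∀ u v, v ∉ Set.range e → 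
      (cc (1 - cf 0 N)⁻¹ * N.map divX : Matrix I I ℤ[X]) u v = 0 := fun u v hv => by
    simp [mul_apply, hc _ v hv]
  rw [Hon, Hon, z6]
  generalize cc (1 - cf 0 N)⁻¹ * N.map divX = F at *
  refine eventually_congr ((ev_lt F).mono fun d l => ?_)
  have m : ∀ p : I × Fin d, p ∈ Set.range (Prod.map e id) ↔ p.1 ∈ Set.range e := fun p =>
    ⟨fun ⟨q, g⟩ => ⟨q.1, congrArg Prod.fst g⟩, fun ⟨j, g⟩ => ⟨(j, p.2), Prod.ext g rfl⟩⟩
  rw [rp_cut (f0.r0.add sh_nn) (rel_lin l r) (Prod.map e id) (he.prodMap Function.injective_id)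
    (fun p => d - p.2) fun p q g hq => ?_]
  · congr! 1
    ext p q
    simp [r0, sh, he.eq_iff]
  · rw [m] at hq ⊢
    simp only [Matrix.add_apply, r0, sh, of_apply, f1 _ _ hq, coeff_zero, ite_self, zero_add, ne_eq,
      ite_eq_right_iff, one_ne_zero, imp_false, not_not] at g
    have := p.2.2
    exact ⟨g.1 ▸ hq, by omega⟩

theorem hon_pen {B : Matrix I I ℤ} (hB : N0 B) (r : ξ = (X : ℤ[X]) • act (cc B) ξ) :
    Hon A ι ((X : ℤ[X]) • cc B) ξ ↔ Rp A ι B ξ := by
  simp only [Hon, cf_X_smul, sub_zero, inv_one, cc_one, Matrix.one_mul, divX_X_smul]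
  rw [← eventually_const (f := (atTop : Filter ℕ)) (p := Rp A ι B ξ)]
  refine eventually_congr ?_
  filter_upwards [ev_lt (cc B), eventually_gt_atTop 0] with d l hd
  rw [rp_cut (hB.cc.r0.add sh_nn) (rel_lin l r) (fun v => (v, ⟨0, hd⟩))
    (fun _ _ g => congrArg Prod.fst g) (fun p => d - p.2) fun p q g hq => ?_]
  · congr! 1
    · ext p q; simp [r0, sh, cc]
    · funext v; simp [lv]
  · have h1 : (q.2 : ℕ) ≠ 0 := fun g => hq ⟨q.1, Prod.ext rfl (Fin.ext g.symm)⟩
    simp only [Matrix.add_apply, r0, sh, of_apply, cc, map_apply, coeff_C, h1, if_false, ite_self,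
      zero_add, ne_eq, ite_eq_right_iff, one_ne_zero, imp_false, not_not] at g
    have := p.2.2
    refine ⟨?_, by omega⟩
    rintro ⟨v, rfl⟩
    simp at g

theorem hon_lin (h0 : cf 0 N = 0) :
    Hon A ι N ξ ↔ ∀ᶠ d in atTop, Rp A ι (lin d N) (lv d ξ) := by
  simp only [Hon, h0, sub_zero, inv_one, cc_one, Matrix.one_mul]
  congr! 3 with d
  ext p q
  simp only [lin, r0, sh, of_apply, Matrix.add_apply, map_apply, coeff_divX]
  split_ifs <;> first | omega | simp

end Pool.Agent.MP_993212_an.H92
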