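import Pool.Agent.MP_993212_an.H92.PVir

/-! All moves of virtual systems are realised by chains. -/

set_option linter.unusedSectionVars false

namespace Pool.Agent.MP_993212_an.H92

open Matrix Polynomial H16 Filter

variable {G : Type} [AddCommGroup G] [Module ℤ[X] G]
variable {I J K V : Type} [Fintype I] [DecidableEq I] [Fintype J] [DecidableEq J] [Fintype V]
  [DecidableEq V] {N Q L : Matrix I I ℤ[X]} {ξ : I → G}

theorem eqv_dly (n : ℕ) : ∀ (N N' : Matrix I I ℤ[X]) (ξ : I → G) (δ : I → ℕ), (∀ i, δ i ≤ n) →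
    NN N → cf 0 N = 0 → cf 0 N' = 0 → act N ξ = ξ → (∀ i j, N' i j * X ^ δ j = X ^ δ i * N i j) →
    Eqv (1 - N) 0 ξ (1 - N') 0 fun i => (X ^ δ i : ℤ[X]) • ξ i := by
  induction n with
  | zero =>
    intro N N' ξ δ d a b _ r e
    obtain rfl : δ = fun _ => 0 := funext fun i => Nat.le_zero.1 (d i)
    obtain rfl : N' = N := Matrix.ext fun i j => by simpa using e i j
    have p : Pos N' ξ := .mk' a (b ▸ IsNilpotent.zero) r
    simpa using Eqv.refl p.vp p.rel
  | succ n ih =>
    intro N N' ξ δ d a b b' r e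
    let c : I → ℤ[X] := fun i => if δ i = 0 then 1 else X
    let R : Matrix I I ℤ[X] := Matrix.of fun i j => if δ j = 0 then N i j else divX (N i j)
    have c1 : ∀ i, (X : ℤ[X]) ^ δ i = X ^ (δ i - 1) * c i := fun i => by
      simp only [c]; split_ifs with g
      · simp [g]
      · rw [← pow_succ]; congr 1; omega
    have c0 : ∀ i, c i ≠ 0 := fun i => by simp only [c]; split_ifs <;> simp
    have e1 : ∀ i j, R i j * c j = N i j := fun i j => by
      simp only [R, c, of_apply]; split_ifs
      · simp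
      · simpa [show (N i j).coeff 0 = 0 from congrFun (congrFun b i) j] using divX_mul_X_add (N i j)
    have e2 : R * diagonal c = N := Matrix.ext fun i j => by rw [mul_diagonal, e1]
    have hR : NN R := fun i j k => by
      simp only [R, of_apply]; split_ifs
      exacts [a i j k, a.divX i j k]
    have hD : NN (diagonal c) := fun i j k => by
      simp only [c, diagonal_apply]; split_ifs
      · rw [coeff_one]; split_ifs <;> simp
      · rw [coeff_X]; split_ifs <;> simp
      · simp
    have e3 : act R (act (diagonal c) ξ) = ξ := by rw [← act_mul, e2, r]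
    have q := eqv_gen hR hD (by rw [e2, b]; exact IsNilpotent.zero)
      (κ := act (diagonal c) ξ) (by rw [e3])
    rw [e2, e3] at q
    have e4 : ∀ i j, N' i j * X ^ (δ j - 1) = X ^ (δ i - 1) * (diagonal c * R) i j := fun i j =>
      mul_right_cancel₀ (c0 j) (by
        rw [mul_assoc, ← c1, e, diagonal_mul, c1, mul_assoc, mul_assoc, mul_assoc, e1])
    have := ih (diagonal c * R) N' (act (diagonal c) ξ) (fun i => δ i - 1)
      (fun i => by have := d i; omega) (hD.mul hR) (Matrix.ext fun i j => ?_) b'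
      (by rw [act_mul, e3]) e4
    · convert q.trans this using 2 with i
      simp [act, diagonal_apply, ite_smul, smul_smul, ← c1]
    · have h := congrArg (fun p => p.coeff 0) (e4 i j)
      have h0 : (N' i j).coeff 0 = 0 := congrFun (congrFun b' i) j
      by_cases g : δ i = 0
      · simpa [g, h0, cf] using h.symm
      · simp [cf, c, g]

theorem sr_mul (A : Matrix I J ℤ[X]) (B : Matrix J K ℤ[X]) : sr (A * B) = sr A * sr B :=
  Matrix.map_mul

theorem sr_sub (A B : Matrix I J ℤ[X]) : sr (A - B) = sr A - sr B := by ext; simp [sr]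

theorem sr_one : sr (1 : Matrix I I ℤ[X]) = 1 := Matrix.map_one _ (map_zero _) (map_one _)

theorem coeff_sr (A : Matrix I J ℤ[X]) (i : I) (j : J) (k : ℕ) :
    PowerSeries.coeff k (sr A i j) = (A i j).coeff k := by simp [sr]

theorem NN.sr {A : Matrix I J ℤ[X]} (h : NN A) : NS (sr A) := fun i j k => by
  rw [coeff_sr]; exact h i j k

theorem NS.add {A B : Matrix I J (PowerSeries ℤ)} (h : NS A) (g : NS B) : NS (A + B) :=
  fun i j k => by simpa using add_nonneg (h i j k) (g i j k)

theorem NS.mul {A : Matrix I J (PowerSeries ℤ)} {B : Matrix J K (PowerSeries ℤ)} (h : NS A)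
    (g : NS B) : NS (A * B) := fun i k n => by
  rw [mul_apply, map_sum]
  exact Finset.sum_nonneg fun j _ => by
    rw [PowerSeries.coeff_mul]; exact Finset.sum_nonneg fun p _ => mul_nonneg (h _ _ _) (g _ _ _)

theorem gs_inv (b : cf 0 L = 0) : (1 - sr L) * gs L = 1 ∧ gs L * (1 - sr L) = 1 := by
  have : IsUnit (1 - sr L).det := by
    rw [PowerSeries.isUnit_iff_constantCoeff, RingHom.map_det, map_sub, map_one,
      show (PowerSeries.constantCoeff (R := ℤ)).mapMatrix (sr L) = cf 0 L by ext; simp [sr, cf], b]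
    simp
  exact ⟨mul_nonsing_inv _ this, nonsing_inv_mul _ this⟩

theorem gs_nn (a : NN L) (b : cf 0 L = 0) : NS (gs L) := by
  have e : gs L = 1 + sr L * gs L := by linear_combination (norm := noncomm_ring) (gs_inv b).1
  intro i j k
  induction k using Nat.strong_induction_on generalizing i with
  | _ k ih =>
    rw [e, Matrix.add_apply, map_add, mul_apply, map_sum]
    refine add_nonneg (sr_one (I := I) ▸ NN.one.sr i j k) (Finset.sum_nonneg fun u _ => ?_)
    rw [PowerSeries.coeff_mul]
    refine Finset.sum_nonneg fun p hp => ?_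
    have := Finset.HasAntidiagonal.mem_antidiagonal.1 hp
    by_cases g : p.1 = 0
    · rw [g, coeff_sr, show (L i u).coeff 0 = 0 from congrFun (congrFun b i) u, zero_mul]
    · exact mul_nonneg (a.sr _ _ _) (ih _ (by omega) u)

theorem dec_iff (a : NN L) (b : cf 0 L = 0) : Dec Q L ↔ NS (ms Q L) := by
  obtain ⟨z1, z2⟩ := gs_inv b
  constructor
  · rintro ⟨P, T, hP, hT, rfl⟩
    rw [ms, sr_sub, sr_mul, sr_sub, sr_sub, sr_one, Matrix.sub_mul, Matrix.mul_assoc, z1]
    convert hP.sr.add (hT.sr.mul (gs_nn a b)) using 1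
    noncomm_ring
  · intro h
    obtain ⟨D, hD⟩ := ev_cf (1 - L - Q)
    let P : Matrix I I ℤ[X] := (ms Q L).map (PowerSeries.trunc D)
    have p1 : ∀ i j k, (P i j).coeff k = if k < D then PowerSeries.coeff k (ms Q L i j) else 0 :=
      fun i j k => PowerSeries.coeff_trunc _ _ _
    have hP : NN P := fun i j k => by rw [p1]; split_ifs; exacts [h i j k, le_rfl]
    refine ⟨P, _, hP, fun i j k => ?_, sub_sub_cancel _ _⟩
    by_cases g : k < D
    · have e : sr ((1 - P) * (1 - L) - Q) = (ms Q L - sr P) * (1 - sr L) := by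
        rw [ms, sr_sub, sr_mul, sr_sub, sr_sub, sr_one]
        linear_combination (norm := noncomm_ring) sr Q * z2
      rw [← coeff_sr, e, mul_apply, map_sum]
      refine (Finset.sum_eq_zero fun u _ => ?_).ge
      rw [PowerSeries.coeff_mul]
      refine Finset.sum_eq_zero fun p hp => ?_
      have := Finset.HasAntidiagonal.mem_antidiagonal.1 hp
      rw [Matrix.sub_apply, map_sub, coeff_sr, p1, if_pos (by omega), sub_self, zero_mul]
    · have h1 : ((1 - L - Q) i j).coeff k = 0 := congrFun (congrFun (hD k (by omega)) i) j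
      rw [show (1 - P) * (1 - L) - Q = 1 - L - Q - P + P * L by noncomm_ring, Matrix.add_apply,
        Matrix.sub_apply, coeff_add, coeff_sub, h1, p1, if_neg g]
      simpa using hP.mul a i j k

theorem vir_self (A : Matrix V V ℕ) {ι : V → G} (r : act (pen (zz A)) ι = 0) :
    Vir A ι (pen (zz A)) 0 ι := by
  have n : N0 (zz A) := fun i j => Int.natCast_nonneg _
  have p : Pos ((X : ℤ[X]) • cc (zz A)) ι := ⟨n.cc.X_smul, by simp, r⟩
  exact (vir_hon p).2 ((hon_pen n (by rw [← act_smul, p.fix])).2
    ⟨A, 1, 0, 0, rfl, .refl, by simp [zz_one]⟩)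

theorem real_of_rp {A : Matrix V V ℕ} {B : Matrix J J ℕ} {R : Matrix V J ℤ} {κ : J → G}
    (e : zz A * R = R * zz B) (p : Pres (pen (zz B)) κ) (h : Rp A (pull R κ) (zz B) κ) :
    Real A B R := by
  obtain ⟨B', T, a, b, e', c, h⟩ := h
  obtain rfl := zz_inj e'
  have h1 : act ((X ^ a : ℤ[X]) • cc R - (X ^ b : ℤ[X]) • cc (zz T)) κ = 0 := by
    rw [act_sub, act_smul, act_smul, ← h]; exact sub_self _
  choose Z hZ using fun v => (p.2 _).1 (congrFun h1 v)
  have h2 : (X ^ a : ℤ[X]) • cc R - (X ^ b : ℤ[X]) • cc (zz T) =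
      Matrix.of Z - (X ^ 1 : ℤ[X]) • (Matrix.of Z * cc (zz B')) := by
    rw [← Matrix.mul_smul, pow_one]
    nth_rewrite 1 [← Matrix.mul_one (Matrix.of Z)]
    rw [← Matrix.mul_sub]
    exact Matrix.ext fun v => congrFun (hZ v)
  have c1 : ∀ (k : ℕ) (M : Matrix V J ℤ), cf k (cc M) = if k = 0 then M else 0 := fun k M => by
    ext; simp only [cf, cc, map_apply, coeff_C]; split_ifs <;> simp
  have c2 : ∀ k, cf k (Matrix.of Z * cc (zz B')) = cf k (Matrix.of Z) * zz B' := fun k => by
    ext; simp [cf, cc, mul_apply]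
  have key : ∀ k, cf k (Matrix.of Z) = (if a ≤ k then R * zz B' ^ (k - a) else 0) -
      if b ≤ k then zz T * zz B' ^ (k - b) else 0 := fun k => by
    have f : ∀ k, _ := fun k => congrArg (cf k) h2
    simp only [cf_sub, cf_pow_smul, c1, c2] at f
    have s : ∀ (a k : ℕ) (M : Matrix V J ℤ), (if a ≤ k + 1 then M * zz B' ^ (k + 1 - a) else 0) =
        (if a ≤ k + 1 then (if k + 1 - a = 0 then M else 0) else 0) +
          (if a ≤ k then M * zz B' ^ (k - a) else 0) * zz B' := fun a k M => by
      split_ifs with p q r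
      · omega
      · simp [q]
      · rw [zero_add, Matrix.mul_assoc, ← pow_succ]; congr 2; omega
      · omega
      · omega
      · simp
    induction k with
    | zero => simpa using (f 0).symm
    | succ k ih =>
      have := f (k + 1)
      rw [if_pos (by omega : 1 ≤ k + 1), Nat.add_sub_cancel, ih, Matrix.sub_mul] at this
      rw [s, s]
      linear_combination (norm := abel) -this
  obtain ⟨n, hn⟩ := ev_cf (Matrix.of Z)
  have := key (n + a + b)
  rw [hn _ (by omega), if_pos (by omega), if_pos (by omega), ← H12.pow_inter e, ← c.zinter] at this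
  exact ⟨T, c, _, _, sub_eq_zero.1 this.symm⟩

theorem moves : Moves where
  row _ _ _ _ _ _ _ _ _ _ _ vp r b vp' := eqv_row vp r b vp'
  col _ _ _ _ _ _ _ L B P _ S vp r b hP hT hT' n := eqv_col (S := S) vp r
    (fun u v g => (b v u g).symm) hP hT hT' ⟨vp.nn, vp.zero, ⟨P, _, hP, hT', sub_sub_cancel _ _⟩, n⟩
    (fun u v g => by
      by_contra q
      refine g ?_
      rw [sub_self, add_zero, mul_apply]
      exact Finset.sum_eq_zero fun w _ => by
        rw [show B w v = 0 from by_contra fun t => q (b w v t).2, mul_zero]) (by simp)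
  sub _ _ _ _ _ _ _ _ _ _ _ _ _ he vp r h := eqv_sub he vp r h
  ll _ _ _ _ _ _ Q L Z _ vp r a b := fun ⟨P, T, hP, hT, e⟩ =>
    eqv_ll vp r (vp.nn.add a) (by rw [cf_add, vp.zero, b, add_zero]) hP
      (by convert hT.add a using 1; linear_combination (norm := noncomm_ring) e)
      (by convert hT.add (hP.mul a) using 1; linear_combination (norm := noncomm_ring) e)
  ll2 _ _ _ _ _ _ _ _ _ _ _ vp r a b hP hT hT' := eqv_ll vp r a b hP hT hT'
  dly _ I _ _ _ _ Q Q' ξ δ a b b' r e := by
    have := eqv_dly (Finset.univ.sup δ) (1 - Q) (1 - Q') ξ δ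
      (fun i => Finset.le_sup (Finset.mem_univ i)) a (by simp [cf_sub, b]) (by simp [cf_sub, b'])
      (by rw [act_sub, r]; simp) fun i j => by
        rw [Matrix.sub_apply, Matrix.sub_apply, sub_mul, mul_sub, e, one_apply]
        split_ifs with g <;> simp [g]
    rwa [sub_sub_cancel, sub_sub_cancel] at this
  ser _ _ _ _ _ a b := ⟨(gs_inv b).1, (gs_inv b).2, gs_nn a b, dec_iff a b⟩
  out _ _ _ _ _ _ _ _ _ A ι Q ξ h b := by
    have := (h.iff _ A ι).1 (vir_self A h.rel)
    rwa [← sub_sub_cancel 1 Q, vir_hon (h.vp'.pos h.rel'), hon_lin (by simp [cf_sub, b])] at this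
  fin _ _ _ _ _ _ _ _ _ A B R κ e p h := by
    have n : N0 (zz B) := fun i j => Int.natCast_nonneg _
    have q : Pos ((X : ℤ[X]) • cc (zz B)) κ := ⟨n.cc.X_smul, by simp, h.rel'⟩
    exact real_of_rp e p ((hon_pen n (by rw [← act_smul, q.fix])).1
      ((vir_hon q).1 ((h.iff _ A _).1 (vir_self A h.rel))))

end Pool.Agent.MP_993212_an.H92
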