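import Pool.Agent.MP_993212_an.H92.PLin

/-! Block row moves and block column moves of honest systems. -/

set_option linter.unusedSectionVars false

namespace Pool.Agent.MP_993212_an.H92

open Matrix Polynomial H16 Filter

variable {G : Type} [AddCommGroup G] [Module ℤ[X] G]
variable {I J K V : Type} [Fintype I] [DecidableEq I] [Fintype J] [DecidableEq J] [Fintype V]
  [DecidableEq V] {A : Matrix V V ℕ} {ι : V → G} {N N' Y : Matrix I I ℤ[X]} {ξ : I → G}

theorem Pos.fix (h : Pos N ξ) : act N ξ = ξ := by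
  have := h.rel
  rw [act_sub, act_one, sub_eq_zero] at this
  exact this.symm

theorem Pos.mk' (a : NN N) (b : IsNilpotent (cf 0 N)) (c : act N ξ = ξ) : Pos N ξ :=
  ⟨a, b, by rw [act_sub, act_one, c, sub_self]⟩

theorem push_eq (h : Y * Y = 0) : 1 - (N + Y * N) = (1 + Y) * (1 - (N + Y)) := by
  rw [← sub_eq_zero, ← h]; noncomm_ring

theorem Pos.push (hN : NN N) (hY : NN Y) (g : Y * Y = 0) (h : Pos (N + Y) ξ) :
    Pos (N + Y * N) ξ := by
  refine ⟨hN.add (hY.mul hN), nil_mono ((hN.add (hY.mul hN)).cf 0) ?_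
    (((Commute.one_right _).add_right (Commute.refl _)).isNilpotent_mul_right h.nz),
    by rw [push_eq g, act_mul, h.rel, act_zero']⟩
  have := (hY.cf 0).add (((hN.cf 0).mul (h.nn.cf 0)).add ((hY.cf 0).mul (hY.cf 0)))
  convert this using 1
  simp only [cf_add, cf_mul]; noncomm_ring

theorem nil_blocks {B : Matrix I I ℤ} (h : IsNilpotent B) (C : Matrix J I ℤ) :
    IsNilpotent (fromBlocks B 0 C (0 : Matrix J J ℤ)) := by
  have := nil_swap (R := fromCols 1 (0 : Matrix I J ℤ)) (S := fromRows B C)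
    (by rw [fromCols_mul_fromRows]; simpa using h)
  rwa [fromRows_mul_fromCols, Matrix.mul_one, Matrix.mul_one, Matrix.mul_zero,
    Matrix.mul_zero] at this

theorem hon_alias {F : Matrix I I ℤ[X]} {Γ : Matrix I I ℤ} (hN : NN N) (hF : NN F) (hΓ : N0 Γ)
    (g : cc Γ * F = F) (h : Pos (N + (X : ℤ[X]) • F) ξ) :
    Pos (fromBlocks N ((X : ℤ[X]) • cc Γ) F 0) (Sum.elim ξ (act F ξ)) ∧
      (Hon A ι (N + (X : ℤ[X]) • F) ξ ↔
        Hon A ι (fromBlocks N ((X : ℤ[X]) • cc Γ) F 0) (Sum.elim ξ (act F ξ))) := by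
  have e1 : fromBlocks N ((X : ℤ[X]) • cc Γ) F 0 =
      fromBlocks N 0 F 0 + (X : ℤ[X]) • cc (fromBlocks 0 Γ 0 0) := by
    simp [cc_blocks, fromBlocks_smul, fromBlocks_add]
  have e2 : fromBlocks (N + (X : ℤ[X]) • F) 0 F 0 =
      fromBlocks N 0 F 0 + (X : ℤ[X]) • (cc (fromBlocks 0 Γ 0 0) * fromBlocks N 0 F 0) := by
    simp [cc_blocks, fromBlocks_smul, fromBlocks_add, fromBlocks_multiply, g]
  have n := nil_blocks (by simpa [cf_add] using h.nz : IsNilpotent (cf 0 N)) (cf 0 F)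
  have p1 : Pos (fromBlocks N ((X : ℤ[X]) • cc Γ) F 0) (Sum.elim ξ (act F ξ)) :=
    .mk' (hN.blocks hΓ.cc.X_smul hF .zero) (by simpa [cf_blocks] using n) (by
      rw [act_blocks, ← act_mul, Matrix.smul_mul, g, ← act_add, h.fix]; simp)
  have p2 : Pos (fromBlocks (N + (X : ℤ[X]) • F) 0 F 0) (Sum.elim ξ (act F ξ)) :=
    .mk' (h.nn.blocks .zero hF .zero) (by simpa [cf_blocks, cf_add] using n) (by
      rw [act_blocks, h.fix]; simp)
  refine ⟨p1, ?_⟩
  rw [e1, hon_one (Γ := fromBlocks 1 0 0 0) (hN.blocks .zero hF .zero) (N0.zero.blocks hΓ .zero .zero)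
    (N0.one.blocks .zero .zero .zero) (by simp [fromBlocks_multiply])
    (by simp [fromBlocks_multiply]) (e1 ▸ p1) (e2 ▸ p2), ← e2,
    hon_sub p2 Sum.inl_injective (by rintro (u | u) (v | v) <;> simp)]
  rfl

theorem hon_push_aux (n : ℕ) : ∀ (I : Type) [Fintype I] [DecidableEq I] (N Y : Matrix I I ℤ[X])
    (Γ : Matrix I I ℤ) (ξ : I → G), (∀ k, n ≤ k → cf k Y = 0) → NN N → NN Y → N0 Γ →
    cc Γ * Y = Y → Y * cc Γ = 0 → Pos (N + Y) ξ → (Hon A ι (N + Y) ξ ↔ Hon A ι (N + Y * N) ξ) := by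
  induction n with
  | zero =>
    intro I _ _ N Y Γ ξ d _ _ _ _ _ _
    obtain rfl : Y = 0 := by ext i j k; exact congrFun (congrFun (d k k.zero_le) i) j
    simp
  | succ n ih =>
    intro I _ _ N Y Γ ξ d hN hY hΓ g1 g2 h
    have a1 : cc Γ * cc (cf 0 Y) = cc (cf 0 Y) := by rw [← cc_mul, ← cf_cc_mul, g1]
    have a2 : cc (cf 0 Y) * cc Γ = 0 := by
      rw [← cc_mul, ← cf_cc Γ, ← cf_mul, g2, cf_zero, cc_zero]
    have b1 : cc Γ * Y.map divX = Y.map divX := by rw [← divX_cc_mul, g1]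
    have b2 : Y.map divX * cc Γ = 0 := X_smul_inj (by
      rw [← split_X Y, Matrix.add_mul, a2, zero_add, Matrix.smul_mul] at g2
      rw [g2, smul_zero])
    have d' : ∀ k, n ≤ k → cf k (Y.map divX) = 0 := fun k hk => by
      rw [← d (k + 1) (by omega)]; ext; simp [cf, coeff_divX]
    have y0 := (hY.cf 0).cc
    have y1 := hY.divX
    rw [← split_X Y] at h ⊢
    generalize cf 0 Y = Y0 at *
    generalize Y.map divX = F at *
    have c1 : cc Y0 * F = 0 := by rw [← b1, ← Matrix.mul_assoc, a2, Matrix.zero_mul]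
    have c2 : F * cc Y0 = 0 := by rw [← a1, ← Matrix.mul_assoc, b2, Matrix.zero_mul]
    have c3 : cc Y0 * cc Y0 = 0 := by
      nth_rewrite 2 [← a1]; rw [← Matrix.mul_assoc, a2, Matrix.zero_mul]
    have c4 : F * F = 0 := by nth_rewrite 2 [← b1]; rw [← Matrix.mul_assoc, b2, Matrix.zero_mul]
    have e0 : N + (cc Y0 + (X : ℤ[X]) • F) = N + (X : ℤ[X]) • F + cc Y0 := by abel
    have e1 : N + (X : ℤ[X]) • F + cc Y0 * (N + (X : ℤ[X]) • F) =
        N + cc Y0 * N + (X : ℤ[X]) • F := by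
      rw [Matrix.mul_add, Matrix.mul_smul, c1, smul_zero]; abel
    have e2 : N + (cc Y0 + (X : ℤ[X]) • F) * N =
        N + cc Y0 * N + (X : ℤ[X]) • (F * (N + cc Y0 * N)) := by
      rw [Matrix.mul_add, ← Matrix.mul_assoc, c2, Matrix.add_mul, Matrix.smul_mul]; simp [add_assoc]
    have p1 := Pos.push (hN.add y1.X_smul) y0 c3 (e0 ▸ h)
    rw [hon_left h p1 (E := 1 + Y0) (by rw [push_eq c3, cc_add, cc_one, e0]), e1, e2]
    rw [e1] at p1
    have n1 := hN.add (y0.mul hN)
    generalize N + cc Y0 * N = M at *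
    have p2 := Pos.push n1 y1.X_smul (by simp [c4]) p1
    rw [Matrix.smul_mul] at p2
    have q1 := hon_alias (A := A) (ι := ι) n1 y1 hΓ b1 p1
    have q2 := hon_alias (A := A) (ι := ι) n1 (y1.mul n1) hΓ (by rw [← Matrix.mul_assoc, b1]) p2
    have e3 : act (F * M) ξ = act F ξ := by
      nth_rewrite 2 [← p1.fix]; rw [← act_mul, Matrix.mul_add, Matrix.mul_smul, c4]; simp
    have e4 : fromBlocks M ((X : ℤ[X]) • cc Γ) F 0 =
        fromBlocks M ((X : ℤ[X]) • cc Γ) 0 0 + fromBlocks 0 0 F 0 := by simp [fromBlocks_add]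
    rw [q1.2, q2.2, e3, e4, ih _ _ _ (fromBlocks 0 0 0 1) _ (fun k hk => by simp [cf_blocks, d' k hk])
      (n1.blocks hΓ.cc.X_smul .zero .zero) (NN.zero.blocks .zero y1 .zero)
      (N0.zero.blocks .zero .zero .one) (by simp [cc_blocks, fromBlocks_multiply])
      (by simp [cc_blocks, fromBlocks_multiply]) (e4 ▸ q1.1)]
    simp [fromBlocks_multiply, fromBlocks_add, b2]

theorem ev_cf (Y : Matrix I J ℤ[X]) : ∃ n, ∀ k, n ≤ k → cf k Y = 0 :=
  have ⟨n, h⟩ := (ev_lt Y).exists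
  ⟨n, fun _ hk => Matrix.ext fun i j => coeff_eq_zero_of_natDegree_lt ((h i j).trans_le hk)⟩

theorem hon_push {Γ : Matrix I I ℤ} (hN : NN N) (hY : NN Y) (hΓ : N0 Γ) (g1 : cc Γ * Y = Y)
    (g2 : Y * cc Γ = 0) (h : Pos (N + Y) ξ) : Hon A ι (N + Y) ξ ↔ Hon A ι (N + Y * N) ξ :=
  have ⟨n, d⟩ := ev_cf Y
  hon_push_aux n I N Y Γ ξ d hN hY hΓ g1 g2 h

theorem hon_gen {R : Matrix I J ℤ[X]} {S : Matrix J I ℤ[X]} {κ : J → G} (hR : NN R) (hS : NN S)
    (n : IsNilpotent (cf 0 (R * S))) (r : act S (act R κ) = κ) :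
    Hon A ι (R * S) (act R κ) ↔ Hon A ι (S * R) κ := by
  have p : Pos (fromBlocks 0 R S 0) (Sum.elim (act R κ) κ) := by
    refine .mk' (NN.zero.blocks hR hS .zero) (IsNilpotent.of_pow (m := 2) ?_) (by
      rw [act_blocks, r]; simp)
    rw [cf_mul] at n
    obtain ⟨a, ha⟩ := n
    obtain ⟨b, hb⟩ := nil_swap ⟨a, ha⟩
    refine ⟨a + b, ?_⟩
    simp only [cf_blocks, pow_two, fromBlocks_multiply, cf_zero, Matrix.mul_zero, Matrix.zero_mul,
      add_zero, zero_add, fromBlocks_diagonal_pow]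
    rw [pow_add, ha, pow_add, hb]; simp
  have e1 : fromBlocks 0 R S 0 = fromBlocks 0 0 S 0 + fromBlocks 0 R 0 0 := by simp [fromBlocks_add]
  have e2 : fromBlocks 0 R S 0 = fromBlocks 0 R 0 0 + fromBlocks 0 0 S 0 := by simp [fromBlocks_add]
  have n1 : NN (fromBlocks (0 : Matrix I I ℤ[X]) 0 S (0 : Matrix J J ℤ[X])) :=
    NN.zero.blocks .zero hS .zero
  have n2 : NN (fromBlocks (0 : Matrix I I ℤ[X]) R 0 (0 : Matrix J J ℤ[X])) :=
    NN.zero.blocks hR .zero .zero
  have q1 := hon_push (A := A) (ι := ι) n1 n2 (N0.one.blocks .zero .zero .zero)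
    (by simp [cc_blocks, fromBlocks_multiply]) (by simp [cc_blocks, fromBlocks_multiply]) (e1 ▸ p)
  have q2 := hon_push (A := A) (ι := ι) n2 n1 (N0.zero.blocks .zero .zero .one)
    (by simp [cc_blocks, fromBlocks_multiply]) (by simp [cc_blocks, fromBlocks_multiply]) (e2 ▸ p)
  have p1 := Pos.push n1 n2 (by simp [fromBlocks_multiply]) (e1 ▸ p)
  have p2 := Pos.push n2 n1 (by simp [fromBlocks_multiply]) (e2 ▸ p)
  rw [← e1] at q1
  rw [← e2, q1] at q2
  simp only [fromBlocks_multiply, fromBlocks_add, Matrix.mul_zero, Matrix.zero_mul, add_zero,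
    zero_add] at q2 p1 p2
  rwa [hon_sub p1 Sum.inl_injective (by rintro (u | u) (v | v) <;> simp),
    hon_sub p2 Sum.inr_injective (by rintro (u | u) (v | v) <;> simp)] at q2

/-- rows in `S`, columns outside `S` -/
def Su (S : I → Prop) (B : Matrix I I ℤ[X]) : Prop := ∀ a b, B a b ≠ 0 → S a ∧ ¬S b

open Classical in
/-- the projection onto `S` -/
noncomputable def pj (S : I → Prop) : Matrix I I ℤ := diagonal fun i => if S i then 1 else 0

variable {S : I → Prop} {B W : Matrix I I ℤ[X]}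

theorem pj_nn : N0 (pj S) := fun i j => by simp only [pj, diagonal_apply]; split_ifs <;> simp

theorem su_iff : Su S B ↔ cc (pj S) * B = B ∧ B * cc (pj S) = 0 := by
  classical
  have : cc (pj S) = diagonal fun i => if S i then 1 else 0 := by
    ext i j : 2; simp only [cc, pj, map_apply, diagonal_apply]; split_ifs <;> simp
  simp only [this, ← Matrix.ext_iff, diagonal_mul, mul_diagonal, Su, ← forall_and, Matrix.zero_apply]
  refine forall₂_congr fun a b => ?_
  by_cases g : B a b = 0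
  · simp [g]
  · split_ifs <;> simp [*, eq_comm]

theorem Su.mul (h : Su S B) (g : Su S W) : B * W = 0 := by
  rw [← (su_iff.1 g).1, ← Matrix.mul_assoc, (su_iff.1 h).2, Matrix.zero_mul]

theorem Su.add (h : Su S B) (g : Su S W) : Su S (B + W) := by
  rw [su_iff] at *
  simp [Matrix.mul_add, Matrix.add_mul, *]

theorem Su.sub (h : Su S B) (g : Su S W) : Su S (B - W) := by
  rw [su_iff] at *
  simp [Matrix.mul_sub, Matrix.sub_mul, *]

/-- accumulated positive pushes of the rows in `S` through the rows outside `S` -/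
inductive Xp (S : I → Prop) (N : Matrix I I ℤ[X]) : Matrix I I ℤ[X] → Prop
  | zero : Xp S N 0
  | step {W Y : Matrix I I ℤ[X]} : Xp S N W → NN Y → Su S Y → NN (N - W * (1 - N) - Y) → Xp S N (W + Y)

theorem Xp.su (h : Xp S N W) : Su S W := by
  induction h with
  | zero => exact fun _ _ h => absurd rfl h
  | step _ _ g _ ih => exact ih.add g

theorem xp_eq (h : Su S W) (g : Su S Y) : N - (W + Y) * (1 - N) =
    N - W * (1 - N) - Y + Y * (N - W * (1 - N) - Y) := by
  rw [Matrix.mul_sub Y, Matrix.mul_sub Y, ← Matrix.mul_assoc, g.mul h, g.mul g]; noncomm_ring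

theorem Xp.nn (h : Xp S N W) (hN : NN N) : NN (N - W * (1 - N)) := by
  cases h with
  | zero => simpa using hN
  | step h a b c => rw [xp_eq h.su b]; exact c.add (a.mul c)

theorem Xp.hon (h : Xp S N W) (p : Pos N ξ) :
    Pos (N - W * (1 - N)) ξ ∧ (Hon A ι N ξ ↔ Hon A ι (N - W * (1 - N)) ξ) := by
  induction h with
  | zero => simpa using p
  | step h a b c ih =>
    rw [xp_eq h.su b, ← hon_push c a pj_nn (su_iff.1 b).1 (su_iff.1 b).2 (by simpa using ih.1)]
    exact ⟨Pos.push c a (b.mul b) (by simpa using ih.1), by simpa using ih.2⟩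

theorem Xp.hon' (h : Xp S Nᵀ W) (p : Pos N ξ) : Pos (N - (1 - N) * Wᵀ) (act (1 - Wᵀ) ξ) ∧
    (Hon A ι N ξ ↔ Hon A ι (N - (1 - N) * Wᵀ) (act (1 - Wᵀ) ξ)) := by
  induction h with
  | zero => simpa using p
  | @step W Y h a b c ih =>
    have e := congrArg transpose (xp_eq (N := Nᵀ) h.su b)
    have c' := c.tr
    have y1 := congrArg transpose (su_iff.1 b).1
    have y2 := congrArg transpose (su_iff.1 b).2
    have y3 := congrArg transpose (h.su.mul b)
    have y4 := congrArg transpose (b.mul b)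
    have t : (cc (pj S))ᵀ = cc (pj S) := by rw [cc, ← transpose_map, pj, diagonal_transpose]
    simp only [transpose_add, transpose_sub, transpose_mul, transpose_one, transpose_transpose,
      transpose_zero, t] at e c' y1 y2 y3 y4 ⊢
    have p1 : Pos (N - (1 - N) * Wᵀ - Yᵀ + Yᵀ) (act (1 - Wᵀ) ξ) := by simpa using ih.1
    have e1 : act (1 - (Wᵀ + Yᵀ)) ξ = act (1 - Yᵀ) (act (1 - Wᵀ) ξ) := by
      rw [← act_mul, Matrix.sub_mul, Matrix.mul_sub Yᵀ, y3]; congr 1; simp; abel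
    rw [e, e1, ih.2, ← sub_add_cancel (N - (1 - N) * Wᵀ) Yᵀ]
    simp only [add_sub_cancel_right]
    have a' := a.tr
    generalize N - (1 - N) * Wᵀ - Yᵀ = M at *
    generalize act (1 - Wᵀ) ξ = η at *
    generalize Yᵀ = Z at *
    have p2 := Pos.push c' a' y4 p1
    have g0 : N0 (1 - pj S) := fun i j => by
      simp only [pj, Matrix.sub_apply, one_apply, diagonal_apply]; split_ifs <;> simp
    have e2 : act (1 + Z) (act (1 - Z) η) = η := by
      rw [← act_mul, show (1 + Z) * (1 - Z) = 1 by rw [← sub_eq_zero, ← neg_eq_zero, ← y4]; noncomm_ring,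
        act_one]
    have e3 : act M η = act (1 - Z) η := by
      rw [act_sub, act_one, eq_sub_iff_add_eq, ← act_add, p1.fix]
    have e4 : M + Z * M = (1 + Z) * M := by noncomm_ring
    have e5 : M + M * Z = M * (1 + Z) := by noncomm_ring
    rw [hon_push c' a' g0 (by rw [cc_sub, cc_one, Matrix.sub_mul, y2]; simp)
      (by rw [cc_sub, cc_one, Matrix.mul_sub, y1]; simp) p1, e4, e5,
      ← hon_gen (NN.one.add a') c' (e4 ▸ p2.nz) (by rw [e2, e3]), e2]
    refine ⟨.mk' (c'.mul (NN.one.add a')) ?_ (by rw [act_mul, e2, e3]), Iff.rfl⟩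
    rw [cf_mul]
    exact nil_swap (by rw [← cf_mul, ← e4]; exact p2.nz)

theorem cf_pow_smul (k j : ℕ) (F : Matrix I J ℤ[X]) :
    cf j ((X ^ k : ℤ[X]) • F) = if k ≤ j then cf (j - k) F else 0 := by
  ext a b
  simp only [cf, map_apply, Matrix.smul_apply, smul_eq_mul, coeff_X_pow_mul']
  split_ifs <;> simp

theorem pj_mul : pj S * pj S = pj S := by
  simp only [pj, diagonal_mul_diagonal]; congr 1; funext i; split_ifs <;> simp

theorem proj_apply (F : Matrix I I ℤ) (a b : I) :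
    (pj S * F * (1 - pj S)) a b = 0 ∨ (pj S * F * (1 - pj S)) a b = F a b := by
  simp only [Matrix.mul_sub, Matrix.mul_one, pj, Matrix.sub_apply, diagonal_mul, mul_diagonal]
  split_ifs <;> simp

theorem nil_proj (hN : NN N) (n : IsNilpotent (cf 0 N)) : IsNilpotent (cf 0 N * (1 - pj S)) := by
  refine nil_mono ((hN.cf 0).mul fun i j => ?_) ?_ n
  · simp only [pj, Matrix.sub_apply, one_apply, diagonal_apply]; split_ifs <;> simp
  · simpa [Matrix.mul_sub] using (hN.cf 0).mul pj_nn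

theorem expand (hN : NN N) (n : IsNilpotent (cf 0 N)) (S : I → Prop) (k : ℕ) :
    ∃ W, Xp S N W ∧ (∀ j, k ≤ j → cf j W = 0) ∧
      ∀ j < k, pj S * cf j (N - W * (1 - N)) * (1 - pj S) = 0 := by
  obtain ⟨m, hm⟩ := nil_proj (S := S) hN n
  induction k with
  | zero => exact ⟨0, .zero, by simp, by simp⟩
  | succ k ih =>
    suffices h : ∀ i W, Xp S N W → (∀ j, k + 1 ≤ j → cf j W = 0) →
        (∀ j < k, pj S * cf j (N - W * (1 - N)) * (1 - pj S) = 0) →
        pj S * cf k (N - W * (1 - N)) * (1 - pj S) * (cf 0 N * (1 - pj S)) ^ i = 0 →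
        ∃ W, Xp S N W ∧ (∀ j, k + 1 ≤ j → cf j W = 0) ∧
          ∀ j < k + 1, pj S * cf j (N - W * (1 - N)) * (1 - pj S) = 0 by
      obtain ⟨W, a, b, c⟩ := ih
      exact h m W a (fun j hj => b j (by omega)) c (by rw [hm, Matrix.mul_zero])
    intro i
    induction i with
    | zero =>
      refine fun W a b c d => ⟨W, a, b, fun j hj => ?_⟩
      rcases Nat.lt_succ_iff_lt_or_eq.1 hj with g | rfl
      exacts [c j g, by simpa using d]
    | succ i ih =>
      intro W a b c d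
      have w := a.nn hN
      have e : ∀ Y, N - (W + Y) * (1 - N) = N - W * (1 - N) - Y + Y * N := fun Y => by noncomm_ring
      obtain ⟨Y0, hY⟩ : ∃ Y0, Y0 = pj S * cf k (N - W * (1 - N)) * (1 - pj S) := ⟨_, rfl⟩
      have y1 : pj S * Y0 = Y0 := by rw [hY, ← Matrix.mul_assoc, ← Matrix.mul_assoc, pj_mul]
      have y2 : Y0 * pj S = 0 := by
        rw [hY, Matrix.mul_assoc, Matrix.sub_mul, pj_mul, Matrix.one_mul, sub_self, Matrix.mul_zero]
      have y3 : ∀ a b, 0 ≤ Y0 a b ∧ Y0 a b ≤ ((N - W * (1 - N)) a b).coeff k := fun a b => by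
        have := w a b k
        rcases proj_apply (S := S) (cf k (N - W * (1 - N))) a b with g | g <;> rw [hY, g]
        exacts [⟨le_rfl, this⟩, ⟨this, le_rfl⟩]
      refine ih (W + (X ^ k : ℤ[X]) • cc Y0) (a.step ((N0.cc fun a b => (y3 a b).1).pow_smul k)
        (su_iff.2 ⟨by rw [Matrix.mul_smul, ← cc_mul, y1], by rw [Matrix.smul_mul, ← cc_mul, y2]; simp⟩)
        fun a b j => ?_) (fun j hj => ?_) (fun j hj => ?_) ?_
      · have := w a b j
        have := y3 a b
        rw [Matrix.sub_apply, coeff_sub]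
        simp only [Matrix.smul_apply, smul_eq_mul, coeff_X_pow_mul', cc, map_apply, coeff_C]
        split_ifs with p q
        · rw [show j = k by omega]; omega
        all_goals omega
      · rw [cf_add, b j hj, cf_pow_smul, if_pos (by omega), zero_add]
        ext; simp only [cf, cc, map_apply, coeff_C, Matrix.zero_apply]; rw [if_neg (by omega)]
      · rw [e, Matrix.smul_mul, cf_add, cf_sub, cf_pow_smul, cf_pow_smul, if_neg (by omega),
          if_neg (by omega), sub_zero, add_zero, c j hj]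
      · rw [e, Matrix.smul_mul, cf_add, cf_sub, cf_pow_smul, cf_pow_smul, if_pos le_rfl,
          if_pos le_rfl, Nat.sub_self, cf_cc, cf_cc_mul, Matrix.mul_add, Matrix.mul_sub (pj S), y1,
          ← Matrix.mul_assoc, y1, Matrix.add_mul, Matrix.sub_mul, ← hY, Matrix.mul_sub Y0, y2]
        rw [← hY, pow_succ', ← Matrix.mul_assoc, ← Matrix.mul_assoc] at d
        simpa using d

theorem common (hN : NN N) (n : IsNilpotent (cf 0 N)) (hN' : NN N') (n' : IsNilpotent (cf 0 N'))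
    (b : Su S B) (e : 1 - N' = (1 + B) * (1 - N)) :
    ∃ W W', Xp S N W ∧ Xp S N' W' ∧ W = W' + B := by
  obtain ⟨k, hk⟩ := ev_cf B
  obtain ⟨W, a1, a2, a3⟩ := expand hN n S k
  obtain ⟨W', b1, b2, b3⟩ := expand hN' n' S k
  refine ⟨W, W', a1, b1, ?_⟩
  have u := su_iff.1 ((a1.su.sub b1.su).sub b)
  have e1 : (W - W' - B) * (1 - N) = N' - W' * (1 - N') - (N - W * (1 - N)) := by
    have : N' = 1 - (1 + B) * (1 - N) := by rw [← e]; simp
    rw [e, ← Matrix.mul_assoc, Matrix.mul_add W', b1.su.mul b, this]; noncomm_ring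
  have e2 : ∀ j, k ≤ j → cf j (W - W' - B) = 0 := fun j hj => by simp [cf_sub, *]
  have e3 : ∀ j < k, pj S * cf j ((W - W' - B) * (1 - N)) * (1 - pj S) = 0 := fun j hj => by
    rw [e1, cf_sub, Matrix.mul_sub (pj S), Matrix.sub_mul, a3 j hj, b3 j hj, sub_zero]
  rw [← sub_eq_zero, ← sub_sub]
  generalize W - W' - B = U at *
  have key : ∀ j ≤ k, ∃ U', U = (X ^ j : ℤ[X]) • U' := fun j hj => by
    induction j with
    | zero => exact ⟨U, by simp⟩
    | succ j ih =>
      obtain ⟨U', rfl⟩ := ih (by omega)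
      have h1 := e3 j (by omega)
      have h2 := congrArg (cf j) u.1
      have h3 := congrArg (cf j) u.2
      simp only [Matrix.smul_mul, Matrix.mul_smul, cf_pow_smul, le_refl, if_true, Nat.sub_self,
        cf_mul, cf_cc, cf_zero, cf_sub, cf_one] at h1 h2 h3
      have h4 : cf 0 U' * (1 - cf 0 N * (1 - pj S)) = 0 := by
        rw [← Matrix.mul_assoc, h2] at h1
        rw [← h1, ← sub_eq_zero, ← h3]; noncomm_ring
      have h5 := (nil_proj (S := S) hN n).isUnit_one_sub.mul_left_eq_zero.1 h4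
      exact ⟨U'.map divX, by rw [pow_succ, mul_smul]; nth_rewrite 1 [← split_X U']; simp [h5]⟩
  obtain ⟨U', rfl⟩ := key k le_rfl
  have : U' = 0 := by
    ext a b j
    have := e2 (k + j) (by omega)
    rw [cf_pow_smul, if_pos (by omega), Nat.add_sub_cancel_left] at this
    exact congrFun (congrFun this a) b
  simp [this]

theorem hon_row (h : Pos N ξ) (h' : Pos N' ξ) (b : Su S B) (e : 1 - N' = (1 + B) * (1 - N)) :
    Hon A ι N ξ ↔ Hon A ι N' ξ := by
  obtain ⟨_, W, a1, a2, rfl⟩ := common h.nn h.nz h'.nn h'.nz b e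
  rw [(a1.hon h).2, (a2.hon h').2, e, ← Matrix.mul_assoc, Matrix.mul_add W, a2.su.mul b,
    show N' = 1 - (1 + B) * (1 - N) by rw [← e]; simp]
  congr! 1
  noncomm_ring

theorem hon_col (h : Pos N ξ) (h' : Pos N' (act (1 - B) ξ)) (b : Su S Bᵀ)
    (e : 1 - N' = (1 - N) * (1 + B)) : Hon A ι N ξ ↔ Hon A ι N' (act (1 - B) ξ) := by
  have t : ∀ {M : Matrix I I ℤ[X]}, IsNilpotent (cf 0 M) → IsNilpotent (cf 0 Mᵀ) := fun ⟨n, g⟩ =>
    ⟨n, by rw [cf, transpose_map, ← transpose_pow, ← cf, g, transpose_zero]⟩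
  obtain ⟨_, W, a1, a2, rfl⟩ := common h.nn.tr (t h.nz) h'.nn.tr (t h'.nz) b
    (by simpa using congrArg transpose e)
  have z : B * Wᵀ = 0 := by simpa using congrArg transpose (a2.su.mul b)
  have z' : Wᵀ * B = 0 := by simpa using congrArg transpose (b.mul a2.su)
  rw [(a1.hon' h).2, (a2.hon' h').2, e, Matrix.mul_assoc, Matrix.add_mul 1, z, ← act_mul,
    show N' = 1 - (1 - N) * (1 + B) by rw [← e]; simp, transpose_add, transpose_transpose]
  congr! 1
  · noncomm_ring
  · rw [Matrix.mul_sub, Matrix.sub_mul 1 _ B, z']; congr 1; noncomm_ring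

end Pool.Agent.MP_993212_an.H92
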