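import Pool.Agent.MP_993212_an.H92.PPush

/-! The moves of virtual systems. -/

set_option linter.unusedSectionVars false

namespace Pool.Agent.MP_993212_an.H92

open Matrix Polynomial H16 Filter

variable {G : Type} [AddCommGroup G] [Module ℤ[X] G]
variable {I J K V : Type} [Fintype I] [DecidableEq I] [Fintype J] [DecidableEq J] [Fintype V]
  [DecidableEq V] {A : Matrix V V ℕ} {ι : V → G} {N Q L P T P' T' B : Matrix I I ℤ[X]} {ξ : I → G}
  {S : I → Prop}

theorem pres_tr {Q' : Matrix J J ℤ[X]} {ξ' : J → G} (U : Matrix J I ℤ[X]) (U' E : Matrix I J ℤ[X])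
    (F : Matrix J J ℤ[X]) (h : act U' ξ' = ξ) (r : act Q' ξ' = 0) (e1 : Q * U' = E * Q')
    (e2 : 1 - U * U' = F * Q') (p : Pres Q ξ) : Pres Q' ξ' := by
  subst h
  refine ⟨fun g => ?_, fun y => ⟨fun hy => ?_, ?_⟩⟩
  · obtain ⟨y, rfl⟩ := p.1 g
    exact ⟨y ᵥ* U', (sum_act y U' ξ').symm⟩
  · have h1 : ξ' = act U (act U' ξ') := by
      have := congrArg (fun M => act M ξ') e2
      simp only [act_sub, act_one, act_mul, r, act_zero'] at this
      exact sub_eq_zero.1 this
    rw [h1, sum_act] at hy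
    obtain ⟨z, hz⟩ := (p.2 _).1 hy
    refine ⟨z ᵥ* E + y ᵥ* F, ?_⟩
    rw [add_vecMul, vecMul_vecMul, vecMul_vecMul, ← e1, ← e2, ← vecMul_vecMul, ← hz, vecMul_sub,
      vecMul_vecMul]
    simp
  · rintro ⟨z, rfl⟩
    rw [← sum_act, r]; simp

theorem pres_gen {R : Matrix I J ℤ[X]} {S : Matrix J I ℤ[X]} {κ : J → G}
    (r : act S (act R κ) = κ) : Pres (1 - R * S) (act R κ) ↔ Pres (1 - S * R) κ :=
  ⟨pres_tr S R R 1 rfl (by rw [act_sub, act_mul, r]; simp)
      (by simp [Matrix.mul_sub, Matrix.sub_mul, Matrix.mul_assoc]) (by simp),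
    pres_tr R S S 1 r (by rw [act_sub, act_mul, r]; simp)
      (by simp [Matrix.mul_sub, Matrix.sub_mul, Matrix.mul_assoc]) (by simp)⟩

theorem Su.inv (b : B * B = 0) : (1 + B) * (1 - B) = 1 ∧ (1 - B) * (1 + B) = 1 := by
  constructor <;> rw [← sub_eq_zero, ← neg_eq_zero, ← b] <;> noncomm_ring

theorem Su.det (b : Su S B) : (1 + B).det = 1 := by
  nth_rewrite 1 [← (su_iff.1 b).1]
  rw [det_one_add_mul_comm, (su_iff.1 b).2, add_zero, det_one]

theorem model_pos (vp : VP Q L) (r : act Q ξ = 0) (hP : NN P) (hT : NN T)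
    (e : (1 - P) * (1 - L) - T = Q) :
    Pos (fromBlocks P T 1 L) (Sum.elim (act (1 - L) ξ) ξ) := by
  have e0 : 1 - cf 0 Q = cf 0 P + cf 0 T := by
    rw [← e]; simp [cf_sub, cf_mul, vp.zero]; abel
  obtain ⟨z0, -, z2⟩ := exists_inv ((hP.cf 0).add (hT.cf 0)) (e0 ▸ vp.nz)
  generalize (1 - (cf 0 P + cf 0 T))⁻¹ = Z at *
  have n := hP.blocks hT .one vp.nn
  refine .mk' n (nil_of_inv (n.cf 0) (z0.blocks (z0.mul (hT.cf 0)) z0
    (N0.one.add (z0.mul (hT.cf 0)))) ?_) ?_
  · rw [cf_blocks, vp.zero, cf_one, ← fromBlocks_one, sub_eq_add_neg, fromBlocks_neg, fromBlocks_add,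
      fromBlocks_multiply]
    congr 1
    · linear_combination (norm := noncomm_ring) z2
    · noncomm_ring
    · linear_combination (norm := noncomm_ring) z2
    · noncomm_ring
  · rw [← e, act_sub, act_mul, act_sub 1 P, act_one, sub_sub, sub_eq_zero] at r
    rw [act_blocks, ← r, act_one, act_sub, act_one, sub_add_cancel]

theorem blocks_sub (P T L : Matrix I I ℤ[X]) :
    1 - fromBlocks P T 1 L = fromBlocks (1 - P) (-T) (-1) (1 - L) := by
  rw [← fromBlocks_one, sub_eq_add_neg, fromBlocks_neg, fromBlocks_add]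
  simp [sub_eq_add_neg]

theorem model_row {C : Matrix I I ℤ[X]} {κ : I ⊕ I → G} (p : Pos (fromBlocks P T 1 L) κ)
    (p' : Pos (fromBlocks P' T' 1 L) κ) (b : Su S B) (c : ∀ a b, C a b ≠ 0 → S a)
    (e1 : 1 - P' = (1 + B) * (1 - P) - C) (e2 : T' = (1 + B) * T - C * (1 - L)) :
    Hon A ι (fromBlocks P T 1 L) κ ↔ Hon A ι (fromBlocks P' T' 1 L) κ := by
  refine hon_row (S := Sum.elim S fun _ => False) (B := fromBlocks B C 0 0) p p' ?_ ?_
  · rintro (u | u) (v | v) g
    exacts [b u v g, ⟨c u v g, id⟩, absurd rfl g, absurd rfl g]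
  · rw [blocks_sub, blocks_sub, ← fromBlocks_one, fromBlocks_add, fromBlocks_multiply, e1, e2]
    congr 1 <;> noncomm_ring

theorem vir_iff (vp : VP Q L) (r : act Q ξ = 0) (hP : NN P) (hT : NN T)
    (e : (1 - P) * (1 - L) - T = Q) :
    Vir A ι Q L ξ ↔ Hon A ι (fromBlocks P T 1 L) (Sum.elim (act (1 - L) ξ) ξ) := by
  refine ⟨?_, fun h => ⟨P, T, hP, hT, e, h⟩⟩
  rintro ⟨P', T', a, b, c, h⟩
  refine (model_row (S := fun _ => True) (B := 0) (C := P' - P) (model_pos vp r hP hT e)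
    (model_pos vp r a b c) (fun _ _ g => absurd rfl g) (fun _ _ _ => trivial) (by simp) ?_).2 h
  linear_combination (norm := noncomm_ring) e - c

theorem eqv_row (vp : VP Q L) (r : act Q ξ = 0) (b : Su S B) (vp' : VP ((1 + B) * Q) L) :
    Eqv Q L ξ ((1 + B) * Q) L ξ := by
  have r' : act ((1 + B) * Q) ξ = 0 := by rw [act_mul, r, act_zero']
  refine ⟨vp, r, vp', r', fun V _ _ A ι => ?_, by rw [det_mul, b.det, one_mul],
    pres_tr 1 1 (1 - B) 0 (act_one _) r' (by rw [← Matrix.mul_assoc, (Su.inv (b.mul b)).2]; simp)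
      (by simp), pres_tr 1 1 (1 + B) 0 (act_one _) r (by simp) (by simp)⟩
  obtain ⟨P, T, hP, hT, e⟩ := vp.dec
  obtain ⟨P', T', hP', hT', e'⟩ := vp'.dec
  have g0 : NN (1 - cc (pj S)) := by
    rw [← cc_one, ← cc_sub]
    exact N0.cc fun i j => by
      simp only [pj, Matrix.sub_apply, one_apply, diagonal_apply]; split_ifs <;> simp
  have g1 := (su_iff.1 b).1
  have g2 : cc (pj S) * cc (pj S) = cc (pj S) := by rw [← cc_mul, pj_mul]
  have g3 : ∀ (C : Matrix I I ℤ[X]) a b, (cc (pj S) * C) a b ≠ 0 → S a := fun C a b g => by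
    by_contra q
    refine g (Finset.sum_eq_zero fun u _ => ?_)
    simp only [cc, pj, map_apply, diagonal_apply, if_neg q, ite_self, map_zero, zero_mul]
  have a1 := ((pj_nn (S := S)).cc.mul hP').add (g0.mul hP)
  have a2 := ((pj_nn (S := S)).cc.mul hT').add (g0.mul hT)
  generalize cc (pj S) = Γ at *
  have e1 : (1 - (Γ * P' + (1 - Γ) * P)) * (1 - L) - (Γ * T' + (1 - Γ) * T) = (1 + B) * Q := by
    calc _ = Γ * ((1 - P') * (1 - L) - T') + (1 - Γ) * ((1 - P) * (1 - L) - T) := by noncomm_ring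
      _ = Q + Γ * B * Q := by rw [e, e']; noncomm_ring
      _ = _ := by rw [g1]; noncomm_ring
  rw [vir_iff vp r hP hT e, vir_iff vp' r' a1 a2 e1]
  refine model_row (model_pos vp r hP hT e) (model_pos vp' r' a1 a2 e1) b
    (g3 (B * (1 - P) + (P' - P))) (by rw [Matrix.mul_add, ← Matrix.mul_assoc, g1]; noncomm_ring) ?_
  rw [Matrix.mul_add, ← Matrix.mul_assoc, g1]
  linear_combination (norm := noncomm_ring) (1 + B) * e - e1

theorem eqv_col {L' : Matrix I I ℤ[X]} (vp : VP Q L) (r : act Q ξ = 0) (b : Su S Bᵀ) (hP : NN P)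
    (hT : NN ((1 - P) * (1 - L) - Q)) (hT' : NN ((1 - P) * (1 - L') - Q * (1 + B)))
    (vp' : VP (Q * (1 + B)) L') (c : ∀ a b, ((1 - L) * B + (L' - L)) a b ≠ 0 → S b)
    (c' : (L' - L) * B = 0) : Eqv Q L ξ (Q * (1 + B)) L' (act (1 - B) ξ) := by
  have z : B * B = 0 := by simpa using congrArg transpose (b.mul b)
  obtain ⟨z1, z2⟩ := Su.inv z
  have r1 : act (1 + B) (act (1 - B) ξ) = ξ := by rw [← act_mul, z1, act_one]
  have r' : act (Q * (1 + B)) (act (1 - B) ξ) = 0 := by rw [act_mul, r1, r]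
  refine ⟨vp, r, vp', r', fun V _ _ A ι => ?_, ?_,
    pres_tr (1 - B) (1 + B) 1 0 r1 r' (by simp) (by simp [z2]),
    pres_tr (1 + B) (1 - B) 1 0 rfl r (by rw [Matrix.mul_assoc, z1]; simp) (by simp [z1])⟩
  · have p := model_pos vp r hP hT (sub_sub_cancel _ _)
    have p' := model_pos vp' r' hP hT' (sub_sub_cancel _ _)
    have e : Sum.elim (act (1 - L') (act (1 - B) ξ)) (act (1 - B) ξ) = act (1 - fromBlocks 0
        ((1 - L) * B + (L' - L)) 0 B) (Sum.elim (act (1 - L) ξ) ξ) := by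
      rw [← fromBlocks_one, sub_eq_add_neg (fromBlocks _ _ _ _), fromBlocks_neg, fromBlocks_add,
        act_blocks, ← act_mul, ← act_mul, ← act_add]
      simp only [neg_zero, add_zero, act_zero, zero_add, ← sub_eq_add_neg]
      congr 2
      linear_combination (norm := noncomm_ring) c'
    rw [vir_iff vp r hP hT (sub_sub_cancel _ _), vir_iff vp' r' hP hT' (sub_sub_cancel _ _), e]
    refine hon_col (S := Sum.elim (fun _ => False) S) p (e ▸ p') ?_ ?_
    · rintro (u | u) (v | v) g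
      exacts [absurd rfl g, absurd rfl g, ⟨c v u g, id⟩, b u v g]
    · rw [blocks_sub, blocks_sub, ← fromBlocks_one, fromBlocks_add, fromBlocks_multiply]
      congr 1 <;> noncomm_ring
  · rw [det_mul, ← det_transpose (1 + B), transpose_add, transpose_one, b.det, mul_one]

theorem eqv_ll {L' : Matrix I I ℤ[X]} (vp : VP Q L) (r : act Q ξ = 0) (a : NN L') (b : cf 0 L' = 0)
    (hP : NN P) (hT : NN ((1 - P) * (1 - L) - Q)) (hT' : NN ((1 - P) * (1 - L') - Q)) :
    Eqv Q L ξ Q L' ξ := by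
  simpa using eqv_col (S := fun _ => True) (B := 0) (L' := L') vp r (fun _ _ g => absurd rfl g) hP hT
    (by simpa using hT') (by simpa using ⟨a, b, ⟨P, _, hP, hT', sub_sub_cancel _ _⟩, vp.nz⟩)
    (fun _ _ _ => trivial) (by simp)

theorem act_submatrix {e : J → I} (he : Function.Injective e) (M : Matrix K I ℤ[X])
    (h : ∀ u v, v ∉ Set.range e → M u v = 0) : act (M.submatrix id e) (ξ ∘ e) = act M ξ :=
  funext fun k => Fintype.sum_of_injective e he _ _ (fun v hv => by rw [h _ v hv, zero_smul])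
    fun _ => rfl

theorem eqv_sub {e : J → I} (he : Function.Injective e) (vp : VP Q L) (r : act Q ξ = 0)
    (h : ∀ a b, b ∉ Set.range e → Q a b = (1 : Matrix I I ℤ[X]) a b ∧ L a b = 0) :
    Eqv Q L ξ (Q.submatrix e e) (L.submatrix e e) (ξ ∘ e) := by
  obtain ⟨P, T, hP, hT, d⟩ := vp.dec
  have o : ∀ j v, v ∉ Set.range e → (1 : Matrix I I ℤ[X]) (e j) v = 0 := fun j v hv =>
    one_apply_ne fun q => hv ⟨j, q⟩
  have c : ∀ a b, b ∉ Set.range e → P a b + T a b = 0 := fun a b hb => by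
    have := congrFun (congrFun d a) b
    rw [Matrix.mul_sub, Matrix.mul_one, Matrix.sub_apply, Matrix.sub_apply, Matrix.sub_apply,
      mul_apply, Finset.sum_eq_zero fun u _ => by rw [(h u b hb).2, mul_zero], (h a b hb).1] at this
    linear_combination -this
  have c1 : ∀ a b, b ∉ Set.range e → P a b = 0 := fun a b hb =>
    NN.eq_zero (hP a b) (hT a b) (c a b hb)
  have c2 : ∀ a b, b ∉ Set.range e → T a b = 0 := fun a b hb => by simpa [c1 a b hb] using c a b hb
  have c3 : ∀ a b, b ∉ Set.range e → (1 - Q) a b = 0 := fun a b hb => by simp [(h a b hb).1]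
  have e1 : (1 - Q).submatrix id e * (1 : Matrix I I ℤ[X]).submatrix e id = 1 - Q := by
    rw [← mul_sub' e he _ _ id id c3]; simp
  have e2 : (1 : Matrix I I ℤ[X]).submatrix e id * (1 - Q).submatrix id e =
      1 - Q.submatrix e e := by
    rw [← submatrix_mul _ _ _ _ _ Function.bijective_id, Matrix.one_mul, ← submatrix_one e he]; rfl
  have e3 : act ((1 - Q).submatrix id e) (ξ ∘ e) = ξ := by
    rw [act_submatrix he _ c3, act_sub, r]; simp
  have e4 : act ((1 : Matrix I I ℤ[X]).submatrix e id) ξ = ξ ∘ e :=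
    funext fun j => congrFun (act_one ξ) (e j)
  have d' : (1 - P.submatrix e e) * (1 - L.submatrix e e) - T.submatrix e e = Q.submatrix e e := by
    have := mul_sub' e he (1 - P) (1 - L) e e fun k v hv => by simp [o k v hv, c1 _ v hv]
    rw [← d, ← submatrix_one e he]
    exact congrArg (fun M => M - T.submatrix e e) this.symm
  have vp' : VP (Q.submatrix e e) (L.submatrix e e) :=
    ⟨vp.nn.sub _ _, Matrix.ext fun _ _ => congrFun (congrFun vp.zero _) _,
      ⟨_, _, hP.sub e e, hT.sub e e, d'⟩, by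
        have := vp.nz
        rw [← cf_one, ← cf_sub] at this ⊢
        rw [← e1, cf_mul] at this
        rw [← e2, cf_mul]
        exact nil_swap this⟩
  have r' : act (Q.submatrix e e) (ξ ∘ e) = 0 := by
    rw [← sub_sub_cancel 1 (Q.submatrix e e), ← e2, act_sub, act_mul, e3, e4]; simp
  refine ⟨vp, r, vp', r', fun V _ _ A ι => ?_, ?_, ?_⟩
  · have p := model_pos vp r hP hT d
    have i1 := Sum.map_injective.2 ⟨Function.injective_id (α := I), he⟩
    have i2 := Sum.map_injective.2 ⟨he, Function.injective_id (α := J)⟩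
    have s1 : ∀ u v, v ∉ Set.range (Sum.map id e) → fromBlocks P T 1 L u v = 0 := by
      rintro u (v | v) g
      · exact absurd ⟨Sum.inl v, rfl⟩ g
      have : v ∉ Set.range e := fun ⟨j, q⟩ => g ⟨Sum.inr j, congrArg Sum.inr q⟩
      rcases u with u | u
      exacts [c2 u v this, (h u v this).2]
    rw [vir_iff vp r hP hT d, vir_iff vp' r' (hP.sub e e) (hT.sub e e) d', hon_sub p i1 s1,
      hon_sub (p.sub i1 s1) i2]
    · congr! 1
      · rw [← submatrix_one e he]
        ext (u | u) (v | v) <;> rfl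
      · funext u
        rcases u with u | u
        · have := congrFun (act_submatrix (ξ := ξ) he ((1 - L).submatrix e id) fun k v hv => by
            simp [o k v hv, (h _ v hv).2]) u
          rw [← submatrix_one e he]
          exact this.symm
        · rfl
    · rintro u (v | v) g
      · have : v ∉ Set.range e := fun ⟨j, q⟩ => g ⟨Sum.inl j, congrArg Sum.inl q⟩
        rcases u with u | u
        exacts [c1 u v this, o u v this]
      · exact absurd ⟨Sum.inr v, rfl⟩ g
  · have := det_one_sub_mul_comm ((1 - Q).submatrix id e) ((1 : Matrix I I ℤ[X]).submatrix e id)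
    rwa [e1, e2, sub_sub_cancel, sub_sub_cancel] at this
  · have := pres_gen (R := (1 - Q).submatrix id e) (S := (1 : Matrix I I ℤ[X]).submatrix e id)
      (κ := ξ ∘ e) (by rw [e3, e4])
    rwa [e1, e2, e3, sub_sub_cancel, sub_sub_cancel] at this

theorem Pos.vp (p : Pos N ξ) : VP (1 - N) 0 :=
  ⟨.zero, cf_zero 0, ⟨N, 0, p.nn, .zero, by simp⟩, by simpa [cf_sub] using p.nz⟩

theorem VP.pos (vp : VP Q 0) (r : act Q ξ = 0) : Pos (1 - Q) ξ := by
  obtain ⟨P, T, hP, hT, e⟩ := vp.dec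
  exact ⟨by rw [← e]; simpa [sub_sub] using hP.add hT, by simpa [cf_sub] using vp.nz, by simpa⟩

theorem vir_hon (p : Pos N ξ) : Vir A ι (1 - N) 0 ξ ↔ Hon A ι N ξ := by
  have e : (1 - N) * (1 - 0) - 0 = 1 - N := by simp
  rw [vir_iff p.vp p.rel p.nn .zero e, hon_sub (model_pos p.vp p.rel p.nn .zero e) Sum.inl_injective
    (by rintro (u | u) (v | v) <;> simp), sub_zero, act_one]
  rfl

theorem eqv_gen {R : Matrix I J ℤ[X]} {S : Matrix J I ℤ[X]} {κ : J → G} (hR : NN R) (hS : NN S)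
    (n : IsNilpotent (cf 0 (R * S))) (r : act S (act R κ) = κ) :
    Eqv (1 - R * S) 0 (act R κ) (1 - S * R) 0 κ := by
  have p : Pos (R * S) (act R κ) := .mk' (hR.mul hS) n (by rw [act_mul, r])
  have p' : Pos (S * R) κ :=
    .mk' (hS.mul hR) (by rw [cf_mul] at n ⊢; exact nil_swap n) (by rw [act_mul, r])
  exact ⟨p.vp, p.rel, p'.vp, p'.rel, fun V _ _ A ι => by
    rw [vir_hon p, vir_hon p', hon_gen hR hS n r], det_one_sub_mul_comm _ _, pres_gen r⟩

end Pool.Agent.MP_993212_an.H92
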