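import Pool.Agent.MP_993212_an.H92.RSol

/-! Unipotent and parabolic arrows are products of bounded arrows. -/

namespace Pool.Agent.MP_993212_an.H92

open Matrix

variable {s n c : ℕ}

theorem le_pb (n s c : ℕ) : c + 1 ≤ pb n s c := by unfold pb; omega

theorem conn_of_bd {X Y : Tup s n} {h : Mx n} (hY : ∀ i, Bd c (Y i))
    (b : Bd (sb (n * n) (s * (n * n) + n * n) (2 * c + 1) + 1) h) (e : ∃ h', h * h' = 1)
    (a : Arr X h Y) : Conn (pb n s c) X h Y := by
  obtain ⟨h', e⟩ := e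
  exact Conn.single (fun i => (hY i).mono (by unfold pb; omega)) (b.mono (by unfold pb; omega))
    ((b.inv e).mono (by unfold pb; omega)) e a

theorem conn_unip_aux {Y : Tup s n} (hY : ∀ i, Bd c (Y i)) (a : Fin n → ℕ) (t : ℕ) (ht : 1 ≤ t)
    (ih : ∀ u : Mx n, Arr Y u Y → Up (t + 1) a a (u - 1) → Conn (pb n s c) Y u Y)
    (u : Mx n) (hu : Arr Y u Y) (hp : Up t a a (u - 1)) : Conn (pb n s c) Y u Y := by
  have hY' : ∀ i, Bd (pb n s c) (Y i) := fun i => (hY i).mono (by unfold pb; omega)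
  let A : AddSubgroup (Mx n) :=
    { carrier := {Z | Up t a a Z ∧ ∃ h, Conn (pb n s c) Y h Y ∧ Up t a a (h - 1) ∧
        Up (t + 1) a a (h - 1 - Z)}
      zero_mem' := ⟨Up.zero, 1, Conn.refl, by simpa using Up.zero, by simpa using Up.zero⟩
      add_mem' := by
        rintro Z Z' ⟨u1, h, c1, p1, q1⟩ ⟨u2, h', c2, p2, q2⟩
        refine ⟨u1.add u2, h * h', c1.trans c2, p1.mul_sub p2, ?_⟩
        have e : h * h' - 1 - (Z + Z') = (h - 1 - Z) + (h' - 1 - Z') + (h - 1) * (h' - 1) := by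
          noncomm_ring
        rw [e]
        exact (q1.add q2).add ((p1.mul p2).mono (by omega))
      neg_mem' := by
        rintro Z ⟨u1, h, c1, p1, q1⟩
        obtain ⟨h', e⟩ := c1.unit
        have p2 := p1.inv_sub e
        refine ⟨u1.neg, h', c1.symm hY' e, p2, ?_⟩
        have e1 : h' - 1 - -Z = -(h - 1 - Z) - (h - 1) * (h' - 1) := by
          rw [Matrix.sub_mul, Matrix.mul_sub, e]; noncomm_ring
        rw [e1]
        exact q1.neg.sub ((p1.mul p2).mono (by omega)) }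
  have hb : ∀ Z : Mx n, Bd (sb (n * n) (s * (n * n) + n * n) (2 * c + 1)) Z → Arr Y Z Y →
      Up t a a Z → Z ∈ A := fun Z b1 a1 u1 => by
    have u2 : Up t a a (1 + Z - 1) := by simpa using u1
    exact ⟨u1, 1 + Z, conn_of_bd hY b1.one_add (u2.mono ht).exists_inv (Arr.one.add a1), u2,
      by simpa using Up.zero⟩
  obtain ⟨K, hK, hs⟩ := sol_arr hY hY fun k l => a k + t ≤ a l
  obtain ⟨r, m, e, b⟩ := hs (u - 1) (hu.sub Arr.one) fun k l h => by
    have : (u - 1) k l = 0 := by_contra fun g => h (hp k l g)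
    rw [this]; simp
  have hm : ∑ q, m q • K q ∈ A :=
    A.sum_mem fun q _ => A.zsmul_mem (hb _ (hK q).1 (hK q).2.1 (hK q).2.2) _
  have am : Arr Y (∑ q, m q • K q) Y := fun i => by
    simp only [Matrix.mul_sum, Matrix.sum_mul, Matrix.mul_smul, Matrix.smul_mul, (hK _).2.1 i]
  have er : r = u - 1 - ∑ q, m q • K q := by rw [e]; simp
  have hr : r ∈ A := hb r b (er ▸ (hu.sub Arr.one).sub am) (er ▸ hp.sub hm.1)
  obtain ⟨-, h, c1, p1, q1⟩ : u - 1 ∈ A := e ▸ A.add_mem hr hm
  obtain ⟨h', e1⟩ := c1.unit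
  have e2 : h' * u - 1 = -(h' * (h - 1 - (u - 1))) := by
    have : h - 1 - (u - 1) = h - u := by abel
    rw [this, Matrix.mul_sub, mul_eq_one_comm.1 e1]; abel
  have c2 := ih (h' * u) ((c1.arr.inv e1).mul hu)
    (e2 ▸ by simpa using ((p1.of_sub_one.inv e1).mul q1).neg)
  have c3 := c1.trans c2
  rwa [← Matrix.mul_assoc, e1, Matrix.one_mul] at c3

/-- unitriangular automorphisms -/
theorem conn_unip {Y : Tup s n} (hY : ∀ i, Bd c (Y i)) (a : Fin n → ℕ) (u : Mx n)
    (hu : Arr Y u Y) (hp : Up 1 a a (u - 1)) : Conn (pb n s c) Y u Y := by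
  have key : ∀ d t, 1 ≤ t → Finset.univ.sup a < t + d → ∀ u : Mx n, Arr Y u Y →
      Up t a a (u - 1) → Conn (pb n s c) Y u Y := by
    intro d
    induction d with
    | zero =>
      intro t _ h u _ hp
      have := hp.eq_zero fun j => (Finset.le_sup (f := a) (Finset.mem_univ j)).trans_lt h
      rw [sub_eq_zero.1 this]
      exact Conn.refl
    | succ d ih =>
      intro t ht h
      exact conn_unip_aux hY a t ht (ih (t + 1) (by omega) (by omega))
  exact key (Finset.univ.sup a) 1 le_rfl (by omega) u hu hp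

/-- level-triangular arrows with bounded level diagonal -/
theorem conn_par {X Y : Tup s n} (hX : ∀ i, Bd c (X i)) (hY : ∀ i, Bd c (Y i))
    {a b : Fin n → ℕ} {d d' : Mx n} (e : d * d' = 1) (hd : Arr X d Y) (u' : Up 0 b a d')
    (hb : ∀ k l, ¬(a k + 1 ≤ b l) → |d k l| ≤ c) : Conn (pb n s c) X d Y := by
  obtain ⟨K, hK, hs⟩ := sol_arr hX hY fun k l => a k + 1 ≤ b l
  obtain ⟨r, m, e1, b1⟩ := hs d hd hb
  have um : Up 1 a b (∑ q, m q • K q) := fun k l h => by
    rw [Matrix.sum_apply] at h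
    obtain ⟨q, -, hq⟩ := Finset.exists_ne_zero_of_sum_ne_zero h
    exact (hK q).2.2 k l (right_ne_zero_of_smul (a := m q) hq)
  have am : Arr X (∑ q, m q • K q) Y := fun i => by
    simp only [Matrix.mul_sum, Matrix.sum_mul, Matrix.mul_smul, Matrix.smul_mul, (hK _).2.1 i]
  have er : r = d - ∑ q, m q • K q := by rw [e1]; simp
  have ar : Arr X r Y := er ▸ hd.sub am
  have e' : d' * d = 1 := mul_eq_one_comm.1 e
  have p1 : Up 1 b b (d' * r - 1) := by
    have : d' * r - 1 = -(d' * ∑ q, m q • K q) := by rw [er, Matrix.mul_sub, e']; abel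
    rw [this]
    simpa using (u'.mul um).neg
  obtain ⟨w, ew⟩ := p1.exists_inv
  have c1 : Conn (pb n s c) X r Y := conn_of_bd hY (b1.mono (by omega))
    ⟨w * d', mul_eq_one_comm.1 (by
      rw [Matrix.mul_assoc]; exact mul_eq_one_comm.1 ew)⟩ ar
  have c2 := conn_unip hY b w (((hd.inv e).mul ar).inv ew) (p1.inv_sub ew)
  have c3 := c1.trans c2
  have e3 : r * w = d := by
    calc r * w = d * (d' * r * w) := by
          rw [Matrix.mul_assoc d', ← Matrix.mul_assoc d, e, Matrix.one_mul]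
      _ = d := by rw [ew, Matrix.mul_one]
  rwa [e3] at c3

end Pool.Agent.MP_993212_an.H92
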