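import Pool.Agent.MP_993212_an.H92.RPar

/-! Level functions and bounded representatives of level-triangular semisimple tuples. -/

namespace Pool.Agent.MP_993212_an.H92

open Matrix

theorem exists_level (S : Finset ℝ) (hS : ∀ x ∈ S, 0 < x) {G : ℝ} (hG : 1 ≤ G) :
    ∃ l : ℝ → ℕ, (∀ x ∈ S, ∀ y ∈ S, l x < l y → G * x < y) ∧
      ∀ x ∈ S, ∀ y ∈ S, l x = l y → y ≤ G ^ S.card * x := by
  classical
  let F : ℝ → Finset ℝ := fun x => S.filter fun y => y < x ∧ ∀ z ∈ S, z ≤ y ∨ G * y < z
  have mono : ∀ {x y}, x ≤ y → F x ⊆ F y := fun e w hw => by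
    simp only [F, Finset.mem_filter] at hw ⊢
    exact ⟨hw.1, hw.2.1.trans_le e, hw.2.2⟩
  refine ⟨fun x => (F x).card, fun x hx y hy h => ?_, ?_⟩
  · obtain ⟨w, w1, w2⟩ := Finset.exists_mem_notMem_of_card_lt_card h
    simp only [F, Finset.mem_filter] at w1 w2
    have h1 : x ≤ w := not_lt.1 fun e => w2 ⟨w1.1, e, w1.2.2⟩
    have h2 := (w1.2.2 y hy).resolve_left (not_le.2 w1.2.1)
    nlinarith
  have key : ∀ k, ∀ x ∈ S, (S.filter fun z => x < z).card ≤ k → ∀ y ∈ S,
      (F x).card = (F y).card → y ≤ G ^ k * x := by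
    intro k
    induction k with
    | zero =>
      intro x _ h y hy _
      by_contra e
      have : y ∈ S.filter fun z => x < z := Finset.mem_filter.2 ⟨hy, by simpa using e⟩
      rw [Finset.card_eq_zero.1 (Nat.le_zero.1 h)] at this
      simp at this
    | succ k ih =>
      intro x hx h y hy e
      have h0 := hS x hx
      have h1 : 1 ≤ G ^ k := one_le_pow₀ hG
      have h2 : G * x ≤ G ^ (k + 1) * x := by
        rw [pow_succ, mul_assoc]; exact le_mul_of_one_le_left (by positivity) h1
      by_cases e1 : y ≤ x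
      · nlinarith
      obtain ⟨z, hz, z1, z2⟩ : ∃ z ∈ S, x < z ∧ z ≤ G * x := by
        by_contra g
        push Not at g
        refine (Finset.card_lt_card ⟨mono (not_le.1 e1).le, fun s => ?_⟩).ne e
        have : x ∈ F x := s (Finset.mem_filter.2 ⟨hx, not_le.1 e1,
          fun z hz => (le_or_gt z x).imp id (g z hz)⟩)
        exact lt_irrefl _ (Finset.mem_filter.1 this).2.1
      by_cases e2 : y ≤ z
      · linarith
      have e3 : (F z).card = (F y).card := le_antisymm (Finset.card_le_card (mono (not_le.1 e2).le))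
        (e ▸ Finset.card_le_card (mono z1.le))
      have e4 : (S.filter fun w => z < w).card < (S.filter fun w => x < w).card :=
        Finset.card_lt_card ⟨fun w hw => Finset.mem_filter.2 ⟨(Finset.mem_filter.1 hw).1,
          z1.trans (Finset.mem_filter.1 hw).2⟩, fun s =>
          lt_irrefl _ (Finset.mem_filter.1 (s (Finset.mem_filter.2 ⟨hz, z1⟩))).2⟩
      have e5 := ih z hz (by omega) y hy e3
      rw [pow_succ]
      nlinarith
  exact fun x hx => key _ x hx (Finset.card_filter_le _ _)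

theorem cq_mul {l m n : Type} [Fintype m] (X : Matrix l m ℤ) (Y : Matrix m n ℤ) :
    cq (X * Y) = cq X * cq Y := Matrix.map_mul

theorem cq_one {n : Type} [DecidableEq n] : cq (1 : Matrix n n ℤ) = 1 :=
  Matrix.map_one _ (map_zero _) (map_one _)

theorem cq_sub {m n : Type} (X Y : Matrix m n ℤ) : cq (X - Y) = cq X - cq Y := by
  ext; simp [cq]

theorem cq_apply {m n : Type} (X : Matrix m n ℤ) (i j) : cq X i j = X i j := rfl

theorem Up.cq {n t : ℕ} {a b : Fin n → ℕ} {X : Mx n} (h : Up t a b X) : Up t a b (cq X) :=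
  fun i j e => h i j (by simpa [cq_apply] using e)

theorem SSq.conj {s n : ℕ} {T T' : Fin s → Matrix (Fin n) (Fin n) ℚ} (h : SSq T)
    {P Q : Matrix (Fin n) (Fin n) ℚ} (e : P * Q = 1) (a : ∀ i, T i * P = P * T' i) : SSq T' := by
  have e' : Q * P = 1 := mul_eq_one_comm.1 e
  have a' : ∀ i, T' i * Q = Q * T i := fun i => by
    calc T' i * Q = Q * (P * T' i) * Q := by rw [← Matrix.mul_assoc, e', Matrix.one_mul]
      _ = Q * T i := by rw [← a i, Matrix.mul_assoc, Matrix.mul_assoc, e, Matrix.mul_one]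
  intro W hW
  obtain ⟨R, r1, r2, r3⟩ := h (W.comap (Matrix.mulVecLin Q)) fun i v hv => by
    simp only [Submodule.mem_comap, mulVecLin_apply] at hv ⊢
    rw [mulVec_mulVec, ← a', ← mulVec_mulVec]
    exact hW i _ hv
  refine ⟨Q * R * P, fun i => ?_, fun v => ?_, fun v hv => ?_⟩
  · rw [Matrix.mul_assoc, ← a, ← Matrix.mul_assoc, Matrix.mul_assoc Q, r1, ← Matrix.mul_assoc,
      ← a']
    simp only [Matrix.mul_assoc]
  · simpa [Matrix.mul_assoc] using r2 (P *ᵥ v)
  · rw [← mulVec_mulVec, ← mulVec_mulVec, r3, mulVec_mulVec, e', one_mulVec]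
    simpa [e'] using hv

theorem SS.conj {s n : ℕ} {M M' : Tup s n} (h : SS M) {g g' : Mx n} (e : g * g' = 1)
    (a : Arr M g M') : SS M' :=
  SSq.conj h (P := cq g) (Q := cq g') (by rw [← cq_mul, e, cq_one]) fun i => by
    rw [← cq_mul, a i, cq_mul]

theorem abs_mul_apply_le {n : ℕ} {R : Type} [CommRing R] [LinearOrder R] [IsStrictOrderedRing R]
    {A B : Matrix (Fin n) (Fin n) R} {a b : R} (h : ∀ i j, |A i j| ≤ a) (g : ∀ i j, |B i j| ≤ b)
    (i j : Fin n) : |(A * B) i j| ≤ n * (a * b) := by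
  rw [Matrix.mul_apply]
  refine (Finset.abs_sum_le_sum_abs _ _).trans ?_
  have := Finset.sum_le_card_nsmul Finset.univ (fun k => |A i k * B k j|) (a * b) fun k _ => by
    rw [abs_mul]; exact mul_le_mul (h _ _) (g _ _) (abs_nonneg _) ((abs_nonneg _).trans (h i k))
  simpa using this

/-- reduction of a rational unitriangular matrix modulo integral ones -/
theorem exists_size_red {n : ℕ} (l : Fin n → ℕ) (u : Matrix (Fin n) (Fin n) ℚ)
    (hu : Up 1 l l (u - 1)) (t : ℕ) : ∃ (w : Mx n) (v : Matrix (Fin n) (Fin n) ℚ),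
      Up 1 l l (w - 1) ∧ Up 1 l l (v - 1) ∧ cq w * u = v ∧
        ∀ i j, l j ≤ l i + t → |(v - 1) i j| ≤ 1 := by
  induction t with
  | zero =>
    refine ⟨1, u, by simpa using Up.zero, hu, by simp [cq_one], fun i j h => ?_⟩
    have : (u - 1) i j = 0 := by_contra fun g => by have := hu i j g; omega
    simp [this]
  | succ t ih =>
    obtain ⟨w, v, h1, h2, h3, h4⟩ := ih
    let F : Mx n := Matrix.of fun i j => if l j = l i + (t + 1) then ⌊(v - 1) i j⌋ else 0
    have hF : Up (t + 1) l l F := fun i j e => by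
      simp only [F, Matrix.of_apply] at e
      split_ifs at e with g
      · omega
      · exact absurd rfl e
    have hF' : Up 1 l l (1 - F - 1) := by simpa using (hF.mono (by omega)).neg
    have hF'' : Up 1 l l (cq (1 - F) - 1) := by rw [← cq_one, ← cq_sub]; exact hF'.cq
    refine ⟨(1 - F) * w, cq (1 - F) * v, hF'.mul_sub h1, hF''.mul_sub h2,
      by rw [cq_mul, Matrix.mul_assoc, h3], fun i j h => ?_⟩
    have e1 : cq (1 - F) * v - 1 = v - 1 - cq F - cq F * (v - 1) := by
      rw [cq_sub, cq_one]; noncomm_ring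
    have e2 : (cq F * (v - 1)) i j = 0 := by_contra fun g => by
      have := hF.cq.mul h2 i j g; omega
    rw [e1, Matrix.sub_apply, e2, sub_zero, Matrix.sub_apply, cq_apply]
    simp only [F, Matrix.of_apply]
    split_ifs with g
    · rw [Int.self_sub_floor, abs_of_nonneg (Int.fract_nonneg _)]
      exact (Int.fract_lt_one _).le
    · simpa using h4 i j (by omega)

/-- bounded representatives -/
theorem exists_rep {s n d : ℕ} {M : Tup s n} (hS : SS M) (l : Fin n → ℕ)
    (hu : ∀ i, Up 0 l l (M i)) (hb : ∀ i k j, l k = l j → |M i k j| ≤ d) :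
    ∃ (w : Mx n) (X : Tup s n), Up 1 l l (w - 1) ∧ Arr M w X ∧
      ∀ i, Bd (n * (n * 2 * d) * ib n 2) (X i) := by
  let W : ℕ → Submodule ℚ (Fin n → ℚ) := fun t =>
    { carrier := {v | ∀ k, t ≤ l k → v k = 0}
      add_mem' := fun h1 h2 k hk => by simp [h1 k hk, h2 k hk]
      zero_mem' := fun _ _ => rfl
      smul_mem' := fun c v h1 k hk => by simp [h1 k hk] }
  have hW : ∀ t i, ∀ v ∈ W t, cq (M i) *ᵥ v ∈ W t := fun t i v hv k hk => by
    rw [mulVec, dotProduct]
    refine Finset.sum_eq_zero fun j _ => ?_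
    by_cases e : M i k j = 0
    · simp [cq_apply, e]
    · have := hu i k j e
      simp [hv j (by omega)]
  choose P P1 P2 P3 using fun t => hS (W t) (hW t)
  let u : Matrix (Fin n) (Fin n) ℚ := Matrix.of fun k j => (1 - P (l j)) k j
  let D : Tup s n := fun i => Matrix.of fun k j => if l k = l j then M i k j else 0
  have u1 : Up 1 l l (u - 1) := fun k j e => by
    by_contra g
    have := P2 (l j) (Pi.single j 1) k (by omega)
    exact e (by simpa [u] using this)
  have u2 : ∀ i, cq (M i) * u = u * cq (D i) := fun i => by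
    ext k j
    have e1 : (cq (M i) * u) k j = (cq (M i) * (1 - P (l j))) k j := rfl
    have e2 : (u * cq (D i)) k j = ((1 - P (l j)) * cq (D i)) k j := by
      rw [Matrix.mul_apply, Matrix.mul_apply]
      refine Finset.sum_congr rfl fun m _ => ?_
      by_cases g : l m = l j <;> simp [u, D, cq_apply, g]
    have e3 := congrFun (P3 (l j) (fun m => (cq (M i) - cq (D i)) m j) fun m hm => by
      by_cases g : l m = l j
      · simp [D, cq_apply, g]
      · have : M i m j = 0 := by_contra fun e => by have := hu i m j e; omega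
        simp [D, cq_apply, g, this]) k
    have e4 : (P (l j) * (cq (M i) - cq (D i))) k j = (cq (M i) - cq (D i)) k j := e3
    rw [e1, e2, Matrix.mul_sub, Matrix.sub_mul, ← P1]
    rw [Matrix.mul_sub] at e4
    simp only [Matrix.sub_apply, Matrix.mul_one, Matrix.one_mul] at e4 ⊢
    linarith
  obtain ⟨w', v, h1, h2, h3, h4⟩ := exists_size_red l u u1 (Finset.univ.sup l)
  obtain ⟨w, ew⟩ := h1.exists_inv
  have ew' : w * w' = 1 := mul_eq_one_comm.1 ew
  refine ⟨w, fun i => w' * M i * w, h1.inv_sub ew, fun i => ?_, fun i k j => ?_⟩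
  · rw [← Matrix.mul_assoc, ← Matrix.mul_assoc, ew', Matrix.one_mul]
  have e1 : cq (w' * M i * w) * v = v * cq (D i) := by
    rw [← h3, ← Matrix.mul_assoc, ← cq_mul, Matrix.mul_assoc _ w, ew', Matrix.mul_one, cq_mul,
      Matrix.mul_assoc, u2, Matrix.mul_assoc]
  have e2 : cq (w' * M i * w) = v * cq (D i) * v.adjugate := by
    rw [← e1, Matrix.mul_assoc _ v, Matrix.mul_adjugate, h2.det, one_smul, Matrix.mul_one]
  have b1 : ∀ k j, |v k j| ≤ (2 : ℕ) := fun k j => by
    have g1 := h4 k j ((Finset.le_sup (f := l) (Finset.mem_univ j)).trans (by omega))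
    rw [Matrix.sub_apply, Matrix.one_apply] at g1
    rw [abs_le] at g1 ⊢
    push_cast
    split_ifs at g1 <;> constructor <;> linarith [g1.1, g1.2]
  have b2 : ∀ k j, |cq (D i) k j| ≤ d := fun k j => by
    simp only [D, cq_apply, Matrix.of_apply]
    split_ifs with g
    · exact_mod_cast hb i k j g
    · simp
  have b3 := abs_mul_apply_le (abs_mul_apply_le b1 b2) (abs_adjugate_le b1) k j
  rw [← e2, cq_apply] at b3
  have b4 : ((|(w' * M i * w) k j| : ℤ) : ℚ) ≤ ((n * (n * 2 * d) * ib n 2 : ℕ) : ℤ) := by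
    push_cast at b3 ⊢
    linarith
  exact_mod_cast b4

end Pool.Agent.MP_993212_an.H92
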