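import Pool.Agent.MP_993212_an.H92.RUp

/-! Bounded solutions of integer linear systems. -/

namespace Pool.Agent.MP_993212_an.H92

open Matrix

theorem le_gs (N c : ℕ) : c + 1 ≤ gsb N c := by
  unfold gsb
  calc c + 1 ≤ (c + 1) ^ 3 := Nat.le_self_pow (by norm_num) _
    _ ≤ _ := Nat.le_mul_of_pos_left _ (by positivity)

theorem le_gs_iter (N k c : ℕ) : c ≤ (gsb N)^[k] c := by
  induction k with
  | zero => simp
  | succ k ih => rw [Function.iterate_succ_apply']; have := le_gs N ((gsb N)^[k] c); omega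

theorem abs_sum_le {σ : Type} [Fintype σ] {f : σ → ℤ} {c : ℤ} (h : ∀ j, |f j| ≤ c) :
    |∑ j, f j| ≤ Fintype.card σ * c := by
  refine (Finset.abs_sum_le_sum_abs _ _).trans ?_
  simpa using Finset.sum_le_card_nsmul Finset.univ (fun j => |f j|) c fun j _ => h j

theorem abs_mul_le {x y c d : ℤ} (h : |x| ≤ c) (g : |y| ≤ d) : |x * y| ≤ c * d := by
  rw [abs_mul]; exact mul_le_mul h g (abs_nonneg _) ((abs_nonneg _).trans h)

variable {σ : Type} [Fintype σ] [DecidableEq σ]

/-- one equation -/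
theorem sol_one (c : ℕ) (a : σ → ℤ) (ha : ∀ j, |a j| ≤ c) :
    ∃ K : Matrix σ σ ℤ, Bd (2 * c + 1) K ∧ a ᵥ* K = 0 ∧ ∀ x : σ → ℤ, |a ⬝ᵥ x| ≤ c →
      ∃ r m, x = r + K *ᵥ m ∧ ∀ j, |r j| ≤ c + Fintype.card σ * (c * c) := by
  by_cases h0 : a = 0
  · refine ⟨1, fun i j => ?_, by simp [h0], fun x _ => ⟨0, x, by simp, fun j => ?_⟩⟩
    · rw [Matrix.one_apply]; push_cast; split_ifs <;> simp <;> positivity
    · simp; positivity
  obtain ⟨i, hi⟩ := Function.ne_iff.1 h0
  replace hi : a i ≠ 0 := hi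
  have hK : a ᵥ* (Matrix.of fun j k => (if j = k then a i else 0) - if j = i then a k else 0) = 0 := by
    ext k
    simp [vecMul, dotProduct, mul_sub, Finset.sum_sub_distrib, mul_comm]
  refine ⟨_, fun j k => ?_, hK, fun x hx => ?_⟩
  · have h1 := ha i
    have h2 := ha k
    rw [Matrix.of_apply]
    refine (abs_sub _ _).trans ?_
    push_cast
    split_ifs <;> linarith [abs_nonneg (a i), abs_nonneg (a k), abs_zero (α := ℤ)]
  set K : Matrix σ σ ℤ :=
    Matrix.of fun j k => (if j = k then a i else 0) - if j = i then a k else 0 with hKd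
  refine ⟨x - K *ᵥ fun k => x k / a i, fun k => x k / a i, by simp, ?_⟩
  set r := x - K *ᵥ fun k => x k / a i with hr
  have h1 : ∀ j, j ≠ i → |r j| ≤ c := fun j hj => by
    have : r j = x j % a i := by
      simp [hr, hKd, mulVec, dotProduct, hj, Int.emod_def]
    rw [this, abs_of_nonneg (Int.emod_nonneg _ hi)]
    exact (Int.emod_lt_abs _ hi).le.trans (ha i)
  have hc : (0 : ℤ) ≤ c := Nat.cast_nonneg c
  have h2 : a ⬝ᵥ r = a ⬝ᵥ x := by
    rw [hr, dotProduct_sub, dotProduct_mulVec, hK, zero_dotProduct, sub_zero]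
  intro j
  by_cases hj : j = i
  · subst hj
    have h3 : a j * r j = a ⬝ᵥ x - ∑ k, if k = j then 0 else a k * r k := by
      rw [← h2, dotProduct, ← Finset.sum_sub_distrib,
        Finset.sum_eq_single j (fun k _ hk => by simp [hk]) (by simp)]
      simp
    have h4 : |∑ k, if k = j then 0 else a k * r k| ≤ Fintype.card σ * ((c : ℤ) * c) :=
      abs_sum_le fun k => by
        split_ifs with hk
        · simp; positivity
        · exact abs_mul_le (ha k) (h1 k hk)
    have h5 : |r j| ≤ |a j * r j| := by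
      rw [abs_mul]; exact le_mul_of_one_le_left (abs_nonneg _) (Int.one_le_abs hi)
    rw [h3] at h5
    linarith [abs_sub (a ⬝ᵥ x) (∑ k, if k = j then 0 else a k * r k)]
  · have : (0 : ℤ) ≤ Fintype.card σ * (c * c) := by positivity
    linarith [h1 j hj]

theorem sb_step (N p c : ℕ) : gsb N c * (sb N p (gsb N c) + 1) ≤ sb N (p + 1) c := by
  unfold sb
  rw [show 2 * (p + 1) = 2 * p + 1 + 1 by ring, Function.iterate_succ_apply',
    Function.iterate_succ_apply]
  have h1 := le_gs_iter N (2 * p) (gsb N c)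
  generalize (gsb N)^[2 * p] (gsb N c) = z at h1
  generalize gsb N c = y at h1
  unfold gsb
  have h2 : (z + 1) ^ 3 ≤ (N + 1) ^ 2 * (z + 1) ^ 3 := Nat.le_mul_of_pos_left _ (by positivity)
  nlinarith [Nat.zero_le (z ^ 3), Nat.zero_le z]

/-- systems of equations -/
theorem sol_sys (p : ℕ) : ∀ (c : ℕ) (S : Fin p → σ → ℤ), (∀ e j, |S e j| ≤ c) →
    ∃ K : Matrix σ σ ℤ, Bd (sb (Fintype.card σ) p c) K ∧ (∀ e, S e ᵥ* K = 0) ∧
      ∀ x : σ → ℤ, (∀ e, |S e ⬝ᵥ x| ≤ c) →
        ∃ r m, x = r + K *ᵥ m ∧ ∀ j, |r j| ≤ sb (Fintype.card σ) p c := by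
  induction p with
  | zero =>
    intro c S _
    refine ⟨1, fun i j => ?_, fun e => e.elim0, fun x _ => ⟨0, x, by simp, fun j => by simp⟩⟩
    rw [Matrix.one_apply, sb]; push_cast; split_ifs <;> simp <;> positivity
  | succ p ih =>
    intro c S hS
    set N := Fintype.card σ with hN
    obtain ⟨K1, b1, z1, s1⟩ := sol_one c (S 0) (hS 0)
    have g0 : ((gsb N c : ℕ) : ℤ) = (N + 1) ^ 2 * (c + 1) ^ 3 := by simp [gsb]
    have hc : (0 : ℤ) ≤ c := Nat.cast_nonneg c
    have hn : (0 : ℤ) ≤ N := Nat.cast_nonneg N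
    have q1 : (0 : ℤ) ≤ N * c := by positivity
    have q2 : (0 : ℤ) ≤ N * c ^ 2 := by positivity
    have q3 : (0 : ℤ) ≤ N * c ^ 3 := by positivity
    have q4 : (0 : ℤ) ≤ N ^ 2 * c := by positivity
    have q5 : (0 : ℤ) ≤ N ^ 2 * c ^ 2 := by positivity
    have q6 : (0 : ℤ) ≤ N ^ 2 * c ^ 3 := by positivity
    have q7 : (0 : ℤ) ≤ c ^ 2 := by positivity
    have q8 : (0 : ℤ) ≤ c ^ 3 := by positivity
    have q9 : (0 : ℤ) ≤ N ^ 2 := by positivity
    have g1 : (N : ℤ) * (c * (2 * c + 1)) ≤ gsb N c := by rw [g0]; nlinarith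
    have g2 : (c : ℤ) + N * (c * (c + N * (c * c))) ≤ gsb N c := by rw [g0]; nlinarith
    have g3 : (N : ℤ) * (2 * c + 1) ≤ gsb N c := by rw [g0]; nlinarith
    have g4 : (c : ℤ) + N * (c * c) ≤ gsb N c := by rw [g0]; nlinarith
    obtain ⟨K2, b2, z2, s2⟩ := ih (gsb N c) (fun e => S e.succ ᵥ* K1) fun e j =>
      (abs_sum_le fun k => abs_mul_le (hS _ k) (by simpa using b1 k j)).trans g1
    have g5 : ((gsb N c : ℕ) : ℤ) * (sb N p (gsb N c) + 1) ≤ sb N (p + 1) c := by
      exact_mod_cast sb_step N p c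
    have hb : (0 : ℤ) ≤ sb N p (gsb N c) := Nat.cast_nonneg _
    have hg : (0 : ℤ) ≤ gsb N c := Nat.cast_nonneg _
    have g6 : (N : ℤ) * ((2 * c + 1) * sb N p (gsb N c)) ≤ gsb N c * sb N p (gsb N c) := by
      rw [← mul_assoc]; exact mul_le_mul_of_nonneg_right g3 hb
    refine ⟨K1 * K2, fun i j => ?_, fun e => ?_, fun x hx => ?_⟩
    · refine (abs_sum_le fun k => abs_mul_le (by simpa using b1 i k) (b2 k j)).trans ?_
      linarith
    · rw [← vecMul_vecMul]
      refine Fin.cases ?_ (fun e => z2 e) e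
      rw [z1, zero_vecMul]
    obtain ⟨r1, m1, e1, t1⟩ := s1 x (hx 0)
    obtain ⟨r2, m2, e2, t2⟩ := s2 m1 fun e => by
      have h1 : (S e.succ ᵥ* K1) ⬝ᵥ m1 = S e.succ ⬝ᵥ x - S e.succ ⬝ᵥ r1 := by
        rw [← dotProduct_mulVec, e1, dotProduct_add]; ring
      rw [h1]
      refine (abs_sub _ _).trans (le_trans ?_ g2)
      exact add_le_add (hx _) (abs_sum_le fun k => abs_mul_le (hS _ k) (t1 k))
    refine ⟨r1 + K1 *ᵥ r2, m2, ?_, fun j => ?_⟩
    · rw [e1, e2, mulVec_add, mulVec_mulVec, add_assoc]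
    · have h1 : |(K1 *ᵥ r2) j| ≤ N * ((2 * c + 1) * sb N p (gsb N c)) :=
        abs_sum_le fun k => abs_mul_le (by simpa using b1 j k) (t2 k)
      refine (abs_add_le _ _).trans ?_
      linarith [t1 j]

/-- intertwiners with prescribed entries off a pattern -/
theorem sol_arr {s n c : ℕ} {X Y : Tup s n} (hX : ∀ i, Bd c (X i)) (hY : ∀ i, Bd c (Y i))
    (pat : Fin n → Fin n → Prop) :
    ∃ K : Fin n × Fin n → Mx n,
      (∀ q, Bd (sb (n * n) (s * (n * n) + n * n) (2 * c + 1)) (K q) ∧ Arr X (K q) Y ∧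
        ∀ k l, K q k l ≠ 0 → pat k l) ∧
      ∀ d : Mx n, Arr X d Y → (∀ k l, ¬pat k l → |d k l| ≤ c) →
        ∃ (r : Mx n) (m : Fin n × Fin n → ℤ), d = r + ∑ q, m q • K q ∧
          Bd (sb (n * n) (s * (n * n) + n * n) (2 * c + 1)) r := by
  classical
  let E := (Fin s × Fin n × Fin n) ⊕ (Fin n × Fin n)
  let S : E → Fin n × Fin n → ℤ := Sum.elim
    (fun e q => (if q.2 = e.2.2 then X e.1 e.2.1 q.1 else 0) -
      if q.1 = e.2.1 then Y e.1 q.2 e.2.2 else 0)
    (fun e q => if q = e ∧ ¬pat e.1 e.2 then 1 else 0)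
  have hE : Fintype.card E = s * (n * n) + n * n := by simp [E]
  have hσ : Fintype.card (Fin n × Fin n) = n * n := by simp
  have ev1 : ∀ (d : Mx n) i k l, S (.inl (i, k, l)) ⬝ᵥ (fun q => d q.1 q.2) =
      (X i * d - d * Y i) k l := fun d i k l => by
    simp [S, dotProduct, mul_sub, Finset.sum_sub_distrib, Fintype.sum_prod_type, Matrix.mul_apply,
      mul_comm, Finset.sum_comm (s := (Finset.univ : Finset (Fin n))) (f := fun x y =>
        if x = k then d x y * Y i y l else 0)]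
  have ev2 : ∀ (d : Mx n) k l, S (.inr (k, l)) ⬝ᵥ (fun q => d q.1 q.2) =
      if pat k l then 0 else d k l := fun d k l => by
    by_cases h : pat k l <;> simp [S, dotProduct, h]
  let ε := Fintype.equivFinOfCardEq hE
  have hc : (0 : ℤ) ≤ c := Nat.cast_nonneg c
  obtain ⟨K, b, z, t⟩ := sol_sys (s * (n * n) + n * n) (2 * c + 1) (fun e => S (ε.symm e))
    fun e q => by
      rcases ε.symm e with e | e
      · have h1 := hX e.1 e.2.1 q.1
        have h2 := hY e.1 q.2 e.2.2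
        refine (abs_sub _ _).trans ?_
        push_cast
        split_ifs <;> linarith [abs_zero (α := ℤ)]
      · simp only [S, Sum.elim_inr]
        push_cast
        split_ifs <;> simp <;> linarith
  rw [hσ] at b t
  have z' : ∀ e q, S e ⬝ᵥ (fun q' => K q' q) = 0 := fun e q => by
    simpa [vecMul] using congrFun (z (ε e)) q
  refine ⟨fun q => Matrix.of fun k l => K (k, l) q, fun q => ⟨fun k l => b _ _, fun i => ?_,
    fun k l h => ?_⟩, fun d hd hp => ?_⟩
  · rw [← sub_eq_zero]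
    ext k l
    rw [← ev1]
    exact z' _ q
  · by_contra g
    have := ev2 (Matrix.of fun k l => K (k, l) q) k l
    rw [if_neg g] at this
    exact h (this.symm.trans (z' _ q))
  obtain ⟨r, m, e1, e2⟩ := t (fun q => d q.1 q.2) fun e => by
    rcases ε.symm e with ⟨i, k, l⟩ | ⟨k, l⟩
    · rw [ev1, hd i]; simp; positivity
    · rw [ev2]
      push_cast
      split_ifs with h
      · simp; positivity
      · linarith [hp k l h]
  refine ⟨Matrix.of fun k l => r (k, l), m, ?_, fun k l => e2 _⟩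
  ext k l
  simpa [mulVec, dotProduct, Matrix.sum_apply, mul_comm] using congrFun e1 (k, l)

end Pool.Agent.MP_993212_an.H92
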