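import Pool.Agent.MP_993212_an.H92.RDefs

/-! Level-triangular matrices, bounds for inverses, basic properties of `Conn`. -/

namespace Pool.Agent.MP_993212_an.H92

open Matrix

section Up

variable {n : ℕ} {R : Type} [CommRing R]

/-- nonzero entries raise the level by at least `t` -/
def Up (t : ℕ) (a b : Fin n → ℕ) (X : Matrix (Fin n) (Fin n) R) : Prop :=
  ∀ i j, X i j ≠ 0 → a i + t ≤ b j

variable {t u : ℕ} {a b c : Fin n → ℕ} {X Y : Matrix (Fin n) (Fin n) R}

theorem Up.zero : Up t a b (0 : Matrix (Fin n) (Fin n) R) := fun _ _ h => absurd rfl h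

theorem Up.one : Up 0 a a (1 : Matrix (Fin n) (Fin n) R) := fun i j h => by
  by_cases e : i = j
  · simp [e]
  · exact absurd (Matrix.one_apply_ne e) h

theorem Up.mono (h : Up t a b X) (e : u ≤ t) : Up u a b X := fun i j g => by
  have := h i j g; omega

theorem Up.add (h : Up t a b X) (g : Up t a b Y) : Up t a b (X + Y) := fun i j e => by
  by_cases e1 : X i j = 0
  · exact g i j (by simpa [e1] using e)
  · exact h i j e1

theorem Up.neg (h : Up t a b X) : Up t a b (-X) := fun i j e => h i j (by simpa using e)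

theorem Up.sub (h : Up t a b X) (g : Up t a b Y) : Up t a b (X - Y) := by
  rw [sub_eq_add_neg]; exact h.add g.neg

theorem Up.mul (h : Up t a b X) (g : Up u b c Y) : Up (t + u) a c (X * Y) := fun i j e => by
  rw [Matrix.mul_apply] at e
  obtain ⟨k, -, hk⟩ := Finset.exists_ne_zero_of_sum_ne_zero e
  have h1 := h i k (left_ne_zero_of_mul hk)
  have h2 := g k j (right_ne_zero_of_mul hk)
  omega

theorem Up.eq_zero (h : Up t a b X) (e : ∀ j, b j < t) : X = 0 := by
  ext i j
  by_contra g
  have := h i j g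
  have := e j
  omega

theorem Up.of_sub_one (h : Up t a a (X - 1)) : Up 0 a a X := by
  have := (h.mono (Nat.zero_le _)).add (Up.one (a := a))
  simpa using this

theorem Up.bt (h : Up 0 a a X) : BlockTriangular X a := fun i j e => by
  by_contra g
  have := h i j g
  omega

theorem Up.of_bt (h : BlockTriangular X a) : Up 0 a a X := fun i j e => by
  by_contra g
  exact e (h (by omega))

theorem Up.det (h : Up 1 a a (X - 1)) : X.det = 1 := by
  rw [h.of_sub_one.bt.det]
  refine Finset.prod_eq_one fun k _ => ?_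
  have : X.toSquareBlock a k = 1 := by
    ext i j
    have h0 : (X - 1) i.1 j.1 = 0 := by
      by_contra g
      have := h _ _ g
      rw [i.2, j.2] at this
      omega
    rw [Matrix.sub_apply, sub_eq_zero] at h0
    simp only [toSquareBlock_def, Matrix.of_apply, h0, Matrix.one_apply, Subtype.ext_iff]
  rw [this, det_one]

theorem Up.inv (h : Up 0 a a X) (e : X * Y = 1) : Up 0 a a Y := by
  haveI : Invertible X := invertibleOfRightInverse _ _ e
  have := blockTriangular_inv_of_blockTriangular h.bt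
  rw [Matrix.inv_eq_right_inv e] at this
  exact Up.of_bt this

theorem Up.inv_sub (h : Up t a a (X - 1)) (e : X * Y = 1) : Up t a a (Y - 1) := by
  have h1 : Y - 1 = -((X - 1) * Y) := by rw [Matrix.sub_mul, e]; simp
  rw [h1]
  simpa using (h.mul (h.of_sub_one.inv e)).neg

theorem Up.mul_sub (h : Up t a a (X - 1)) (g : Up t a a (Y - 1)) : Up t a a (X * Y - 1) := by
  have h1 : X * Y - 1 = (X - 1) * Y + (Y - 1) := by rw [Matrix.sub_mul]; simp
  rw [h1]
  exact (by simpa using h.mul g.of_sub_one : Up t a a ((X - 1) * Y)).add g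

theorem Up.exists_inv (h : Up 1 a a (X - 1)) : ∃ Y, X * Y = 1 :=
  ⟨X.adjugate, by rw [Matrix.mul_adjugate, h.det, one_smul]⟩

end Up

theorem abs_adjugate_le {n : ℕ} {R : Type} [CommRing R] [LinearOrder R] [IsStrictOrderedRing R]
    {X : Matrix (Fin n) (Fin n) R} {c : ℕ} (h : ∀ i j, |X i j| ≤ c) (i j : Fin n) :
    |X.adjugate i j| ≤ ib n c := by
  rw [adjugate_apply]
  have h1 := det_le (A := X.updateRow j (Pi.single i 1)) (abv := AbsoluteValue.abs)
    (x := ((c + 1 : ℕ) : R)) (fun k l => by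
      rw [AbsoluteValue.abs_apply, updateRow_apply]
      push_cast
      split_ifs
      · have h0 : (0 : R) ≤ c := Nat.cast_nonneg c
        rw [Pi.single_apply]
        split_ifs <;> simp <;> linarith
      · linarith [h k l])
  rw [AbsoluteValue.abs_apply] at h1
  refine h1.trans ?_
  rw [Fintype.card_fin, nsmul_eq_mul, ← Nat.cast_pow, ← Nat.cast_mul]
  exact Nat.cast_le.2 (Nat.mul_le_mul_right _ (Nat.factorial_le_pow n))

theorem Bd.mono {m n : Type} {c d : ℕ} {X : Matrix m n ℤ} (h : Bd c X) (e : c ≤ d) : Bd d X :=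
  fun i j => (h i j).trans (Nat.cast_le.2 e)

theorem Bd.inv {n c : ℕ} {X Y : Mx n} (h : Bd c X) (e : X * Y = 1) : Bd (ib n c) Y := by
  intro i j
  have hd : X.det * Y.det = 1 := by rw [← det_mul, e, det_one]
  have h1 : X.adjugate = X.det • Y := by
    have : X.adjugate * (X * Y) = X.det • Y := by
      rw [← Matrix.mul_assoc, adjugate_mul, Matrix.smul_mul, Matrix.one_mul]
    rwa [e, Matrix.mul_one] at this
  have h2 := abs_adjugate_le h i j
  rw [h1, Matrix.smul_apply, smul_eq_mul, abs_mul,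
    Int.isUnit_iff_abs_eq.1 (IsUnit.of_mul_eq_one _ hd), one_mul] at h2
  exact h2

theorem Bd.one_add {n c : ℕ} {X : Mx n} (h : Bd c X) : Bd (c + 1) (1 + X) := fun i j => by
  have h1 := h i j
  rw [Matrix.add_apply, Matrix.one_apply]
  push_cast
  refine (abs_add_le _ _).trans ?_
  split_ifs <;> simp <;> linarith

section Conn

variable {s n C : ℕ} {X Y Z : Tup s n} {g h : Mx n}

theorem Arr.one : Arr X 1 X := fun i => by simp

theorem Arr.mul (h1 : Arr X g Y) (h2 : Arr Y h Z) : Arr X (g * h) Z := fun i => by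
  rw [← Matrix.mul_assoc, h1 i, Matrix.mul_assoc, h2 i, Matrix.mul_assoc]

theorem Arr.inv (h1 : Arr X g Y) (e : g * h = 1) : Arr Y h X := fun i => by
  have e' : h * g = 1 := mul_eq_one_comm.1 e
  calc Y i * h = h * (g * Y i) * h := by rw [← Matrix.mul_assoc, e', Matrix.one_mul]
    _ = h * X i := by rw [← h1 i, Matrix.mul_assoc, Matrix.mul_assoc, e, Matrix.mul_one]

theorem Arr.add (h1 : Arr X g Y) (h2 : Arr X h Y) : Arr X (g + h) Y := fun i => by
  rw [Matrix.mul_add, Matrix.add_mul, h1 i, h2 i]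

theorem Arr.sub (h1 : Arr X g Y) (h2 : Arr X h Y) : Arr X (g - h) Y := fun i => by
  rw [Matrix.mul_sub, Matrix.sub_mul, h1 i, h2 i]

theorem Conn.arr (h : Conn C X g Y) : Arr X g Y := by
  induction h with
  | refl => exact Arr.one
  | step h h' Z _ _ _ _ _ e ih => exact ih.mul e

theorem Conn.unit (h : Conn C X g Y) : ∃ g', g * g' = 1 := by
  induction h with
  | refl => exact ⟨1, by simp⟩
  | @step g Y h h' Z _ _ _ _ e _ ih =>
    obtain ⟨g', e'⟩ := ih
    exact ⟨h' * g', by rw [Matrix.mul_assoc, ← Matrix.mul_assoc h, e, Matrix.one_mul, e']⟩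

theorem Conn.trans (h1 : Conn C X g Y) (h2 : Conn C Y h Z) : Conn C X (g * h) Z := by
  induction h2 with
  | refl => simpa using h1
  | step k k' Z _ b1 b2 b3 e a ih =>
    rw [← Matrix.mul_assoc]; exact Conn.step k k' Z ih b1 b2 b3 e a

theorem Conn.single {h' : Mx n} (b1 : ∀ i, Bd C (Y i)) (b2 : Bd C h) (b3 : Bd C h')
    (e : h * h' = 1) (a : Arr X h Y) : Conn C X h Y := by
  simpa using Conn.step h h' Y Conn.refl b1 b2 b3 e a

theorem Conn.bd (h : Conn C X g Y) (b : ∀ i, Bd C (X i)) : ∀ i, Bd C (Y i) := by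
  cases h with
  | refl => exact b
  | step _ _ _ _ b1 => exact b1

theorem Conn.symm (h1 : Conn C X g Y) (b : ∀ i, Bd C (X i)) {g' : Mx n} (e : g * g' = 1) :
    Conn C Y g' X := by
  induction h1 generalizing g' with
  | refl =>
    rw [Matrix.one_mul] at e
    rw [e]; exact Conn.refl
  | @step g Y k k' Z h0 b1 b2 b3 e1 a ih =>
    have e2 : g * (k * g') = 1 := by rw [← Matrix.mul_assoc, e]
    have h3 := (Conn.single (h0.bd b) b3 b2 (mul_eq_one_comm.1 e1) (a.inv e1)).trans (ih e2)
    rwa [← Matrix.mul_assoc, mul_eq_one_comm.1 e1, Matrix.one_mul] at h3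

theorem Conn.mono {D : ℕ} (h : Conn C X g Y) (e : C ≤ D) : Conn D X g Y := by
  induction h with
  | refl => exact Conn.refl
  | step k k' Z _ b1 b2 b3 e1 a ih =>
    exact Conn.step k k' Z ih (fun i => (b1 i).mono e) (b2.mono e) (b3.mono e) e1 a

end Conn

end Pool.Agent.MP_993212_an.H92
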